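import Pool.Agent.SH9.Defs
import Pool.Agent.helper7.COL.Lim

set_option autoImplicit false

/-!
# Module Collide: limits of curves when points collide, refined

If `L_d(m)` is not empty at general points, then there is a nonzero polynomial `P` in the
coordinates of `n` points such that, for every configuration `c` with `P(c) ≠ 0`, EVERY map
`π : Fin n → Fin n'` and EVERY `q : Fin n' → ℂ²`, the curves through the points
`q (π i) + t (c i - q (π i))` degenerate for `t → 0` to a curve `F ≠ 0` of degree at most `d` such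
that for every `k` there are `μ ≤ mult (q k) F` and `g ≠ 0` of degree at most `μ` with multiplicity
`m i` at `c i` for all `i` with `π i = k`, whose terms of degree `μ` are those of `F` at `q k`.

Proof: `¬ E` gives (by `dichN` with `N = 1`, first alternative excluded by `E_of_emp`-type
hypothesis `h`) a family `v : ExN 1 d → PtRing n`, `IsFamN m v`, with some `v k ≠ 0`; `P = v k`.
Then use `Pool.Agent.helper15.Coll.spec` with `u i = c i - q (π i)`; its hypothesis `hne` follows
from `col_eval` at `t = 1`. The proof of `spec` must be repeated with the extra conclusion: with the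
notation there `g = sp 0 H'`, `hrel` gives `coeff n H' = coeff n G` for `n.degree = μ` and
`sp 0 G = trans (q k) (sp 0 F')`. Finally translate `g` by `q k` (`(trans (q k)).symm`), which
moves `u i` to `c i` and does not change the terms of top degree `μ`.
-/

namespace Pool.Agent.SH9

open MvPolynomial Pool.Agent.helper5.NBS Pool.Agent.helper89.Segre
open Pool.Agent.helper73.Nag Pool.Agent.helper22.SC Pool.Agent.helper15.Coll

lemma trans_trans (a b : Fin 2 → ℂ) (F : R2) : trans a (trans b F) = trans (fun i => a i + b i) F := by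
  have : ((trans a : R2 →ₐ[ℂ] R2).comp (trans b : R2 →ₐ[ℂ] R2)) =
      (trans (fun i => a i + b i) : R2 →ₐ[ℂ] R2) := by
    apply MvPolynomial.algHom_ext
    intro i
    show trans a (trans b (X i)) = trans (fun i => a i + b i) (X i)
    rw [trans_X, trans_X, map_add, trans_X, trans_C, C_add]
    ring
  exact congrArg (fun f : R2 →ₐ[ℂ] R2 => f F) this

lemma trans_zero (F : R2) : trans (fun _ => 0) F = F := by
  have : (trans (fun _ => 0) : R2 →ₐ[ℂ] R2) = AlgHom.id ℂ R2 := by
    apply MvPolynomial.algHom_ext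
    intro i
    show trans (fun _ => 0) (X i) = X i
    rw [trans_X, C_0, add_zero]
  exact congrArg (fun f : R2 →ₐ[ℂ] R2 => f F) this

lemma trans_symm (a : Fin 2 → ℂ) (F : R2) : (trans a).symm F = trans (fun i => - a i) F := by
  rw [AlgEquiv.symm_apply_eq, trans_trans]
  have : (fun i => a i + - a i) = fun _ => (0 : ℂ) := by
    funext i
    ring
  rw [this, trans_zero]

lemma wdeg_eq_totalDegree (F : R2) : wdeg 1 F = F.totalDegree := by
  rw [wdeg, totalDegree]
  apply Finset.sup_congr rfl
  intro n _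
  rw [Finsupp.sum_fintype _ _ (fun _ => rfl), Fin.sum_univ_two]
  ring

lemma gg_same (c : ℂ) (n : ℕ) : gg c n n = 1 := by
  rw [gg]
  simp

lemma gg_lt (c : ℂ) {n m : ℕ} (h : n < m) : gg c n m = 0 := by
  rw [gg, Nat.choose_eq_zero_of_lt h]
  simp

/-- translations do not change the terms of top degree -/
lemma coeff_trans_top (p : Fin 2 → ℂ) {F : R2} {μ : ℕ} (hF : wdeg 1 F ≤ μ) (ν : Fin 2 →₀ ℕ)
    (hν : ν.degree = μ) : coeff ν (trans p F) = coeff ν F := by
  classical
  rw [degree_eq] at hν
  conv_lhs => rw [F.as_sum]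
  rw [map_sum, coeff_sum]
  have h1 : ∀ s ∈ F.support, coeff ν (trans p (monomial s (coeff s F))) =
      if s = ν then coeff s F else 0 := by
    intro s hs
    have h2 : s 0 + s 1 ≤ μ := by
      have := Finset.le_sup (f := fun n : Fin 2 →₀ ℕ => n 0 + 1 * n 1) hs
      simp only [one_mul] at this
      rw [wdeg] at hF
      simp only [one_mul] at hF
      omega
    rw [coeff_trans_monomial]
    split_ifs with h3
    · rw [h3, gg_same, gg_same]
      ring
    · by_cases h4 : s 0 < ν 0
      · rw [gg_lt _ h4]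
        ring
      · by_cases h5 : s 1 < ν 1
        · rw [gg_lt _ h5]
          ring
        · exfalso
          apply h3
          ext i
          fin_cases i
          · show s 0 = ν 0
            omega
          · show s 1 = ν 1
            omega
  rw [Finset.sum_congr rfl h1, Finset.sum_ite_eq']
  split_ifs with h
  · rfl
  · exact (notMem_support_iff.mp h).symm

lemma wdeg_trans_le (p : Fin 2 → ℂ) {F : R2} {μ : ℕ} (hF : wdeg 1 F ≤ μ) :
    wdeg 1 (trans p F) ≤ μ := by
  have h1 : trans p F = aeval (fun j : Fin 2 => (X j + C (p j) : R2)) F := rfl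
  rw [wdeg_eq_totalDegree] at hF ⊢
  rw [h1, aeval_def, eval₂_eq]
  apply totalDegree_finsetSum_le
  intro n hn
  refine (totalDegree_mul _ _).trans ?_
  rw [algebraMap_eq, totalDegree_C, zero_add]
  refine (totalDegree_finsetProd _ _).trans ?_
  have h2 : ∀ i ∈ n.support, ((X i + C (p i) : R2) ^ n i).totalDegree ≤ n i := by
    intro i _
    refine (totalDegree_pow _ _).trans ?_
    have h3 : (X i + C (p i) : R2).totalDegree ≤ 1 := by
      refine (totalDegree_add _ _).trans ?_
      rw [totalDegree_X, totalDegree_C]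
      simp
    calc n i * _ ≤ n i * 1 := Nat.mul_le_mul_left _ h3
      _ = n i := mul_one _
  exact ((Finset.sum_le_sum h2).trans (le_totalDegree hn)).trans hF

theorem collide {d n : ℕ} {m : Fin n → ℕ} (h : ∀ c : Fin n → Fin 2 → ℂ, ¬ Emp d m c) :
    ∃ P : PtRing n, P ≠ 0 ∧ ∀ c : Fin n → Fin 2 → ℂ, evP c P ≠ 0 →
      ∀ (n' : ℕ) (π : Fin n → Fin n') (q : Fin n' → Fin 2 → ℂ),
        ∃ F : R2, F ≠ 0 ∧ wdeg 1 F ≤ d ∧ ∀ k : Fin n', ∃ (μ : ℕ) (g : R2), g ≠ 0 ∧
          μ ≤ mult (q k) F ∧ wdeg 1 g ≤ μ ∧ (∀ i, π i = k → g ∈ ptIdeal (c i) ^ m i) ∧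
          ∀ ν : Fin 2 →₀ ℕ, ν.degree = μ → coeff ν g = coeff ν (trans (q k) F) := by
  classical
  obtain ⟨P, hP0, hP⟩ := dichN (N := 1) one_pos n d m
  obtain ⟨v, hv, k0, hk0⟩ : ∃ v : ExN 1 d → PtRing n, IsFamN m v ∧ ∃ k, v k = P := by
    rcases hP with h1 | h1
    · exfalso
      obtain ⟨p, hp⟩ : ∃ p : Fin n → Fin 2 → ℂ, evP p P ≠ 0 := by
        by_contra hcon
        push Not at hcon
        exact hP0 (evP_eq_zero hcon)
      exact h p (fun F hF1 hF2 => h1 p hp F ⟨hF1, hF2⟩)
    · exact h1
  refine ⟨P, hP0, fun c hc n' π q => ?_⟩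
  obtain ⟨F, hF0, hFd, hF⟩ := Pool.Agent.helper7.COL.specL (N := 1) one_pos hv π
    (fun i l => c i l - q (π i) l) q ⟨k0, by
      intro h0
      apply hc
      have h1 := col_eval π (fun i l => c i l - q (π i) l) q 1 (v k0)
      rw [h0, Polynomial.eval_zero] at h1
      have h2 : (fun i l => q (π i) l + 1 * (c i l - q (π i) l)) = c := by
        funext i l
        ring
      rw [h2, hk0] at h1
      exact h1.symm⟩
  refine ⟨F, hF0, hFd, fun k => ?_⟩
  obtain ⟨g, μ, hg0, hgμ, hμ, hgm, hgt⟩ := hF k
  have hgμ' : wdeg 1 g ≤ μ := by rw [wdeg_eq_totalDegree]; exact hgμ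
  have hsd : wdeg 1 ((trans (q k)).symm g) ≤ μ := by
    rw [trans_symm]
    exact wdeg_trans_le _ hgμ'
  refine ⟨μ, (trans (q k)).symm g, ?_, hμ, hsd, ?_, ?_⟩
  · intro h0
    apply hg0
    exact (map_eq_zero_iff _ (trans (q k)).symm.injective).mp h0
  · intro i hi
    have h1 := hgm i hi
    rw [mem_ptIdeal_pow] at h1 ⊢
    intro ν hν
    rw [trans_symm, trans_trans]
    have h2 : (fun l => c i l + - q k l) = fun l => c i l - q (π i) l := by
      funext l
      rw [hi]
      ring
    rw [h2]
    exact h1 ν hν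
  · intro ν hν
    rw [hgt ν hν]
    have h1 := coeff_trans_top (q k) hsd ν hν
    rw [AlgEquiv.apply_symm_apply] at h1
    exact h1.symm

end Pool.Agent.SH9
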