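import Mathlib
import Pool.Agent.helper89.Segre2.Wr

set_option autoImplicit false

/-!
# Module Gl2: two subspaces of binary forms can be moved into general position by `GL₂`

Everything is in `MvPolynomial (Fin 2) ℂ`; `S N` is the space of forms of degree `N`
(`homogeneousSubmodule (Fin 2) ℂ N`), `lact g f` is the substitution `X i ↦ ∑ j, g i j X j`.

Claim: `V, W ≤ S N` of dimensions `a`, `b` with `a + b ≤ N + 1`. Then there is a nonzero polynomial
`Δ` in the four entries of `g` such that `Δ(g) ≠ 0` implies `lact g f ∉ W` for all nonzero `f ∈ V`.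

Proof. (0) It suffices to find ONE matrix `g` with this property: let `P : ℂ[X, Y] → ℂ^a` be linear,
zero on `W`, with `P (lact g v_i) = e_i` for a basis `v_i` of `V`; `Δ(g) = det (P (lact g v_i))`.
(1) For a subspace `U ≤ ℂ[z]` of dimension at most `a` and all but finitely many `c ∈ ℂ`, no
nonzero `u ∈ U` is divisible by `(z - c)^a` (`exists_finset_vanish`).
(2) Hence after a substitution `X ↦ X + c Y` no nonzero form of `V` is divisible by `X ^ a`, and
after a substitution `Y ↦ Y + c' X` no nonzero form of `W` is divisible by `Y ^ b`.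
(3) The coefficients of `X^j Y^(N-j)`, `j > N - b`, of a form in `W` determine the others: they are
`∑ j, c k j w_j`. The matrix `v_k - ∑ j, c k j λ^(j-k) v_j` (`k < a`, `v` in a basis of `V`) is
invertible for `λ = 0`, so for some `λ ≠ 0`; then `τ_λ V ∩ W = 0` for `τ_λ : X ↦ λ X`.
-/

namespace Pool.Agent.SH9

open MvPolynomial

/-- the linear substitution `X i ↦ ∑ j, g (i, j) X j` -/
noncomputable def lact (g : Fin 2 × Fin 2 → ℂ) : MvPolynomial (Fin 2) ℂ →ₐ[ℂ] MvPolynomial (Fin 2) ℂ :=
  aeval fun i => ∑ j, C (g (i, j)) * X j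

/-- product of matrices -/
def gmul (g h : Fin 2 × Fin 2 → ℂ) : Fin 2 × Fin 2 → ℂ := fun x => ∑ j, g (x.1, j) * h (j, x.2)

lemma lact_lact (g h : Fin 2 × Fin 2 → ℂ) (f : MvPolynomial (Fin 2) ℂ) :
    lact g (lact h f) = lact (gmul h g) f := by
  have : (lact g).comp (lact h) = lact (gmul h g) := by
    apply MvPolynomial.algHom_ext
    intro i
    simp only [AlgHom.comp_apply, lact, aeval_X, map_mul, gmul, Fin.sum_univ_two, map_add]
    simp only [← MvPolynomial.algebraMap_eq, AlgHom.commutes]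
    ring
  exact congrArg (fun q : MvPolynomial (Fin 2) ℂ →ₐ[ℂ] MvPolynomial (Fin 2) ℂ => q f) this

/-- the generic linear substitution -/
noncomputable def lactG : MvPolynomial (Fin 2) ℂ →+*
    MvPolynomial (Fin 2) (MvPolynomial (Fin 2 × Fin 2) ℂ) :=
  eval₂Hom (C.comp C) fun i => ∑ j, C (X (i, j)) * X j

lemma map_lactG (g : Fin 2 × Fin 2 → ℂ) (f : MvPolynomial (Fin 2) ℂ) :
    MvPolynomial.map (eval g) (lactG f) = lact g f := by
  have : (MvPolynomial.map (eval g)).comp lactG = (lact g : MvPolynomial (Fin 2) ℂ →+* _) := by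
    apply MvPolynomial.ringHom_ext
    · intro a
      simp [lactG]
    · intro i
      simp [lactG, lact]
  exact congrArg (fun q : MvPolynomial (Fin 2) ℂ →+* MvPolynomial (Fin 2) ℂ => q f) this

/-- a linear functional of `lact g f` is a polynomial in `g` -/
lemma exists_poly (P : MvPolynomial (Fin 2) ℂ →ₗ[ℂ] ℂ) (f : MvPolynomial (Fin 2) ℂ) :
    ∃ q : MvPolynomial (Fin 2 × Fin 2) ℂ, ∀ g, eval g q = P (lact g f) := by
  refine ⟨∑ n ∈ (lactG f).support, coeff n (lactG f) * C (P (monomial n 1)), fun g => ?_⟩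
  rw [← map_lactG, map_sum]
  conv_rhs => rw [(lactG f).as_sum]
  rw [map_sum, map_sum]
  apply Finset.sum_congr rfl
  intro n _
  rw [map_mul, eval_C, map_monomial]
  have : (monomial n (eval g (coeff n (lactG f))) : MvPolynomial (Fin 2) ℂ) =
      eval g (coeff n (lactG f)) • monomial n 1 := by
    rw [smul_monomial, smul_eq_mul, mul_one]
  rw [this, map_smul, smul_eq_mul]

/-- it suffices to find one matrix -/
lemma general_of_one (V W : Submodule ℂ (MvPolynomial (Fin 2) ℂ)) [FiniteDimensional ℂ V]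
    (g₀ : Fin 2 × Fin 2 → ℂ) (h : ∀ f ∈ V, lact g₀ f ∈ W → f = 0) :
    ∃ Δ : MvPolynomial (Fin 2 × Fin 2) ℂ, Δ ≠ 0 ∧ ∀ g : Fin 2 × Fin 2 → ℂ, eval g Δ ≠ 0 →
      ∀ f ∈ V, lact g f ∈ W → f = 0 := by
  classical
  set a := Module.finrank ℂ V
  let v : Module.Basis (Fin a) ℂ V := Module.finBasis ℂ V
  let T : (Fin a → ℂ) →ₗ[ℂ] (MvPolynomial (Fin 2) ℂ ⧸ W) :=
    W.mkQ ∘ₗ (lact g₀).toLinearMap ∘ₗ V.subtype ∘ₗ (v.equivFun.symm : (Fin a → ℂ) →ₗ[ℂ] V)
  have hT : LinearMap.ker T = ⊥ := by
    rw [LinearMap.ker_eq_bot']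
    intro x hx
    have h1 : lact g₀ ((v.equivFun.symm x : V) : MvPolynomial (Fin 2) ℂ) ∈ W := by
      rw [← Submodule.Quotient.mk_eq_zero W]
      exact hx
    have h2 := h _ (v.equivFun.symm x).2 h1
    have h3 : v.equivFun.symm x = 0 := Subtype.ext h2
    exact (LinearEquiv.map_eq_zero_iff _).mp h3
  obtain ⟨L, hL⟩ := LinearMap.exists_leftInverse_of_injective T hT
  have hq : ∀ (k i : Fin a), ∃ q : MvPolynomial (Fin 2 × Fin 2) ℂ, ∀ g, eval g q =
      (LinearMap.proj k ∘ₗ L ∘ₗ W.mkQ) (lact g (v i : MvPolynomial (Fin 2) ℂ)) :=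
    fun k i => exists_poly _ _
  choose q hq using hq
  let M : Matrix (Fin a) (Fin a) (MvPolynomial (Fin 2 × Fin 2) ℂ) := Matrix.of q
  have hdet : ∀ g, eval g M.det = (Matrix.of fun k i : Fin a => eval g (q k i)).det := by
    intro g
    rw [RingHom.map_det]
    rfl
  refine ⟨M.det, ?_, ?_⟩
  · intro h0
    have h1 := hdet g₀
    rw [h0, map_zero] at h1
    have h2 : (Matrix.of fun k i : Fin a => eval g₀ (q k i)) = 1 := by
      ext k i
      rw [Matrix.of_apply, hq]
      have h3 : T (Pi.single i 1) = W.mkQ (lact g₀ (v i : MvPolynomial (Fin 2) ℂ)) := by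
        show W.mkQ (lact g₀ ((v.equivFun.symm (Pi.single i 1) : V) : MvPolynomial (Fin 2) ℂ)) = _
        congr 3
        rw [Module.Basis.equivFun_symm_apply]
        rw [Finset.sum_eq_single i]
        · simp
        · intro j _ hj
          rw [Pi.single_eq_of_ne hj, zero_smul]
        · intro h4
          exact absurd (Finset.mem_univ i) h4
      have h4 := LinearMap.congr_fun hL (Pi.single i 1)
      rw [LinearMap.comp_apply, h3, LinearMap.id_apply] at h4
      rw [LinearMap.comp_apply, LinearMap.comp_apply, h4, LinearMap.proj_apply, Matrix.one_apply,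
        Pi.single_apply]
    rw [h2, Matrix.det_one] at h1
    exact zero_ne_one h1
  · intro g hg f hf hfW
    rw [hdet] at hg
    set A : Matrix (Fin a) (Fin a) ℂ := Matrix.of fun k i : Fin a => eval g (q k i)
    have h1 : A.mulVec (v.equivFun ⟨f, hf⟩) = 0 := by
      funext k
      show ∑ i, A k i * v.equivFun ⟨f, hf⟩ i = 0
      have h2 : f = ∑ i, v.equivFun ⟨f, hf⟩ i • (v i : MvPolynomial (Fin 2) ℂ) := by
        have := congrArg (Submodule.subtype V) (v.sum_equivFun ⟨f, hf⟩)
        rw [map_sum] at this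
        simp only [map_smul, Submodule.subtype_apply] at this
        exact this.symm
      have h3 : (LinearMap.proj k ∘ₗ L ∘ₗ W.mkQ) (lact g f) = 0 := by
        have : W.mkQ (lact g f) = 0 := (Submodule.Quotient.mk_eq_zero W).mpr hfW
        rw [LinearMap.comp_apply, LinearMap.comp_apply, this, map_zero, map_zero]
      rw [h2, map_sum, map_sum] at h3
      rw [← h3]
      apply Finset.sum_congr rfl
      intro i _
      rw [map_smul, map_smul, smul_eq_mul, ← hq, mul_comm]
      rfl
    have h2 := Matrix.eq_zero_of_mulVec_eq_zero hg h1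
    have h3 : (⟨f, hf⟩ : V) = 0 := (LinearEquiv.map_eq_zero_iff v.equivFun).mp h2
    exact congrArg (fun z : V => (z : MvPolynomial (Fin 2) ℂ)) h3

/-- step (3) -/
lemma exists_scale {N a b : ℕ} (hab : a + b ≤ N + 1) (V W : Submodule ℂ (Polynomial ℂ))
    [FiniteDimensional ℂ V] (hVa : Module.finrank ℂ V = a)
    (hVN : ∀ f ∈ V, f.natDegree ≤ N)
    (hV : ∀ f ∈ V, (∀ k < a, f.coeff k = 0) → f = 0)
    (hW : ∀ f ∈ W, (∀ j, N < j + b → j ≤ N → f.coeff j = 0) → f = 0) :
    ∃ lam : ℂ, lam ≠ 0 ∧ ∀ f ∈ V, f.comp (Polynomial.C lam * Polynomial.X) ∈ W → f = 0 := by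
  classical
  -- the upper coefficients determine an element of `W`
  let J := {j : ℕ // N < j + b ∧ j ≤ N}
  have hJfin : Finite J := Finite.of_injective (β := Fin (N + 1))
    (fun j => ⟨j.1, Nat.lt_succ_of_le j.2.2⟩) (fun x y h => Subtype.ext (by simpa using h))
  have := Fintype.ofFinite J
  let top : Polynomial ℂ →ₗ[ℂ] (J → ℂ) := LinearMap.pi fun j => Polynomial.lcoeff ℂ j.1
  have hker : LinearMap.ker (top ∘ₗ W.subtype) = ⊥ := by
    rw [LinearMap.ker_eq_bot']
    intro f hf
    apply Subtype.ext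
    apply hW f.1 f.2
    intro j h1 h2
    exact congrFun hf ⟨j, h1, h2⟩
  obtain ⟨L, hL⟩ := LinearMap.exists_leftInverse_of_injective _ hker
  let c : ℕ → J → ℂ := fun k j => ((L (Pi.single j 1) : W) : Polynomial ℂ).coeff k
  have hc : ∀ f ∈ W, ∀ k, f.coeff k = ∑ j, c k j * f.coeff j.1 := by
    intro f hf k
    have h1 := LinearMap.congr_fun hL ⟨f, hf⟩
    have h2 : (top ∘ₗ W.subtype) ⟨f, hf⟩ = ∑ j, (f.coeff j.1) • (Pi.single j 1 : J → ℂ) := by
      funext i
      rw [Finset.sum_apply, Finset.sum_eq_single i]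
      · simp [top]
      · intro j _ hj
        simp [Pi.single_eq_of_ne hj.symm]
      · intro h
        exact absurd (Finset.mem_univ i) h
    rw [LinearMap.comp_apply, h2, map_sum] at h1
    have h3 := congrArg (fun z : W => (z : Polynomial ℂ).coeff k) h1
    simp only [map_smul, LinearMap.id_apply] at h3
    rw [← h3, Submodule.coe_sum, Polynomial.finsetSum_coeff]
    apply Finset.sum_congr rfl
    intro j _
    rw [Submodule.coe_smul, Polynomial.coeff_smul, smul_eq_mul, mul_comm]
  let v : Module.Basis (Fin a) ℂ V := Module.finBasisOfFinrankEq ℂ V hVa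
  let M : Matrix (Fin a) (Fin a) (Polynomial ℂ) := Matrix.of fun k i =>
    Polynomial.C ((v i : Polynomial ℂ).coeff k) -
      ∑ j : J, Polynomial.C (c k j * (v i : Polynomial ℂ).coeff j.1) * Polynomial.X ^ (j.1 - k)
  have hM : ∀ lam : ℂ, M.det.eval lam = (Matrix.of fun k i : Fin a =>
      (v i : Polynomial ℂ).coeff k -
      ∑ j : J, c k j * (v i : Polynomial ℂ).coeff j.1 * lam ^ (j.1 - k)).det := by
    intro lam
    rw [← Polynomial.coe_evalRingHom, RingHom.map_det]
    congr 1
    ext k i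
    simp [M, Polynomial.eval_finsetSum]
  have hsum : ∀ (x : V) (k : ℕ), (x : Polynomial ℂ).coeff k =
      ∑ i, v.equivFun x i * (v i : Polynomial ℂ).coeff k := by
    intro x k
    have h1 := congrArg (fun z : V => (z : Polynomial ℂ).coeff k) (v.sum_equivFun x)
    change ((∑ i, v.equivFun x i • v i : V) : Polynomial ℂ).coeff k = (x : Polynomial ℂ).coeff k at h1
    rw [← h1, Submodule.coe_sum, Polynomial.finsetSum_coeff]
    apply Finset.sum_congr rfl
    intro i _
    rw [Submodule.coe_smul, Polynomial.coeff_smul, smul_eq_mul]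
  have hM0 : M.det ≠ 0 := by
    intro h0
    have h1 := hM 0
    rw [h0, Polynomial.eval_zero] at h1
    have h2 : (Matrix.of fun k i : Fin a => (v i : Polynomial ℂ).coeff k -
        ∑ j : J, c k j * (v i : Polynomial ℂ).coeff j.1 * (0 : ℂ) ^ (j.1 - k)) =
        Matrix.of fun k i : Fin a => (v i : Polynomial ℂ).coeff k := by
      ext k i
      rw [Matrix.of_apply, Matrix.of_apply, Finset.sum_eq_zero, sub_zero]
      intro j _
      have := j.2.1
      have := k.2
      rw [zero_pow (by omega), mul_zero]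
    rw [h2] at h1
    obtain ⟨x, hx0, hx⟩ := Matrix.exists_mulVec_eq_zero_iff.mpr h1.symm
    have h3 : (v.equivFun.symm x : V) = 0 := by
      apply Subtype.ext
      apply hV _ (v.equivFun.symm x).2
      intro k hk
      rw [hsum]
      have h4 := congrFun hx ⟨k, hk⟩
      change ∑ i, (v i : Polynomial ℂ).coeff k * x i = 0 at h4
      rw [← h4]
      apply Finset.sum_congr rfl
      intro i _
      rw [LinearEquiv.apply_symm_apply, mul_comm]
    exact hx0 ((LinearEquiv.map_eq_zero_iff _).mp h3)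
  -- a good value
  obtain ⟨lam, hlam⟩ : ∃ lam : ℂ, (Polynomial.X * M.det).eval lam ≠ 0 := by
    by_contra hcon
    push Not at hcon
    exact mul_ne_zero Polynomial.X_ne_zero hM0 (Polynomial.funext fun z => by
      rw [hcon z, Polynomial.eval_zero])
  rw [Polynomial.eval_mul, Polynomial.eval_X] at hlam
  have hlam0 := left_ne_zero_of_mul hlam
  refine ⟨lam, hlam0, fun f hf hfW => ?_⟩
  have hdet := right_ne_zero_of_mul hlam
  rw [hM] at hdet
  have hcoef : ∀ k, (f.comp (Polynomial.C lam * Polynomial.X)).coeff k = f.coeff k * lam ^ k := by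
    intro k
    rw [Polynomial.comp_C_mul_X_coeff]
  have h1 : (Matrix.of fun k i : Fin a => (v i : Polynomial ℂ).coeff k -
      ∑ j : J, c k j * (v i : Polynomial ℂ).coeff j.1 * lam ^ (j.1 - k)).mulVec
      (v.equivFun ⟨f, hf⟩) = 0 := by
    funext k
    show ∑ i, ((v i : Polynomial ℂ).coeff k -
      ∑ j : J, c k j * (v i : Polynomial ℂ).coeff j.1 * lam ^ (j.1 - k)) *
      v.equivFun ⟨f, hf⟩ i = 0
    have h2 := hc _ hfW k
    rw [hcoef] at h2
    simp only [hcoef] at h2
    have h3 : f.coeff k = ∑ j : J, c k j * f.coeff j.1 * lam ^ (j.1 - k) := by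
      have hk : lam ^ (k : ℕ) ≠ 0 := pow_ne_zero _ hlam0
      apply mul_right_cancel₀ hk
      rw [h2, Finset.sum_mul]
      apply Finset.sum_congr rfl
      intro j _
      have hj : j.1 = (j.1 - k) + k := by
        have := j.2.1
        have := k.2
        omega
      have : lam ^ j.1 = lam ^ (j.1 - k) * lam ^ (k : ℕ) := by rw [← pow_add, ← hj]
      rw [this]
      ring
    have h4 : ∑ i, ((v i : Polynomial ℂ).coeff k -
        ∑ j : J, c k j * (v i : Polynomial ℂ).coeff j.1 * lam ^ (j.1 - k)) *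
        v.equivFun ⟨f, hf⟩ i = f.coeff k - ∑ j : J, c k j * f.coeff j.1 * lam ^ (j.1 - k) := by
      have e1 := hsum ⟨f, hf⟩ k
      have e2 : ∑ j : J, c k j * f.coeff j.1 * lam ^ (j.1 - k) =
          ∑ i, (∑ j : J, c k j * (v i : Polynomial ℂ).coeff j.1 * lam ^ (j.1 - k)) *
            v.equivFun ⟨f, hf⟩ i := by
        simp only [Finset.sum_mul]
        rw [Finset.sum_comm]
        apply Finset.sum_congr rfl
        intro j _
        have e3 := hsum ⟨f, hf⟩ j.1
        change f.coeff j.1 = _ at e3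
        rw [e3, Finset.mul_sum, Finset.sum_mul]
        apply Finset.sum_congr rfl
        intro i _
        ring
      change f.coeff k = _ at e1
      rw [e2, e1, ← Finset.sum_sub_distrib]
      apply Finset.sum_congr rfl
      intro i _
      ring
    rw [h4, ← h3, sub_self]
  have h2 := Matrix.eq_zero_of_mulVec_eq_zero hdet h1
  have h3 : (⟨f, hf⟩ : V) = 0 := (LinearEquiv.map_eq_zero_iff v.equivFun).mp h2
  exact congrArg (fun z : V => (z : Polynomial ℂ)) h3

/-- put `Y = 1` -/
noncomputable def de0 : MvPolynomial (Fin 2) ℂ →ₐ[ℂ] Polynomial ℂ := aeval ![Polynomial.X, 1]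

/-- put `X = 1` -/
noncomputable def de1 : MvPolynomial (Fin 2) ℂ →ₐ[ℂ] Polynomial ℂ := aeval ![1, Polynomial.X]

/-- exponent vector -/
noncomputable def e2 (k l : ℕ) : Fin 2 →₀ ℕ := Finsupp.single 0 k + Finsupp.single 1 l

lemma e2_zero (k l : ℕ) : e2 k l 0 = k := by simp [e2]
lemma e2_one (k l : ℕ) : e2 k l 1 = l := by simp [e2]

lemma eq_e2 (n : Fin 2 →₀ ℕ) : n = e2 (n 0) (n 1) := by
  ext i
  fin_cases i
  · exact (e2_zero _ _).symm
  · exact (e2_one _ _).symm

lemma de0_monomial (n : Fin 2 →₀ ℕ) (c : ℂ) :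
    de0 (monomial n c) = Polynomial.monomial (n 0) c := by
  rw [de0, aeval_monomial, Finsupp.prod_fintype _ _ (by intro i; simp), Fin.prod_univ_two]
  simp [← Polynomial.C_mul_X_pow_eq_monomial]

lemma de1_monomial (n : Fin 2 →₀ ℕ) (c : ℂ) :
    de1 (monomial n c) = Polynomial.monomial (n 1) c := by
  rw [de1, aeval_monomial, Finsupp.prod_fintype _ _ (by intro i; simp), Fin.prod_univ_two]
  simp [← Polynomial.C_mul_X_pow_eq_monomial]

lemma sum_of_hom {N : ℕ} {f : MvPolynomial (Fin 2) ℂ} (hf : f.IsHomogeneous N) (n : Fin 2 →₀ ℕ)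
    (hn : n ∈ f.support) : n 0 + n 1 = N := by
  have h1 := hf (mem_support_iff.mp hn)
  rw [Finsupp.weight_apply, Finsupp.sum_fintype _ _ (by intro i; simp), Fin.sum_univ_two] at h1
  simpa using h1

lemma coeff_de0 {N : ℕ} {f : MvPolynomial (Fin 2) ℂ} (hf : f.IsHomogeneous N) (k : ℕ) :
    (de0 f).coeff k = if k ≤ N then coeff (e2 k (N - k)) f else 0 := by
  classical
  conv_lhs => rw [f.as_sum]
  rw [map_sum, Polynomial.finsetSum_coeff]
  simp only [de0_monomial, Polynomial.coeff_monomial]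
  split_ifs with hk
  · by_cases h0 : e2 k (N - k) ∈ f.support
    · rw [Finset.sum_eq_single (e2 k (N - k))]
      · rw [if_pos (e2_zero _ _)]
      · intro n hn hne
        rw [if_neg]
        intro h1
        apply hne
        have h2 := sum_of_hom hf n hn
        rw [eq_e2 n, h1]
        congr 1
        omega
      · intro h
        exact absurd h0 h
    · rw [Finset.sum_eq_zero, notMem_support_iff.mp h0]
      intro n hn
      rw [if_neg]
      intro h1
      apply h0
      have h2 := sum_of_hom hf n hn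
      have h3 : n = e2 k (N - k) := by
        rw [eq_e2 n, h1]
        congr 1
        omega
      rwa [← h3]
  · apply Finset.sum_eq_zero
    intro n hn
    rw [if_neg]
    intro h1
    have h2 := sum_of_hom hf n hn
    omega

lemma coeff_de1 {N : ℕ} {f : MvPolynomial (Fin 2) ℂ} (hf : f.IsHomogeneous N) (k : ℕ) :
    (de1 f).coeff k = if k ≤ N then coeff (e2 (N - k) k) f else 0 := by
  classical
  conv_lhs => rw [f.as_sum]
  rw [map_sum, Polynomial.finsetSum_coeff]
  simp only [de1_monomial, Polynomial.coeff_monomial]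
  split_ifs with hk
  · by_cases h0 : e2 (N - k) k ∈ f.support
    · rw [Finset.sum_eq_single (e2 (N - k) k)]
      · rw [if_pos (e2_one _ _)]
      · intro n hn hne
        rw [if_neg]
        intro h1
        apply hne
        have h2 := sum_of_hom hf n hn
        rw [eq_e2 n, h1]
        congr 1
        omega
      · intro h
        exact absurd h0 h
    · rw [Finset.sum_eq_zero, notMem_support_iff.mp h0]
      intro n hn
      rw [if_neg]
      intro h1
      apply h0
      have h2 := sum_of_hom hf n hn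
      have h3 : n = e2 (N - k) k := by
        rw [eq_e2 n, h1]
        congr 1
        omega
      rwa [← h3]
  · apply Finset.sum_eq_zero
    intro n hn
    rw [if_neg]
    intro h1
    have h2 := sum_of_hom hf n hn
    omega

lemma eq_zero_of_coeff {N : ℕ} {f : MvPolynomial (Fin 2) ℂ} (hf : f.IsHomogeneous N)
    (h : ∀ k ≤ N, coeff (e2 k (N - k)) f = 0) : f = 0 := by
  ext n
  rw [coeff_zero]
  by_contra h0
  have h1 := sum_of_hom hf n (mem_support_iff.mpr h0)
  have h2 : n = e2 (n 0) (N - n 0) := by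
    conv_lhs => rw [eq_e2 n]
    congr 1
    omega
  rw [h2] at h0
  exact h0 (h _ (by omega))

lemma eq_zero_of_de0 {N : ℕ} {f : MvPolynomial (Fin 2) ℂ} (hf : f.IsHomogeneous N)
    (h : de0 f = 0) : f = 0 := by
  apply eq_zero_of_coeff hf
  intro k hk
  have := coeff_de0 hf k
  rw [h, Polynomial.coeff_zero, if_pos hk] at this
  exact this.symm

lemma eq_zero_of_de1 {N : ℕ} {f : MvPolynomial (Fin 2) ℂ} (hf : f.IsHomogeneous N)
    (h : de1 f = 0) : f = 0 := by
  apply eq_zero_of_coeff hf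
  intro k hk
  have := coeff_de1 hf (N - k)
  rw [h, Polynomial.coeff_zero, if_pos (by omega)] at this
  have h2 : N - (N - k) = k := by omega
  rw [h2] at this
  exact this.symm

lemma lact_hom {N : ℕ} (g : Fin 2 × Fin 2 → ℂ) {f : MvPolynomial (Fin 2) ℂ}
    (hf : f.IsHomogeneous N) : (lact g f).IsHomogeneous N := by
  have h1 : ∀ i : Fin 2, (∑ j, C (g (i, j)) * X j : MvPolynomial (Fin 2) ℂ).IsHomogeneous 1 := by
    intro i
    apply IsHomogeneous.sum
    intro j _
    have := (isHomogeneous_C (Fin 2) (g (i, j))).mul (isHomogeneous_X ℂ j)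
    simpa using this
  have := hf.aeval (fun i => ∑ j, C (g (i, j)) * X j) h1
  rw [one_mul] at this
  exact this

/-- the matrix with the given entries -/
def mat (a b c d : ℂ) : Fin 2 × Fin 2 → ℂ := fun x => ![![a, b], ![c, d]] x.1 x.2

lemma lact_mat_X0 (a b c d : ℂ) : lact (mat a b c d) (X 0) = C a * X 0 + C b * X 1 := by
  simp [lact, mat]

lemma lact_mat_X1 (a b c d : ℂ) : lact (mat a b c d) (X 1) = C c * X 0 + C d * X 1 := by
  simp [lact, mat]

lemma de0_shift (c : ℂ) (f : MvPolynomial (Fin 2) ℂ) :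
    de0 (lact (mat 1 c 0 1) f) = (de0 f).comp (Polynomial.X + Polynomial.C c) := by
  have : de0.comp (lact (mat 1 c 0 1)) =
      (Polynomial.aeval (Polynomial.X + Polynomial.C c)).comp de0 := by
    apply MvPolynomial.algHom_ext
    intro i
    fin_cases i
    · show de0 (lact (mat 1 c 0 1) (X 0)) = Polynomial.aeval _ (de0 (X 0))
      rw [lact_mat_X0]
      simp [de0, Polynomial.algebraMap_apply]
    · show de0 (lact (mat 1 c 0 1) (X 1)) = Polynomial.aeval _ (de0 (X 1))
      rw [lact_mat_X1]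
      simp [de0]
  exact congrArg (fun q : MvPolynomial (Fin 2) ℂ →ₐ[ℂ] Polynomial ℂ => q f) this

lemma de1_shift (c : ℂ) (f : MvPolynomial (Fin 2) ℂ) :
    de1 (lact (mat 1 0 c 1) f) = (de1 f).comp (Polynomial.X + Polynomial.C c) := by
  have : de1.comp (lact (mat 1 0 c 1)) =
      (Polynomial.aeval (Polynomial.X + Polynomial.C c)).comp de1 := by
    apply MvPolynomial.algHom_ext
    intro i
    fin_cases i
    · show de1 (lact (mat 1 0 c 1) (X 0)) = Polynomial.aeval _ (de1 (X 0))
      rw [lact_mat_X0]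
      simp [de1]
    · show de1 (lact (mat 1 0 c 1) (X 1)) = Polynomial.aeval _ (de1 (X 1))
      rw [lact_mat_X1]
      simp [de1, Polynomial.algebraMap_apply]
      ring
  exact congrArg (fun q : MvPolynomial (Fin 2) ℂ →ₐ[ℂ] Polynomial ℂ => q f) this

lemma de0_scale (c : ℂ) (f : MvPolynomial (Fin 2) ℂ) :
    de0 (lact (mat c 0 0 1) f) = (de0 f).comp (Polynomial.C c * Polynomial.X) := by
  have : de0.comp (lact (mat c 0 0 1)) =
      (Polynomial.aeval (Polynomial.C c * Polynomial.X)).comp de0 := by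
    apply MvPolynomial.algHom_ext
    intro i
    fin_cases i
    · show de0 (lact (mat c 0 0 1) (X 0)) = Polynomial.aeval _ (de0 (X 0))
      rw [lact_mat_X0]
      simp [de0, Polynomial.algebraMap_apply]
    · show de0 (lact (mat c 0 0 1) (X 1)) = Polynomial.aeval _ (de0 (X 1))
      rw [lact_mat_X1]
      simp [de0]
  exact congrArg (fun q : MvPolynomial (Fin 2) ℂ →ₐ[ℂ] Polynomial ℂ => q f) this

lemma lact_inv (c : ℂ) (f : MvPolynomial (Fin 2) ℂ) :
    lact (mat 1 0 c 1) (lact (mat 1 0 (-c) 1) f) = f := by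
  have : (lact (mat 1 0 c 1)).comp (lact (mat 1 0 (-c) 1)) = AlgHom.id ℂ _ := by
    apply MvPolynomial.algHom_ext
    intro i
    fin_cases i
    · show lact (mat 1 0 c 1) (lact (mat 1 0 (-c) 1) (X 0)) = X 0
      rw [lact_mat_X0, map_add, map_mul, map_mul, lact_mat_X0]
      simp
    · show lact (mat 1 0 c 1) (lact (mat 1 0 (-c) 1) (X 1)) = X 1
      rw [lact_mat_X1, map_add, map_mul, map_mul, lact_mat_X0, lact_mat_X1]
      simp only [← MvPolynomial.algebraMap_eq, AlgHom.commutes]
      simp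
  exact congrArg (fun q : MvPolynomial (Fin 2) ℂ →ₐ[ℂ] MvPolynomial (Fin 2) ℂ => q f) this

lemma dvd_of_shift {c : ℂ} {a : ℕ} {u : Polynomial ℂ}
    (h : ∀ k < a, (u.comp (Polynomial.X + Polynomial.C c)).coeff k = 0) :
    (Polynomial.X - Polynomial.C c) ^ a ∣ u := by
  have h1 : Polynomial.X ^ a ∣ u.comp (Polynomial.X + Polynomial.C c) :=
    Polynomial.X_pow_dvd_iff.mpr h
  obtain ⟨q, hq⟩ := h1
  refine ⟨q.comp (Polynomial.X - Polynomial.C c), ?_⟩
  have h2 := congrArg (fun z : Polynomial ℂ => z.comp (Polynomial.X - Polynomial.C c)) hq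
  simp only [Polynomial.comp_assoc, Polynomial.mul_comp, Polynomial.pow_comp, Polynomial.X_comp,
    Polynomial.add_comp, Polynomial.C_comp, sub_add_cancel, Polynomial.comp_X] at h2
  exact h2

lemma shift_eq_zero {c : ℂ} {u : Polynomial ℂ}
    (h : u.comp (Polynomial.X + Polynomial.C c) = 0) : u = 0 := by
  have h2 := congrArg (fun z : Polynomial ℂ => z.comp (Polynomial.X - Polynomial.C c)) h
  simp only [Polynomial.comp_assoc, Polynomial.X_comp,
    Polynomial.add_comp, Polynomial.C_comp, sub_add_cancel, Polynomial.comp_X,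
    Polynomial.zero_comp] at h2
  exact h2

instance finite_hom (N : ℕ) : FiniteDimensional ℂ (homogeneousSubmodule (Fin 2) ℂ N) := by
  apply Module.Finite.of_injective (LinearMap.pi fun k : Fin (N + 1) =>
    (lcoeff ℂ (e2 k (N - k))) ∘ₗ (homogeneousSubmodule (Fin 2) ℂ N).subtype)
  rw [← LinearMap.ker_eq_bot, LinearMap.ker_eq_bot']
  intro f hf
  apply Subtype.ext
  apply eq_zero_of_coeff ((mem_homogeneousSubmodule _ _).mp f.2)
  intro k hk
  exact congrFun hf ⟨k, Nat.lt_succ_of_le hk⟩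

/-- one good matrix -/
lemma exists_one {N : ℕ} (V W : Submodule ℂ (MvPolynomial (Fin 2) ℂ))
    (hV : V ≤ homogeneousSubmodule (Fin 2) ℂ N) (hW : W ≤ homogeneousSubmodule (Fin 2) ℂ N)
    (hd : Module.finrank ℂ V + Module.finrank ℂ W ≤ N + 1) :
    ∃ g₀ : Fin 2 × Fin 2 → ℂ, ∀ f ∈ V, lact g₀ f ∈ W → f = 0 := by
  have hVh : ∀ f ∈ V, f.IsHomogeneous N := fun f hf => (mem_homogeneousSubmodule _ _).mp (hV hf)
  have hWh : ∀ f ∈ W, f.IsHomogeneous N := fun f hf => (mem_homogeneousSubmodule _ _).mp (hW hf)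
  have hVf : FiniteDimensional ℂ V := Submodule.finiteDimensional_of_le hV
  have hWf : FiniteDimensional ℂ W := Submodule.finiteDimensional_of_le hW
  obtain ⟨S, hS⟩ := Pool.Agent.helper89.Segre.exists_finset_vanish (Module.finrank ℂ V)
    (V.map de0.toLinearMap) inferInstance (Submodule.finrank_map_le _ _)
  obtain ⟨S', hS'⟩ := Pool.Agent.helper89.Segre.exists_finset_vanish (Module.finrank ℂ W)
    (W.map de1.toLinearMap) inferInstance (Submodule.finrank_map_le _ _)
  obtain ⟨c, hc⟩ := Infinite.exists_notMem_finset S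
  obtain ⟨c', hc'⟩ := Infinite.exists_notMem_finset S'
  let φ : MvPolynomial (Fin 2) ℂ →ₗ[ℂ] Polynomial ℂ := (de0.comp (lact (mat 1 c 0 1))).toLinearMap
  let ψ : MvPolynomial (Fin 2) ℂ →ₗ[ℂ] Polynomial ℂ := (de0.comp (lact (mat 1 0 c' 1))).toLinearMap
  have hφ : ∀ f, φ f = de0 (lact (mat 1 c 0 1) f) := fun _ => rfl
  have hψ : ∀ f, ψ f = de0 (lact (mat 1 0 c' 1) f) := fun _ => rfl
  have hφinj : ∀ f ∈ V, φ f = 0 → f = 0 := by
    intro f hf h
    rw [hφ, de0_shift] at h
    exact eq_zero_of_de0 (hVh f hf) (shift_eq_zero h)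
  have hrank : Module.finrank ℂ (V.map φ) = Module.finrank ℂ V := by
    have h1 : Function.Injective (φ.domRestrict V) := by
      rw [← LinearMap.ker_eq_bot, LinearMap.ker_eq_bot']
      intro f hf
      exact Subtype.ext (hφinj f.1 f.2 hf)
    have h2 := LinearMap.finrank_range_of_inj h1
    rwa [LinearMap.range_domRestrict] at h2
  obtain ⟨lam, hlam, hscale⟩ := exists_scale (N := N) (a := Module.finrank ℂ V)
    (b := Module.finrank ℂ W) hd (V.map φ) (W.map ψ) hrank
    (by
      rintro _ ⟨f, hf, rfl⟩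
      rw [hφ, Polynomial.natDegree_le_iff_coeff_eq_zero]
      intro k hk
      rw [coeff_de0 (lact_hom _ (hVh f hf)), if_neg (by omega)])
    (by
      rintro _ ⟨f, hf, rfl⟩ h
      rw [hφ, de0_shift] at h ⊢
      have h1 := dvd_of_shift h
      have h2 := hS c hc (de0 f) ⟨f, hf, rfl⟩ h1
      rw [h2, Polynomial.zero_comp])
    (by
      rintro _ ⟨f, hf, rfl⟩ h
      have h0 : ∀ k < Module.finrank ℂ W,
          ((de1 f).comp (Polynomial.X + Polynomial.C c')).coeff k = 0 := by
        intro k hk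
        rw [← de1_shift, coeff_de1 (lact_hom _ (hWh f hf))]
        split_ifs with hkN
        · have h1 := h (N - k) (by omega) (by omega)
          rw [hψ, coeff_de0 (lact_hom _ (hWh f hf)), if_pos (by omega)] at h1
          have h2 : N - (N - k) = k := by omega
          rwa [h2] at h1
        · rfl
      have h1 := dvd_of_shift h0
      have h2 := hS' c' hc' (de1 f) ⟨f, hf, rfl⟩ h1
      rw [eq_zero_of_de1 (hWh f hf) h2, map_zero])
  refine ⟨gmul (gmul (mat 1 c 0 1) (mat lam 0 0 1)) (mat 1 0 (-c') 1), fun f hf hfW => ?_⟩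
  rw [← lact_lact, ← lact_lact] at hfW
  apply hφinj f hf
  apply hscale _ ⟨f, hf, rfl⟩
  rw [hφ, ← de0_scale]
  refine ⟨_, hfW, ?_⟩
  rw [hψ, lact_inv]

theorem general_position {N : ℕ} (V W : Submodule ℂ (MvPolynomial (Fin 2) ℂ))
    (hV : V ≤ homogeneousSubmodule (Fin 2) ℂ N) (hW : W ≤ homogeneousSubmodule (Fin 2) ℂ N)
    (hd : Module.finrank ℂ V + Module.finrank ℂ W ≤ N + 1) :
    ∃ Δ : MvPolynomial (Fin 2 × Fin 2) ℂ, Δ ≠ 0 ∧ ∀ g : Fin 2 × Fin 2 → ℂ, eval g Δ ≠ 0 →
      ∀ f ∈ V, lact g f ∈ W → f = 0 := by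
  have hVf : FiniteDimensional ℂ V := Submodule.finiteDimensional_of_le hV
  obtain ⟨g₀, hg₀⟩ := exists_one V W hV hW hd
  exact general_of_one V W g₀ hg₀

end Pool.Agent.SH9
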