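import Pool.Agent.SH9.Defs
import Pool.Agent.SH9.Gl2

set_option autoImplicit false

/-!
# Module Lsub: the linear substitution on degrees and multiplicities

`lact g` substitutes `X i ↦ ∑ j, g (i, j) X j`, so `(lact g F)(x) = F(g x)`. If `g p' = p` then `F`
of multiplicity `≥ m` at `p` gives `lact g F` of multiplicity `≥ m` at `p'`.
-/

namespace Pool.Agent.SH9

open MvPolynomial Pool.Agent.helper5.NBS Pool.Agent.helper89.Segre

/-- the point `g p` -/
noncomputable def gpt (g : Fin 2 × Fin 2 → ℂ) (p : Fin 2 → ℂ) : Fin 2 → ℂ :=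
  fun i => ∑ j, g (i, j) * p j

lemma lact_X (g : Fin 2 × Fin 2 → ℂ) (i : Fin 2) :
    lact g (X i) = ∑ j, C (g (i, j)) * X j := by
  simp [lact]

lemma lact_C (g : Fin 2 × Fin 2 → ℂ) (r : ℂ) : lact g (C r) = C r := by
  simp [lact]

lemma lact_mem {g : Fin 2 × Fin 2 → ℂ} {p : Fin 2 → ℂ} {m : ℕ} {F : R2}
    (h : F ∈ ptIdeal (gpt g p) ^ m) : lact g F ∈ ptIdeal p ^ m := by
  have h1 : Ideal.map (lact g) (ptIdeal (gpt g p)) ≤ ptIdeal p := by
    unfold ptIdeal
    rw [Ideal.map_span, Ideal.span_le]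
    rintro _ ⟨_, ⟨i, rfl⟩, rfl⟩
    show lact g (X i - C (gpt g p i)) ∈ Ideal.span (Set.range fun i => (X i - C (p i) : R2))
    have h2 : lact g (X i - C (gpt g p i)) = ∑ j, C (g (i, j)) * (X j - C (p j)) := by
      rw [map_sub, lact_X, lact_C, gpt, map_sum, ← Finset.sum_sub_distrib]
      refine Finset.sum_congr rfl fun j _ => ?_
      rw [map_mul]
      ring
    rw [h2]
    exact Ideal.sum_mem _ fun j _ => Ideal.mul_mem_left _ _ (Ideal.subset_span ⟨j, rfl⟩)
  have h3 : lact g F ∈ Ideal.map (lact g) (ptIdeal (gpt g p) ^ m) := Ideal.mem_map_of_mem _ h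
  rw [Ideal.map_pow] at h3
  exact Ideal.pow_right_mono h1 m h3

lemma wdeg_one_eq (F : R2) : wdeg 1 F = F.totalDegree := by
  unfold wdeg totalDegree
  refine Finset.sup_congr rfl fun n _ => ?_
  rw [Finsupp.sum_fintype _ _ (fun _ => rfl), Fin.sum_univ_two, one_mul]

lemma lact_isHom {g : Fin 2 × Fin 2 → ℂ} {F : R2} {n : ℕ} (h : F.IsHomogeneous n) :
    (lact g F).IsHomogeneous n := by
  have := h.aeval (fun i => ∑ j, C (g (i, j)) * X j : Fin 2 → R2) (n := 1) (fun i => by
    refine IsHomogeneous.sum _ _ _ fun j _ => ?_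
    simpa using (isHomogeneous_C (Fin 2) (g (i, j))).mul (isHomogeneous_X ℂ j))
  simpa [lact] using this

lemma wdeg_lact (g : Fin 2 × Fin 2 → ℂ) (F : R2) : wdeg 1 (lact g F) ≤ wdeg 1 F := by
  rw [wdeg_one_eq, wdeg_one_eq]
  conv_lhs => rw [← sum_homogeneousComponent F, map_sum]
  refine totalDegree_finsetSum_le fun i hi => ?_
  refine ((lact_isHom (homogeneousComponent_isHomogeneous i F)).totalDegree_le).trans ?_
  exact Nat.lt_succ_iff.1 (Finset.mem_range.1 hi)

lemma hom_lact (g : Fin 2 × Fin 2 → ℂ) (N : ℕ) (F : R2) :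
    homogeneousComponent N (lact g F) = lact g (homogeneousComponent N F) := by
  conv_lhs => rw [← sum_homogeneousComponent F, map_sum, map_sum]
  have h1 : ∀ i ∈ Finset.range (F.totalDegree + 1),
      homogeneousComponent N (lact g (homogeneousComponent i F)) =
        if N = i then lact g (homogeneousComponent N F) else 0 := by
    intro i _
    rw [homogeneousComponent_of_mem (m := N) (n := i)
      (lact_isHom (homogeneousComponent_isHomogeneous i F))]
    by_cases hN : N = i
    · subst hN; simp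
    · simp [hN]
  rw [Finset.sum_congr rfl h1]
  by_cases hN : N ∈ Finset.range (F.totalDegree + 1)
  · rw [Finset.sum_ite_eq, if_pos hN]
  · rw [Finset.sum_ite_eq, if_neg hN, homogeneousComponent_eq_zero, map_zero]
    rw [Finset.mem_range] at hN
    omega

/-- for `det g ≠ 0` there is an inverse substitution: `g'` with `gpt g (gpt g' p) = p`,
`gpt g' (gpt g p) = p`, `lact g' (lact g F) = F`, `lact g (lact g' F) = F` -/
lemma exists_inv {g : Fin 2 × Fin 2 → ℂ} (hg : g (0, 0) * g (1, 1) - g (0, 1) * g (1, 0) ≠ 0) :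
    ∃ g' : Fin 2 × Fin 2 → ℂ, (∀ p, gpt g (gpt g' p) = p) ∧ (∀ p, gpt g' (gpt g p) = p) ∧
      (∀ F, lact g' (lact g F) = F) ∧ (∀ F, lact g (lact g' F) = F) := by
  set D := g (0, 0) * g (1, 1) - g (0, 1) * g (1, 0) with hD
  set g' : Fin 2 × Fin 2 → ℂ := fun ij =>
    (if ij = (0, 0) then g (1, 1) else if ij = (0, 1) then -g (0, 1)
      else if ij = (1, 0) then -g (1, 0) else g (0, 0)) / D with hg'
  have h00 : g' (0, 0) = g (1, 1) / D := by simp [hg']
  have h01 : g' (0, 1) = -g (0, 1) / D := by simp [hg']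
  have h10 : g' (1, 0) = -g (1, 0) / D := by simp [hg']
  have h11 : g' (1, 1) = g (0, 0) / D := by simp [hg']
  have a00 : g (0, 0) * g' (0, 0) + g (0, 1) * g' (1, 0) = 1 := by
    rw [h00, h10]; field_simp; rw [hD]; ring
  have a01 : g (0, 0) * g' (0, 1) + g (0, 1) * g' (1, 1) = 0 := by
    rw [h01, h11]; field_simp; ring
  have a10 : g (1, 0) * g' (0, 0) + g (1, 1) * g' (1, 0) = 0 := by
    rw [h00, h10]; field_simp; ring
  have a11 : g (1, 0) * g' (0, 1) + g (1, 1) * g' (1, 1) = 1 := by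
    rw [h01, h11]; field_simp; rw [hD]; ring
  have b00 : g' (0, 0) * g (0, 0) + g' (0, 1) * g (1, 0) = 1 := by
    rw [h00, h01]; field_simp; rw [hD]; ring
  have b01 : g' (0, 0) * g (0, 1) + g' (0, 1) * g (1, 1) = 0 := by
    rw [h00, h01]; field_simp; ring
  have b10 : g' (1, 0) * g (0, 0) + g' (1, 1) * g (1, 0) = 0 := by
    rw [h10, h11]; field_simp; ring
  have b11 : g' (1, 0) * g (0, 1) + g' (1, 1) * g (1, 1) = 1 := by
    rw [h10, h11]; field_simp; rw [hD]; ring
  have key : ∀ a b : Fin 2 × Fin 2 → ℂ, a (0, 0) * b (0, 0) + a (0, 1) * b (1, 0) = 1 →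
      a (0, 0) * b (0, 1) + a (0, 1) * b (1, 1) = 0 → a (1, 0) * b (0, 0) + a (1, 1) * b (1, 0) = 0 →
      a (1, 0) * b (0, 1) + a (1, 1) * b (1, 1) = 1 →
      (∀ p, gpt a (gpt b p) = p) ∧ (∀ F, lact b (lact a F) = F) := by
    intro a b e00 e01 e10 e11
    constructor
    · intro p
      ext i
      fin_cases i
      · simp only [gpt, Fin.sum_univ_two, Fin.zero_eta, Fin.mk_one]
        linear_combination p 0 * e00 + p 1 * e01
      · simp only [gpt, Fin.sum_univ_two, Fin.zero_eta, Fin.mk_one]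
        linear_combination p 0 * e10 + p 1 * e11
    · intro F
      have h : (lact b).comp (lact a) = AlgHom.id ℂ R2 := by
        apply MvPolynomial.algHom_ext
        intro i
        have c00 := congrArg (C : ℂ → R2) e00
        have c01 := congrArg (C : ℂ → R2) e01
        have c10 := congrArg (C : ℂ → R2) e10
        have c11 := congrArg (C : ℂ → R2) e11
        simp only [map_add, map_mul, map_one, map_zero] at c00 c01 c10 c11
        rw [AlgHom.comp_apply, lact_X, AlgHom.id_apply]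
        fin_cases i
        · simp only [Fin.sum_univ_two, map_add, map_mul, lact_X, lact_C, Fin.zero_eta, Fin.mk_one]
          linear_combination X 0 * c00 + X 1 * c01
        · simp only [Fin.sum_univ_two, map_add, map_mul, lact_X, lact_C, Fin.zero_eta, Fin.mk_one]
          linear_combination X 0 * c10 + X 1 * c11
      exact congrArg (fun f : R2 →ₐ[ℂ] R2 => f F) h
  have k1 := key g g' a00 a01 a10 a11
  have k2 := key g' g b00 b01 b10 b11
  exact ⟨g', k1.1, k2.1, k1.2, k2.2⟩

/-- the entries of `gpt g (c i)` are polynomials in `g`: for `P : PtRing n` and `c` there is a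
polynomial `P'` in the entries of `g` with `P'(g) = P(g c)` -/
lemma exists_pull {n : ℕ} (P : PtRing n) (c : Fin n → Fin 2 → ℂ) (I : Fin n → Prop)
    [DecidablePred I] :
    ∃ P' : MvPolynomial (Fin 2 × Fin 2) ℂ, ∀ g : Fin 2 × Fin 2 → ℂ,
      eval g P' = evP (fun i => if I i then gpt g (c i) else c i) P := by
  refine ⟨aeval (fun ij : Fin n × Fin 2 => if I ij.1 then
    ∑ k, (X (ij.2, k) * C (c ij.1 k) : MvPolynomial (Fin 2 × Fin 2) ℂ) else C (c ij.1 ij.2)) P, ?_⟩
  intro g
  have h : (eval g).comp ((aeval (fun ij : Fin n × Fin 2 => if I ij.1 then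
      ∑ k, (X (ij.2, k) * C (c ij.1 k) : MvPolynomial (Fin 2 × Fin 2) ℂ)
      else C (c ij.1 ij.2)) : PtRing n →ₐ[ℂ] MvPolynomial (Fin 2 × Fin 2) ℂ) :
        PtRing n →+* MvPolynomial (Fin 2 × Fin 2) ℂ) =
      evP (fun i => if I i then gpt g (c i) else c i) := by
    apply MvPolynomial.ringHom_ext
    · intro r
      simp [evP]
    · rintro ⟨i, j⟩
      by_cases hi : I i
      · simp [evP, hi, gpt]
      · simp [evP, hi]
  exact congrArg (fun f : PtRing n →+* ℂ => f P) h

end Pool.Agent.SH9
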