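import Pool.Agent.SH9.Conv
import Pool.Agent.SH9.Collide
import Pool.Agent.SH9.Lsub

set_option autoImplicit false

/-!
# Module CW: collision of `q` points without loss

Let `L_t(m^q)` be empty and `dim L_(t+1)(m^q) ≤ ρ` (at general points: `E (t+1) (m^q, 1^ρ)`),
`ρ + σ ≤ t + 2`, `L_d(t+2, ms)` empty and `dim L_d(t+1, ms) ≤ σ` (`E d (t+1, ms, 1^σ)`). Then
`L_d(m^q, ms)` is empty.

Proof. Suppose not. With `ms = univ.val.map μ`, `collide` gives `P ≠ 0`. Choose `c` with `P(c) ≠ 0`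
and `c_G` (the first `q` points) with `Emp t (m^q) c_G` and `z₀ : Fin ρ → ℂ²` with
`Emp (t+1) (m^q, 1^ρ) (c_G, z₀)`. So the space `U` of `g` with `wdeg 1 g ≤ t+1`, multiplicities `m` at
`c_G`, has dimension `≤ ρ`; `V` = homogeneous components of degree `t+1` of `U` (dimension `≤ ρ`; in
fact `U → V` is injective by `Emp t`). Choose `(q₀, p)` with `Emp d (t+2, μ) (q₀, p)` and
`Emp d (t+1, μ, 1^σ) (q₀, p, z₁)` for some `z₁`. So `Y` = all `F` with `wdeg 1 F ≤ d`,
multiplicities `μ i` at `p i` and `t+1` at `q₀` has dimension `≤ σ`, and `W` = homogeneous components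
of degree `t+1` of `trans q₀ F`, `F ∈ Y`, has dimension `≤ σ`. By `general_position` (`N = t+1`), there
is `Δ ≠ 0`; choose an invertible `g` with `Δ(g) ≠ 0` and with `P(c') ≠ 0`, where `c' i = g' (c i)` on
the group (`g'` the inverse of `g`), `c' i = c i` else: `lact g` maps polynomials with multiplicities
`m` at `c_G` to polynomials with multiplicities `m` at `g'(c_G)`. (To have everything polynomial use
the adjugate: `g' = adj g`, scaling by `det g` does not matter, i.e. replace the pair `(g, g')` by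
`(g, adj g)` and `lact g`, multiplicities at `gpt (adj g) (c i) / det`... or use `Δ'(g') := Δ(adj g')`;
at `g' = 1`, `P(c) ≠ 0`.) Apply `collide` with `c'`, `π` (group `↦ q₀`, others injective): `F ≠ 0` with
`μ i ≤ mult (p i) F` (as in CC1), and at `q₀`: `g₁ ≠ 0` of degree `≤ μ' ≤ mult q₀ F` with
multiplicities `m` at `c'_G`; then `lact g' g₁` has multiplicities `m` at `c_G` (with `g'` inverse to `g`,
`lact_mem`), degree `≤ μ'`; `Emp t` gives `μ' ≥ t+1`; `mult q₀ F ≥ t+2` contradicts `Emp d (t+2, μ)`; so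
`μ' = mult q₀ F = t+1`, `F ∈ Y`, and the component of degree `t+1` of `F` at `q₀` is the one of `g₁`,
which is `lact g` of the one of `lact g' g₁ ∈ U`. By the choice of `g` it is zero, so
`F ∈ ptIdeal q₀ ^ (t+2)`, contradiction.
-/

namespace Pool.Agent.SH9

open MvPolynomial Pool.Agent.helper5.NBS Pool.Agent.helper89.Segre

namespace CWaux

lemma exists_fun (ms : Multiset ℕ) : ∃ (s : ℕ) (μ : Fin s → ℕ), ms = Finset.univ.val.map μ := by
  refine ⟨ms.toList.length, fun i => ms.toList.get i, ?_⟩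
  rw [Fin.univ_val_map, List.ofFn_get, Multiset.coe_toList]

lemma map_append {a b : ℕ} (f : Fin a → ℕ) (g : Fin b → ℕ) :
    (Finset.univ : Finset (Fin (a + b))).val.map (Fin.append f g) =
      (Finset.univ : Finset (Fin a)).val.map f + (Finset.univ : Finset (Fin b)).val.map g := by
  rw [Fin.univ_val_map, Fin.univ_val_map, Fin.univ_val_map, List.ofFn_fin_append,
    Multiset.coe_add]

lemma map_cons {b : ℕ} (x : ℕ) (g : Fin b → ℕ) :
    (Finset.univ : Finset (Fin (b + 1))).val.map (Fin.cons x g : Fin (b + 1) → ℕ) =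
      x ::ₘ (Finset.univ : Finset (Fin b)).val.map g := by
  rw [Fin.univ_val_map, Fin.univ_val_map, List.ofFn_cons, Multiset.cons_coe]

lemma map_const' (a x : ℕ) :
    (Finset.univ : Finset (Fin a)).val.map (fun _ => x) = Multiset.replicate a x := by
  rw [Multiset.map_const']
  simp

lemma td_le (F : R2) : F.totalDegree ≤ wdeg 1 F := by
  apply Finset.sup_le
  intro n hn
  have h1 : n 0 + 1 * n 1 ≤ wdeg 1 F :=
    Finset.le_sup (f := fun n : Fin 2 →₀ ℕ => n 0 + 1 * n 1) hn
  have h2 : (n.sum fun _ e => e) = n 0 + n 1 := by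
    rw [Finsupp.sum_fintype _ _ (fun _ => rfl), Fin.sum_univ_two]
  omega

lemma totalDegree_trans_le (p : Fin 2 → ℂ) (F : R2) : (trans p F).totalDegree ≤ F.totalDegree := by
  have h1 : trans p F = aeval (fun j : Fin 2 => (X j + C (p j) : R2)) F := rfl
  rw [h1, aeval_def, eval₂_eq]
  apply totalDegree_finsetSum_le
  intro n hn
  refine (totalDegree_mul _ _).trans ?_
  rw [algebraMap_eq, totalDegree_C, zero_add]
  refine (totalDegree_finsetProd _ _).trans ?_
  have h2 : ∀ i ∈ n.support, ((X i + C (p i) : R2) ^ n i).totalDegree ≤ n i := by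
    intro i _
    refine (totalDegree_pow _ _).trans ?_
    have h3 : (X i + C (p i) : R2).totalDegree ≤ 1 := by
      refine (totalDegree_add _ _).trans ?_
      rw [totalDegree_X, totalDegree_C]
      simp
    calc n i * _ ≤ n i * 1 := Nat.mul_le_mul_left _ h3
      _ = n i := mul_one _
  exact (Finset.sum_le_sum h2).trans (le_totalDegree hn)

/-- the multiplicity is at most the degree -/
lemma mult_le_deg (p : Fin 2 → ℂ) {F : R2} (hF : F ≠ 0) : mult p F ≤ wdeg 1 F := by
  have h1 := mem_ptIdeal_pow.mp ((mem_pow_iff_le_mult (p := p) hF).mpr le_rfl)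
  have h2 : trans p F ≠ 0 := fun h => hF ((trans p).map_eq_zero_iff.mp h)
  obtain ⟨n, hn⟩ := support_nonempty.mpr h2
  by_contra hcon
  push Not at hcon
  have h3 := le_totalDegree hn
  have h4 := totalDegree_trans_le p F
  have h5 : (n.sum fun _ e => e) = n.degree := by
    rw [Finsupp.degree_eq_sum, Finsupp.sum_fintype _ _ (fun _ => rfl)]
  have h6 := td_le F
  rw [mem_support_iff] at hn
  exact hn (h1 n (by omega))

/-- a common point for three nonzero polynomials -/
lemma exists_pt3 {ι : Type} {a b c : ℕ} {P : PtRing a} {Q : PtRing b} {R : PtRing c}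
    (hP : P ≠ 0) (hQ : Q ≠ 0) (hR : R ≠ 0) (e : Fin a → ι) (f : Fin b → ι) (g : Fin c → ι)
    (he : Function.Injective e) (hf : Function.Injective f) (hg : Function.Injective g) :
    ∃ x : ι → Fin 2 → ℂ, evP (fun i => x (e i)) P ≠ 0 ∧ evP (fun i => x (f i)) Q ≠ 0 ∧
      evP (fun i => x (g i)) R ≠ 0 := by
  have key : ∀ {n : ℕ} (S : PtRing n) (k : Fin n → ι) (x : ι × Fin 2 → ℂ),
      eval x (rename (fun ij : Fin n × Fin 2 => (k ij.1, ij.2)) S) =
        evP (fun i j => x (k i, j)) S := by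
    intro n S k x
    rw [eval_rename]
    rfl
  have inj : ∀ {n : ℕ} (k : Fin n → ι), Function.Injective k →
      Function.Injective (fun ij : Fin n × Fin 2 => (k ij.1, ij.2)) := by
    intro n k hk x y hxy
    simp only [Prod.mk.injEq] at hxy
    exact Prod.ext (hk hxy.1) hxy.2
  have h0 : rename (fun ij : Fin a × Fin 2 => (e ij.1, ij.2)) P *
      rename (fun ij : Fin b × Fin 2 => (f ij.1, ij.2)) Q *
      rename (fun ij : Fin c × Fin 2 => (g ij.1, ij.2)) R ≠ 0 := by
    refine mul_ne_zero (mul_ne_zero ?_ ?_) ?_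
    · rw [Ne, map_eq_zero_iff _ (rename_injective _ (inj e he))]; exact hP
    · rw [Ne, map_eq_zero_iff _ (rename_injective _ (inj f hf))]; exact hQ
    · rw [Ne, map_eq_zero_iff _ (rename_injective _ (inj g hg))]; exact hR
  obtain ⟨x, hx⟩ : ∃ x : ι × Fin 2 → ℂ, eval x (rename (fun ij : Fin a × Fin 2 => (e ij.1, ij.2)) P *
      rename (fun ij : Fin b × Fin 2 => (f ij.1, ij.2)) Q *
      rename (fun ij : Fin c × Fin 2 => (g ij.1, ij.2)) R) ≠ 0 := by
    by_contra hcon
    push Not at hcon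
    exact h0 (MvPolynomial.funext (fun x => by rw [hcon x, map_zero]))
  rw [map_mul, map_mul, key, key, key] at hx
  refine ⟨fun i j => x (i, j), ?_, ?_, ?_⟩
  · exact fun h => hx (by rw [h]; ring)
  · exact fun h => hx (by rw [h]; ring)
  · exact fun h => hx (by rw [h]; ring)

/-- value at a point as a functional -/
lemma mem_pow_one {p : Fin 2 → ℂ} {F : R2} : F ∈ ptIdeal p ^ 1 ↔ coeff 0 (trans p F) = 0 := by
  rw [mem_ptIdeal_pow]
  constructor
  · intro h
    exact h 0 (by simp)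
  · intro h n hn
    have : n = 0 := by
      have h1 : n.degree = 0 := by omega
      exact (Finsupp.degree_eq_zero_iff n).mp h1
    rw [this]
    exact h

/-- a space killed by `ρ` point evaluations has dimension at most `ρ` -/
lemma finrank_le_of_pts {ρ : ℕ} (U : Submodule ℂ R2) (z : Fin ρ → Fin 2 → ℂ)
    (h : ∀ F ∈ U, (∀ j, F ∈ ptIdeal (z j) ^ 1) → F = 0) :
    Module.Finite ℂ U ∧ Module.finrank ℂ U ≤ ρ := by
  let ev : R2 →ₗ[ℂ] (Fin ρ → ℂ) :=
    LinearMap.pi fun j => (lcoeff ℂ (0 : Fin 2 →₀ ℕ)) ∘ₗ (trans (z j)).toLinearMap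
  have hinj : Function.Injective (ev ∘ₗ U.subtype) := by
    rw [← LinearMap.ker_eq_bot, LinearMap.ker_eq_bot']
    intro F hF
    have h1 : (F : R2) = 0 := by
      apply h F F.2
      intro j
      rw [mem_pow_one]
      exact congrFun hF j
    exact Subtype.ext h1
  have hfin : Module.Finite ℂ U := Module.Finite.of_injective _ hinj
  refine ⟨hfin, ?_⟩
  have h2 := LinearMap.finrank_le_finrank_of_injective hinj
  rwa [Module.finrank_fin_fun] at h2

/-- polynomials of degree at most `d` with multiplicities `m` at `p` -/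
noncomputable def lsys (d : ℕ) {n : ℕ} (m : Fin n → ℕ) (p : Fin n → Fin 2 → ℂ) : Submodule ℂ R2 where
  carrier := {F | wdeg 1 F ≤ d ∧ ∀ i, F ∈ ptIdeal (p i) ^ m i}
  zero_mem' := ⟨by simp [wdeg], fun i => Ideal.zero_mem _⟩
  add_mem' := by
    classical
    rintro F G ⟨hF, hF'⟩ ⟨hG, hG'⟩
    refine ⟨?_, fun i => Ideal.add_mem _ (hF' i) (hG' i)⟩
    refine (Finset.sup_mono (f := fun n : Fin 2 →₀ ℕ => n 0 + 1 * n 1)
      (support_add (p := F) (q := G))).trans ?_
    rw [Finset.sup_union]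
    exact sup_le hF hG
  smul_mem' := by
    rintro c F ⟨hF, hF'⟩
    refine ⟨?_, fun i => Submodule.smul_of_tower_mem _ c (hF' i)⟩
    exact (Finset.sup_mono (f := fun n : Fin 2 →₀ ℕ => n 0 + 1 * n 1)
      (support_smul (a := c) (f := F))).trans hF

lemma mem_lsys {d n : ℕ} {m : Fin n → ℕ} {p : Fin n → Fin 2 → ℂ} {F : R2} :
    F ∈ lsys d m p ↔ wdeg 1 F ≤ d ∧ ∀ i, F ∈ ptIdeal (p i) ^ m i := Iff.rfl

/-- the homogeneous part of degree `N` at `q` -/
noncomputable def lead (N : ℕ) (q : Fin 2 → ℂ) : R2 →ₗ[ℂ] R2 :=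
  (homogeneousComponent N) ∘ₗ (trans q).toLinearMap

lemma lead_apply (N : ℕ) (q : Fin 2 → ℂ) (F : R2) :
    lead N q F = homogeneousComponent N (trans q F) := rfl

lemma mem_succ {q : Fin 2 → ℂ} {N : ℕ} {F : R2} (h : F ∈ ptIdeal q ^ N)
    (h0 : homogeneousComponent N (trans q F) = 0) : F ∈ ptIdeal q ^ (N + 1) := by
  rw [mem_ptIdeal_pow] at h ⊢
  intro n hn
  rcases Nat.lt_or_ge n.degree N with h1 | h1
  · exact h n h1
  · have h2 : n.degree = N := by omega
    have h3 := congrArg (coeff n) h0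
    rw [coeff_homogeneousComponent, if_pos h2, coeff_zero] at h3
    exact h3

/-- the values of the base point matrix -/
lemma gpt_one (p : Fin 2 → ℂ) : gpt (fun ij => if ij.1 = ij.2 then 1 else 0) p = p := by
  funext i
  fin_cases i <;> simp [gpt]

end CWaux

open CWaux in
/-- the collision for an arbitrary group `gs` -/
theorem cw_gen {t d ρ σ : ℕ} {gs ms : Multiset ℕ} (hρσ : ρ + σ ≤ t + 2)
    (h0 : E t gs)
    (h1 : E (t + 1) (gs + Multiset.replicate ρ 1))
    (h2 : E d ((t + 2) ::ₘ ms))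
    (h3 : E d ((t + 1) ::ₘ (ms + Multiset.replicate σ 1))) :
    E d (gs + ms) := by
  classical
  obtain ⟨s, μ, rfl⟩ := exists_fun ms
  obtain ⟨q, ν, rfl⟩ := exists_fun gs
  rw [← map_const' ρ 1, ← map_append] at h1
  rw [← map_const' σ 1, ← map_append, ← map_cons] at h3
  rw [← map_cons] at h2
  rw [← map_append]
  by_contra hcon
  have hN : ∀ c : Fin (q + s) → Fin 2 → ℂ, ¬ Emp d (Fin.append ν μ) c :=
    fun c hc => hcon (E_of_emp hc)
  obtain ⟨P, hP0, hP⟩ := collide hN
  obtain ⟨Q0, hQ00, hQ0⟩ := h0.generic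
  obtain ⟨Q1, hQ10, hQ1⟩ := h1.generic
  obtain ⟨Q2, hQ20, hQ2⟩ := h2.generic
  obtain ⟨Q3, hQ30, hQ3⟩ := h3.generic
  -- the configuration `c` and the auxiliary points `z0`
  obtain ⟨x, hxP, hx0, hx1⟩ := exists_pt3 (ι := Fin (q + s) ⊕ Fin ρ) hP0 hQ00 hQ10
    (fun i => Sum.inl i) (fun i => Sum.inl (Fin.castAdd s i))
    (Fin.append (fun i : Fin q => (Sum.inl (Fin.castAdd s i) : Fin (q + s) ⊕ Fin ρ))
      (fun j : Fin ρ => Sum.inr j))
    Sum.inl_injective (Sum.inl_injective.comp (Fin.castAdd_injective q s)) (by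
      rw [Fin.append_injective_iff]
      refine ⟨Sum.inl_injective.comp (Fin.castAdd_injective q s), Sum.inr_injective, ?_⟩
      intro i j h
      exact absurd h (by simp))
  set c : Fin (q + s) → Fin 2 → ℂ := fun i => x (Sum.inl i) with hc
  set cG : Fin q → Fin 2 → ℂ := fun i => c (Fin.castAdd s i) with hcG
  have hE0 : Emp t ν cG := hQ0 _ hx0
  have hE1 := hQ1 _ hx1
  -- the spaces `U`, `V`
  set U : Submodule ℂ R2 := lsys (t + 1) ν cG with hU
  have hUf := finrank_le_of_pts U (fun j : Fin ρ => x (Sum.inr j)) (by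
    rintro F ⟨hF1, hF2⟩ hF3
    refine hE1 F hF1 ?_
    intro i
    refine Fin.addCases (fun i => ?_) (fun j => ?_) i
    · have h5 := hF2 i
      simpa only [Fin.append_left] using h5
    · have h5 := hF3 j
      simpa only [Fin.append_right] using h5)
  obtain ⟨hUfin, hUr⟩ := hUf
  set V : Submodule ℂ R2 := U.map (homogeneousComponent (t + 1)) with hV
  have hVr : Module.finrank ℂ V ≤ ρ := (Submodule.finrank_map_le _ _).trans hUr
  -- the points `q0`, `p`, `z1`
  obtain ⟨y, -, hy2, hy3⟩ := exists_pt3 (ι := Fin (s + σ + 1)) hQ20 hQ20 hQ30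
    (Fin.cons 0 (fun i : Fin s => (Fin.castAdd σ i).succ))
    (Fin.cons 0 (fun i : Fin s => (Fin.castAdd σ i).succ)) id
    (by
      rw [Fin.cons_injective_iff]
      refine ⟨?_, (Fin.succ_injective _).comp (Fin.castAdd_injective s σ)⟩
      rintro ⟨i, hi⟩
      exact Fin.succ_ne_zero _ hi)
    (by
      rw [Fin.cons_injective_iff]
      refine ⟨?_, (Fin.succ_injective _).comp (Fin.castAdd_injective s σ)⟩
      rintro ⟨i, hi⟩
      exact Fin.succ_ne_zero _ hi) Function.injective_id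
  have hE2 := hQ2 _ hy2
  have hE3 : Emp d (Fin.cons (t + 1) (Fin.append μ fun _ : Fin σ => 1) : Fin (s + σ + 1) → ℕ) y :=
    hQ3 _ hy3
  set q0 : Fin 2 → ℂ := y 0 with hq0
  set p : Fin s → Fin 2 → ℂ := fun i => y (Fin.castAdd σ i).succ with hp
  have hE2' : ∀ F : R2, wdeg 1 F ≤ d → F ∈ ptIdeal q0 ^ (t + 2) → (∀ i, F ∈ ptIdeal (p i) ^ μ i) →
      F = 0 := by
    intro F hF1 hF2 hF3
    refine hE2 F hF1 ?_
    intro i
    refine Fin.cases ?_ (fun i => ?_) i
    · simpa only [Fin.cons_zero] using hF2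
    · have h5 := hF3 i
      simpa only [Fin.cons_succ] using h5
  set Y : Submodule ℂ R2 := lsys d (Fin.cons (t + 1) μ : Fin (s + 1) → ℕ)
    (Fin.cons q0 p : Fin (s + 1) → Fin 2 → ℂ) with hY
  have hYmem : ∀ F : R2, F ∈ Y ↔ wdeg 1 F ≤ d ∧ F ∈ ptIdeal q0 ^ (t + 1) ∧
      ∀ i, F ∈ ptIdeal (p i) ^ μ i := by
    intro F
    rw [hY, mem_lsys, Fin.forall_fin_succ]
    simp only [Fin.cons_zero, Fin.cons_succ]
  have hYf := finrank_le_of_pts Y (fun j : Fin σ => y (Fin.natAdd s j).succ) (by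
    intro F hF hF3
    rw [hYmem] at hF
    obtain ⟨hF1, hF2, hF4⟩ := hF
    refine hE3 F hF1 ?_
    intro i
    refine Fin.cases ?_ (fun i => ?_) i
    · simpa only [Fin.cons_zero] using hF2
    · rw [Fin.cons_succ]
      refine Fin.addCases (fun i => ?_) (fun j => ?_) i
      · have h5 := hF4 i
        simpa only [Fin.append_left] using h5
      · have h5 := hF3 j
        simpa only [Fin.append_right] using h5)
  obtain ⟨hYfin, hYr⟩ := hYf
  set W : Submodule ℂ R2 := Y.map (lead (t + 1) q0) with hW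
  have hWr : Module.finrank ℂ W ≤ σ := (Submodule.finrank_map_le _ _).trans hYr
  have hWh : W ≤ homogeneousSubmodule (Fin 2) ℂ (t + 1) := by
    rintro f ⟨F, _, rfl⟩
    rw [lead_apply, mem_homogeneousSubmodule]
    exact homogeneousComponent_isHomogeneous _ _
  have hVh : V ≤ homogeneousSubmodule (Fin 2) ℂ (t + 1) := by
    rintro f ⟨F, _, rfl⟩
    rw [mem_homogeneousSubmodule]
    exact homogeneousComponent_isHomogeneous _ _
  obtain ⟨Δ, hΔ0, hΔ⟩ := general_position W V hWh hVh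
    (le_trans (Nat.add_le_add hWr hVr) (by omega))
  -- the matrix
  obtain ⟨P', hP'⟩ := exists_pull P c (fun i => (i : ℕ) < q)
  have hP'0 : P' ≠ 0 := by
    intro h
    have h5 := hP' (fun ij => if ij.1 = ij.2 then 1 else 0)
    rw [h, map_zero] at h5
    apply hxP
    rw [h5]
    congr 1
    congr 1
    funext i
    by_cases hi : (i : ℕ) < q
    · rw [if_pos hi, gpt_one]
    · rw [if_neg hi]
  have hdet : (X (0, 0) * X (1, 1) - X (0, 1) * X (1, 0) : MvPolynomial (Fin 2 × Fin 2) ℂ) ≠ 0 := by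
    intro h
    have h5 := congrArg (eval (fun ij : Fin 2 × Fin 2 => if ij.1 = ij.2 then (1 : ℂ) else 0)) h
    simp at h5
  obtain ⟨g, hg⟩ : ∃ g : Fin 2 × Fin 2 → ℂ, eval g (Δ * P' *
      (X (0, 0) * X (1, 1) - X (0, 1) * X (1, 0))) ≠ 0 := by
    by_contra hcon
    push Not at hcon
    exact mul_ne_zero (mul_ne_zero hΔ0 hP'0) hdet
      (MvPolynomial.funext (fun x => by rw [hcon x, map_zero]))
  rw [map_mul, map_mul] at hg
  have hgΔ : eval g Δ ≠ 0 := fun h => hg (by rw [h]; ring)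
  have hgP : eval g P' ≠ 0 := fun h => hg (by rw [h]; ring)
  have hgd : g (0, 0) * g (1, 1) - g (0, 1) * g (1, 0) ≠ 0 := by
    intro h
    apply hg
    have : eval g (X (0, 0) * X (1, 1) - X (0, 1) * X (1, 0) : MvPolynomial (Fin 2 × Fin 2) ℂ) =
        g (0, 0) * g (1, 1) - g (0, 1) * g (1, 0) := by simp
    rw [this, h, mul_zero]
  rw [hP'] at hgP
  obtain ⟨g', -, -, hinv, -⟩ := exists_inv hgd
  -- collision
  obtain ⟨F, hF0, hFd, hF⟩ := hP _ hgP (s + 1)
    (Fin.append (fun _ : Fin q => (0 : Fin (s + 1))) (fun i : Fin s => i.succ))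
    (Fin.cons q0 p : Fin (s + 1) → Fin 2 → ℂ)
  have hFp : ∀ j : Fin s, F ∈ ptIdeal (p j) ^ μ j := by
    intro j
    obtain ⟨μ', f, hf0, hf1, hf2, hf3, -⟩ := hF j.succ
    rw [Fin.cons_succ] at hf1
    rw [mem_pow_iff_le_mult hF0]
    have h5 := hf3 (Fin.natAdd q j) (by rw [Fin.append_right])
    rw [Fin.append_right, mem_pow_iff_le_mult hf0] at h5
    exact h5.trans ((mult_le_deg _ hf0).trans (hf2.trans hf1))
  obtain ⟨μ', f, hf0, hf1, hf2, hf3, hf4⟩ := hF 0
  rw [Fin.cons_zero] at hf1 hf4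
  have hfm : ∀ i : Fin q, lact g f ∈ ptIdeal (cG i) ^ ν i := by
    intro i
    apply lact_mem
    have h5 := hf3 (Fin.castAdd s i) (by rw [Fin.append_left])
    rw [Fin.append_left, if_pos (by rw [Fin.val_castAdd]; exact i.2)] at h5
    exact h5
  have hlf0 : lact g f ≠ 0 := by
    intro h
    apply hf0
    rw [← hinv f, h, map_zero]
  have ht : t + 1 ≤ μ' := by
    by_contra hlt
    push Not at hlt
    exact hlf0 (hE0 _ ((wdeg_lact g f).trans (hf2.trans (by omega))) hfm)
  have hnot : ¬ F ∈ ptIdeal q0 ^ (t + 2) := fun h => hF0 (hE2' F hFd h hFp)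
  have hmul : mult q0 F = t + 1 := by
    by_contra hne
    apply hnot
    rw [mem_pow_iff_le_mult hF0]
    omega
  have hμ : μ' = t + 1 := by omega
  subst hμ
  have hFt : F ∈ ptIdeal q0 ^ (t + 1) := by
    rw [mem_pow_iff_le_mult hF0]
    omega
  have hFW : homogeneousComponent (t + 1) (trans q0 F) ∈ W :=
    ⟨F, (hYmem F).mpr ⟨hFd, hFt, hFp⟩, rfl⟩
  have heq : homogeneousComponent (t + 1) (trans q0 F) = homogeneousComponent (t + 1) f := by
    ext n
    rw [coeff_homogeneousComponent, coeff_homogeneousComponent]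
    split_ifs with h5
    · exact (hf4 n h5).symm
    · rfl
  apply hnot
  apply mem_succ hFt
  apply hΔ g hgΔ _ hFW
  rw [heq, ← hom_lact]
  exact ⟨lact g f, ⟨(wdeg_lact g f).trans hf2, hfm⟩, rfl⟩

theorem cw {t q m d ρ σ : ℕ} {ms : Multiset ℕ} (hρσ : ρ + σ ≤ t + 2)
    (h0 : E t (Multiset.replicate q m))
    (h1 : E (t + 1) (Multiset.replicate q m + Multiset.replicate ρ 1))
    (h2 : E d ((t + 2) ::ₘ ms))
    (h3 : E d ((t + 1) ::ₘ (ms + Multiset.replicate σ 1))) :
    E d (Multiset.replicate q m + ms) :=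
  cw_gen hρσ h0 h1 h2 h3

end Pool.Agent.SH9
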