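import Pool.Agent.SH9.Conv
import Pool.Agent.helper41.Nag16.Good16

set_option autoImplicit false

/-!
# Module Nine: nine points, toric tilings (copy the style of helper41.Nag16.Good16)

`nine0`: `T = tri (3m+2)`, side `3M`, `M = m+1`. Left strip `x < M`: rows `0..2M-1` of length `M`,
then `M,...,1`. Tiles: `M` descending on rows `0..M-1`, `M` ascending on rows `1..M` (these two
exhaust rows `0..M`), then `m` descending on rows `M+1..2M-1` and `m` ascending on the same rows
(`m` rows of length `m+1`), then `M` descending on rows `2M..3M-1`. The rest is a triangle of side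
`2M`: four tiles `M` (`good_four`).

`nine1`: `tri (3m)` has side `3m+1`. Lexicographic cuts (`Good.split`). Remove the point `(2m, m)`.
`DC = {x ≥ 2m+1}`: triangle of side `m`, one tile. `DB = {(m ≤ x ≤ 2m) ∧ (x = m → m ≤ y)}` minus
`(2m, m)`: rows `b < m`: `x ∈ [m+1, 2m+1)`, row `m`: `x ∈ [m, 2m)`, rows `m < b ≤ 2m`:
`x ∈ [m, 3m+1-b)`, lengths `2m+1-b`. Tiles: `m` descending rows `0..m-1`, ascending rows `1..m`,
descending rows `m+1..2m`. `DA = {x < m ∨ (x = m ∧ y < m)}`: rows `b < m`: length `m+1`, rows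
`m ≤ b ≤ 2m`: length `m`, rows `b > 2m`: length `3m+1-b`. Tiles: descending rows `0..m-1`, ascending
rows `0..m-1`, descending rows `m..2m-1`, ascending rows `m+1..2m`, descending rows `2m+1..3m`.
-/

namespace Pool.Agent.SH9

open Pool.Agent.helper89.Segre Pool.Agent.helper7.Hex Pool.Agent.helper41.Nag16

/-- the left strip: five tiles -/
private lemma strip0 (m : ℕ) (l : ℕ → ℕ) :
    Good ℂ (boxl (3 * m + 3) l (fun b => if b ≤ 2 * m + 1 then m + 1 else 3 * m + 3 - b))
      ((m + 1) ::ₘ (m + 1) ::ₘ m ::ₘ m ::ₘ (m + 1) ::ₘ 0)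
      (boxl (3 * m + 3) l (fun b => if b ≤ 2 * m + 1 then m + 1 else 3 * m + 3 - b)).card := by
  -- 1
  refine step_desc (a := 0) (fun b => if b ≤ m then b else if b ≤ 2 * m + 1 then m + 1 else
      3 * m + 3 - b) (by omega) (by omega) ?_ ?_ ?_ ?_
  · intro i hi; split_ifs <;> omega
  · intro b h1 h2; split_ifs <;> omega
  · intro b h1 h2; split_ifs <;> omega
  -- 2
  refine step_asc (a := 1) (fun b => if b ≤ m + 1 then 0 else if b ≤ 2 * m + 1 then m + 1 else
      3 * m + 3 - b) (by omega) ?_ ?_ ?_ ?_ ?_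
  · intro b hb; split_ifs <;> omega
  · intro i hi; split_ifs <;> omega
  · intro b h1 h2; split_ifs <;> omega
  · intro b h1 h2; split_ifs <;> omega
  -- 3
  refine step_desc (a := m + 2) (fun b => if b ≤ m + 1 then 0 else if b ≤ 2 * m + 1 then
      b - (m + 1) else 3 * m + 3 - b) (by omega) ?_ ?_ ?_ ?_ ?_
  · intro b hb; split_ifs <;> omega
  · intro i hi; split_ifs <;> omega
  · intro b h1 h2; split_ifs <;> omega
  · intro b h1 h2; split_ifs <;> omega
  -- 4
  refine step_asc (a := m + 2) (fun b => if b ≤ 2 * m + 1 then 0 else 3 * m + 3 - b)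
      (by omega) ?_ ?_ ?_ ?_ ?_
  · intro b hb; split_ifs <;> omega
  · intro i hi; split_ifs <;> omega
  · intro b h1 h2; split_ifs <;> omega
  · intro b h1 h2; split_ifs <;> omega
  -- 5
  refine step_desc (a := 2 * m + 2) (fun b => 0) (by omega) ?_ ?_ ?_ ?_ ?_
  · intro b hb; split_ifs <;> omega
  · intro i hi; split_ifs <;> omega
  · intro b h1 h2; split_ifs <;> omega
  · intro b h1 h2; split_ifs <;> omega
  exact good_nil (fun b _ => rfl) 0

/-- the right triangle: four tiles -/
private lemma right0 (m : ℕ) : Good ℂ ((tri (3 * m + 2)).filter (fun e => m + 1 ≤ e.1))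
    (Multiset.replicate 4 (m + 1)) ((tri (3 * m + 2)).filter (fun e => m + 1 ≤ e.1)).card := by
  classical
  have h1 : Good ℂ ((tri (3 * m + 2)).filter (fun e => e.1 + e.2 < 2 * (m + 1)))
      {m + 1, m + 1, m + 1, m + 1}
      ((tri (3 * m + 2)).filter (fun e => e.1 + e.2 < 2 * (m + 1))).card := by
    apply good_four (p := 0)
    intro e he
    rw [Finset.mem_filter] at he
    omega
  have h2 := h1.shift (m + 1)
  have h3 : ((tri (3 * m + 2)).filter (fun e => e.1 + e.2 < 2 * (m + 1))).image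
      (fun e => (e.1 + (m + 1), e.2)) = (tri (3 * m + 2)).filter (fun e => m + 1 ≤ e.1) := by
    ext ⟨a, b⟩
    simp only [Finset.mem_image, Finset.mem_filter, mem_tri, Prod.exists, Prod.mk.injEq]
    constructor
    · rintro ⟨a', b', ⟨h1, h2⟩, rfl, rfl⟩
      omega
    · rintro ⟨h1, h2⟩
      exact ⟨a - (m + 1), b, by omega, by omega, rfl⟩
  rw [h3] at h2
  have h4 : ((tri (3 * m + 2)).filter (fun e => m + 1 ≤ e.1)).card =
      ((tri (3 * m + 2)).filter (fun e => e.1 + e.2 < 2 * (m + 1))).card := by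
    rw [← h3]
    apply Finset.card_image_of_injective
    intro a b hab
    simp only [Prod.mk.injEq] at hab
    ext
    · omega
    · exact hab.2
  rw [h4]
  exact h2

theorem nine0 (m : ℕ) : E (3 * m + 2)
    (Multiset.replicate 7 (m + 1) + Multiset.replicate 2 m) := by
  classical
  unfold E
  set DC := (tri (3 * m + 2)).filter (fun e => m + 1 ≤ e.1) with hDC
  set DA := (tri (3 * m + 2)).filter (fun e => ¬ m + 1 ≤ e.1) with hDA
  have hC : Good ℂ DC (Multiset.replicate 4 (m + 1)) DC.card := right0 m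
  have hA : Good ℂ DA ((m + 1) ::ₘ (m + 1) ::ₘ m ::ₘ m ::ₘ (m + 1) ::ₘ 0) DA.card := by
    refine (strip0 m (fun _ => 0)).of_subset ?_
    intro e he
    rw [hDA, Finset.mem_filter, mem_tri] at he
    rw [mem_boxl]
    refine ⟨by omega, Nat.zero_le _, ?_⟩
    · split_ifs <;> omega
  have h1 := Good.split (DA := DC) (DB := DA) (by
    intro e he e' he'
    rw [hDC, Finset.mem_filter, mem_tri] at he
    rw [hDA, Finset.mem_filter, mem_tri] at he'
    omega) hC hA
  have h3 : DC ∪ DA = tri (3 * m + 2) := by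
    rw [hDC, hDA]
    exact Finset.filter_union_filter_not_eq _ _
  have h4 : DC.card + DA.card = (tri (3 * m + 2)).card := by
    rw [hDC, hDA]
    exact Finset.card_filter_add_card_filter_not _
  have h5 : Multiset.replicate 4 (m + 1) +
      ((m + 1) ::ₘ (m + 1) ::ₘ m ::ₘ m ::ₘ (m + 1) ::ₘ (0 : Multiset ℕ)) =
      Multiset.replicate 7 (m + 1) + Multiset.replicate 2 m := by
    rw [Multiset.cons_swap m (m + 1) 0, Multiset.cons_swap m (m + 1)]
    rfl
  rw [h3, h4, h5] at h1
  exact h1

/-- piece `C`: one tile -/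
private lemma pieceC1 (m : ℕ) (l : ℕ → ℕ) :
    Good ℂ (boxl (3 * m + 1) l (fun b => m - b)) (m ::ₘ 0)
      (boxl (3 * m + 1) l (fun b => m - b)).card := by
  refine step_desc (a := 0) (fun b => 0) (by omega) (by omega) ?_ ?_ ?_ ?_
  · intro i hi; omega
  · intro b h1 h2; omega
  · intro b h1 h2; omega
  exact good_nil (fun b _ => rfl) 0

/-- piece `B`: three tiles -/
private lemma pieceB1 (m : ℕ) (l : ℕ → ℕ) :
    Good ℂ (boxl (3 * m + 1) l (fun b => if b ≤ m then m else 2 * m + 1 - b))
      (m ::ₘ m ::ₘ m ::ₘ 0)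
      (boxl (3 * m + 1) l (fun b => if b ≤ m then m else 2 * m + 1 - b)).card := by
  refine step_desc (a := 0) (fun b => if b < m then b else if b ≤ m then m else 2 * m + 1 - b)
    (by omega) (by omega) ?_ ?_ ?_ ?_
  · intro i hi; split_ifs <;> omega
  · intro b h1 h2; split_ifs <;> omega
  · intro b h1 h2; split_ifs <;> omega
  refine step_asc (a := 1) (fun b => if b ≤ m then 0 else 2 * m + 1 - b) (by omega) ?_ ?_ ?_ ?_ ?_
  · intro b hb; split_ifs <;> omega
  · intro i hi; split_ifs <;> omega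
  · intro b h1 h2; split_ifs <;> omega
  · intro b h1 h2; split_ifs <;> omega
  refine step_desc (a := m + 1) (fun b => 0) (by omega) ?_ ?_ ?_ ?_ ?_
  · intro b hb; split_ifs <;> omega
  · intro i hi; split_ifs <;> omega
  · intro b h1 h2; split_ifs <;> omega
  · intro b h1 h2; split_ifs <;> omega
  exact good_nil (fun b _ => rfl) 0

/-- piece `A`: five tiles -/
private lemma pieceA1 (m : ℕ) (l : ℕ → ℕ) :
    Good ℂ (boxl (3 * m + 1) l (fun b => if b < m then m + 1 else if b ≤ 2 * m then m else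
        3 * m + 1 - b)) (m ::ₘ m ::ₘ m ::ₘ m ::ₘ m ::ₘ 0)
      (boxl (3 * m + 1) l (fun b => if b < m then m + 1 else if b ≤ 2 * m then m else
        3 * m + 1 - b)).card := by
  refine step_desc (a := 0) (fun b => if b < m then b + 1 else if b ≤ 2 * m then m else
        3 * m + 1 - b) (by omega) (by omega) ?_ ?_ ?_ ?_
  · intro i hi; split_ifs <;> omega
  · intro b h1 h2; split_ifs <;> omega
  · intro b h1 h2; split_ifs <;> omega
  refine step_asc (a := 0) (fun b => if b < m then 0 else if b ≤ 2 * m then m else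
        3 * m + 1 - b) (by omega) (by omega) ?_ ?_ ?_ ?_
  · intro i hi; split_ifs <;> omega
  · intro b h1 h2; split_ifs <;> omega
  · intro b h1 h2; split_ifs <;> omega
  refine step_desc (a := m) (fun b => if b < m then 0 else if b < 2 * m then b - m else
        if b ≤ 2 * m then m else 3 * m + 1 - b) (by omega) ?_ ?_ ?_ ?_ ?_
  · intro b hb; split_ifs <;> omega
  · intro i hi; split_ifs <;> omega
  · intro b h1 h2; split_ifs <;> omega
  · intro b h1 h2; split_ifs <;> omega
  refine step_asc (a := m + 1) (fun b => if b ≤ 2 * m then 0 else 3 * m + 1 - b)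
    (by omega) ?_ ?_ ?_ ?_ ?_
  · intro b hb; split_ifs <;> omega
  · intro i hi; split_ifs <;> omega
  · intro b h1 h2; split_ifs <;> omega
  · intro b h1 h2; split_ifs <;> omega
  refine step_desc (a := 2 * m + 1) (fun b => 0) (by omega) ?_ ?_ ?_ ?_ ?_
  · intro b hb; split_ifs <;> omega
  · intro i hi; split_ifs <;> omega
  · intro b h1 h2; split_ifs <;> omega
  · intro b h1 h2; split_ifs <;> omega
  exact good_nil (fun b _ => rfl) 0

private lemma choose9 (m : ℕ) : (3 * m + 2).choose 2 = 9 * (m + 1).choose 2 + 1 := by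
  induction m with
  | zero => rfl
  | succ m ih =>
    have e1 : (3 * (m + 1) + 2).choose 2 = (3 * m + 4) + (3 * m + 4).choose 2 := by
      rw [show 3 * (m + 1) + 2 = (3 * m + 4) + 1 by ring, Nat.choose_succ_succ' _ 1,
        Nat.choose_one_right]
    have e2 : (3 * m + 4).choose 2 = (3 * m + 3) + (3 * m + 3).choose 2 := by
      rw [show 3 * m + 4 = (3 * m + 3) + 1 by ring, Nat.choose_succ_succ' _ 1,
        Nat.choose_one_right]
    have e3 : (3 * m + 3).choose 2 = (3 * m + 2) + (3 * m + 2).choose 2 := by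
      rw [show 3 * m + 3 = (3 * m + 2) + 1 by ring, Nat.choose_succ_succ' _ 1,
        Nat.choose_one_right]
    have e4 : (m + 1 + 1).choose 2 = (m + 1) + (m + 1).choose 2 := by
      rw [Nat.choose_succ_succ' _ 1, Nat.choose_one_right]
    omega

theorem nine1 (m : ℕ) : Good ℂ (tri (3 * m)) (Multiset.replicate 9 m)
    (9 * (m + 1).choose 2) := by
  classical
  set T := (tri (3 * m)).erase (2 * m, m) with hT
  have hTm : ∀ e : ℕ × ℕ, e ∈ T ↔ e.1 + e.2 ≤ 3 * m ∧ ¬ (e.1 = 2 * m ∧ e.2 = m) := by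
    intro e
    rw [hT, Finset.mem_erase, mem_tri, ne_eq, Prod.ext_iff]
    tauto
  set DC := T.filter (fun e => 2 * m + 1 ≤ e.1) with hDC
  set DB := T.filter (fun e => ¬ 2 * m + 1 ≤ e.1 ∧
    (m + 1 ≤ e.1 ∨ (m ≤ e.1 ∧ m ≤ e.2))) with hDB
  set DA := T.filter (fun e => ¬ 2 * m + 1 ≤ e.1 ∧
    ¬ (m + 1 ≤ e.1 ∨ (m ≤ e.1 ∧ m ≤ e.2))) with hDA
  have hC : Good ℂ DC (m ::ₘ 0) DC.card := by
    refine (pieceC1 m (fun _ => 2 * m + 1)).of_subset ?_
    intro e he
    rw [hDC, Finset.mem_filter, hTm] at he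
    rw [mem_boxl]
    refine ⟨by omega, ?_, ?_⟩
    · omega
    · omega
  have hB : Good ℂ DB (m ::ₘ m ::ₘ m ::ₘ 0) DB.card := by
    refine (pieceB1 m (fun b => if b < m then m + 1 else m)).of_subset ?_
    intro e he
    rw [hDB, Finset.mem_filter, hTm] at he
    rw [mem_boxl]
    refine ⟨by omega, ?_, ?_⟩
    · split_ifs <;> omega
    · split_ifs <;> omega
  have hA : Good ℂ DA (m ::ₘ m ::ₘ m ::ₘ m ::ₘ m ::ₘ 0) DA.card := by
    refine (pieceA1 m (fun _ => 0)).of_subset ?_
    intro e he
    rw [hDA, Finset.mem_filter, hTm] at he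
    rw [mem_boxl]
    refine ⟨by omega, Nat.zero_le _, ?_⟩
    · split_ifs <;> omega
  have h1 := Good.split (DA := DB) (DB := DA) (by
    intro e he e' he'
    rw [hDB, Finset.mem_filter, hTm] at he
    rw [hDA, Finset.mem_filter, hTm] at he'
    omega) hB hA
  have h2 := Good.split (DA := DC) (DB := DB ∪ DA) (by
    intro e he e' he'
    rw [hDC, Finset.mem_filter, hTm] at he
    rw [Finset.mem_union, hDB, hDA, Finset.mem_filter, Finset.mem_filter, hTm] at he'
    omega) hC h1
  have h3 : DC ∪ (DB ∪ DA) = T := by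
    ext e
    rw [Finset.mem_union, Finset.mem_union, hDC, hDB, hDA, Finset.mem_filter, Finset.mem_filter,
      Finset.mem_filter]
    tauto
  have h4 : DC.card + (DB.card + DA.card) = T.card := by
    rw [← h3, Finset.card_union_of_disjoint, Finset.card_union_of_disjoint]
    · rw [Finset.disjoint_left]
      intro e he he'
      rw [hDB, Finset.mem_filter] at he
      rw [hDA, Finset.mem_filter] at he'
      exact he'.2.2 he.2.2
    · rw [Finset.disjoint_left]
      intro e he he'
      rw [hDC, Finset.mem_filter] at he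
      rw [Finset.mem_union, hDB, hDA, Finset.mem_filter, Finset.mem_filter] at he'
      rcases he' with he' | he'
      · exact he'.2.1 he.2
      · exact he'.2.1 he.2
  have h5 : (m ::ₘ (0 : Multiset ℕ)) + ((m ::ₘ m ::ₘ m ::ₘ 0) + (m ::ₘ m ::ₘ m ::ₘ m ::ₘ m ::ₘ 0)) =
      Multiset.replicate 9 m := rfl
  have h6 : T.card = 9 * (m + 1).choose 2 := by
    rw [hT, Finset.card_erase_of_mem (by rw [mem_tri]; omega), card_tri, choose9]
    omega
  rw [h3, h4, h5, h6] at h2
  exact h2.mono_left (by rw [hT]; exact Finset.erase_subset _ _)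

end Pool.Agent.SH9
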