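import Pool.Agent.SH9.Conv
import Pool.Agent.helper1.KV.Final
import Pool.Agent.helper25.CF.P2b

set_option autoImplicit false

/-!
# Module Base: from the exponential bound (helper25.CF.P2b) and the vanishing theorem
(helper1.KV.Final) to `Good`

`baseR`: very general `p` for the weights `T i + 1` (`exp_weighted_order`); the inequality gives
`∑ (T i + 1) mult_i F ≤ (d + 3) wdeg 1 F`, then `kv_finrank` and `good_of_finrank`.
-/

namespace Pool.Agent.SH9

open MvPolynomial Pool.Agent.helper5.NBS Pool.Agent.helper89.Segre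

theorem baseR {n : ℕ} (T : Fin n → ℕ) (W J U a : ℕ) (hw : ∀ i, T i + 1 ≤ W)
    (hwa : (Finset.univ.filter fun i => T i + 1 = W).card = a)
    (hU : ∑ i, (T i + 1) ^ 2 ≤ (a + U) * W ^ 2) (ha : 192 ≤ a) (hJ : 64 * J + 4 + U ≤ 3 * a)
    (d : ℕ)
    (h : (5 ^ J * (((a - 16 * J : ℕ) : ℝ) - 2) + 1) * (∑ i, ((T i : ℝ) + 1) ^ 2) ≤
      5 ^ J * (((a - 16 * J : ℕ) : ℝ) - 2) * ((d : ℝ) + 3) ^ 2)
    (hex : ∑ i, (T i + 2).choose 2 < (d + 5).choose 2) :
    Good ℂ (tri d) (Finset.univ.val.map T) (∑ i, (T i + 1).choose 2) := by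
  classical
  have hn : 0 < n := by
    rcases Nat.eq_zero_or_pos n with h0 | h0
    · subst h0
      rw [Finset.univ_eq_empty, Finset.filter_empty, Finset.card_empty] at hwa
      omega
    · exact h0
  have hW : 0 < W := lt_of_lt_of_le (Nat.succ_pos _) (hw ⟨0, hn⟩)
  obtain ⟨S, hSc, hS0, hSq⟩ := Pool.Agent.helper25.CF.exp_weighted_order (fun i => T i + 1) W J U a
    hW hw hwa hU ha hJ
  obtain ⟨x, hx⟩ := Pool.Agent.helper7.SC.exists_avoid S hSc hS0
  let q : Fin n → Fin 2 → ℂ := fun i l => x (i, l)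
  have hq : ∀ Q ∈ S, evP q Q ≠ 0 := fun Q hQ => hx Q hQ
  obtain ⟨hinj, hF⟩ := hSq q hq
  set z : ℝ := 5 ^ J * (((a - 16 * J : ℕ) : ℝ) - 2) with hz
  have hz0 : 0 < z := by
    rw [hz]
    have h1 : (3 : ℝ) ≤ ((a - 16 * J : ℕ) : ℝ) := by
      have : 3 ≤ a - 16 * J := by omega
      exact_mod_cast this
    have h2 : (0 : ℝ) < 5 ^ J := by positivity
    apply mul_pos h2
    linarith
  have hSpos : 0 < ∑ i, ((T i : ℝ) + 1) ^ 2 := by
    apply Finset.sum_pos
    · intro i _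
      positivity
    · exact ⟨⟨0, hn⟩, Finset.mem_univ _⟩
  have hnef : ∀ F : R2, F ≠ 0 → ∑ l, (T l + 1) * mult (q l) F ≤ (d + 3) * wdeg 1 F := by
    intro F hF0
    have h1 := hF F hF0
    push_cast at h1
    have h2 : z * (∑ i, ((T i : ℝ) + 1) * (mult (q i) F : ℝ)) ^ 2 ≤
        z * (((d : ℝ) + 3) * (wdeg 1 F : ℝ)) ^ 2 := by
      refine h1.trans ?_
      have h3 := mul_le_mul_of_nonneg_right h (sq_nonneg (wdeg 1 F : ℝ))
      calc (z + 1) * (∑ i, ((T i : ℝ) + 1) ^ 2) * (wdeg 1 F : ℝ) ^ 2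
          ≤ z * ((d : ℝ) + 3) ^ 2 * (wdeg 1 F : ℝ) ^ 2 := h3
        _ = z * (((d : ℝ) + 3) * (wdeg 1 F : ℝ)) ^ 2 := by ring
    have h4 := le_of_mul_le_mul_left h2 hz0
    have h5 := abs_le_of_sq_le_sq' h4 (by positivity)
    have h6 : ((∑ l, (T l + 1) * mult (q l) F : ℕ) : ℝ) ≤ (((d + 3) * wdeg 1 F : ℕ) : ℝ) := by
      push_cast
      exact h5.2
    exact_mod_cast h6
  have hbig : ∑ l, (T l + 1) ^ 2 < (d + 3) ^ 2 := by
    have h1 : z * (∑ i, ((T i : ℝ) + 1) ^ 2) < z * ((d : ℝ) + 3) ^ 2 := by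
      refine lt_of_lt_of_le ?_ h
      linarith
    have h2 := lt_of_mul_lt_mul_left h1 hz0.le
    have h3 : ((∑ l, (T l + 1) ^ 2 : ℕ) : ℝ) < (((d + 3) ^ 2 : ℕ) : ℝ) := by
      push_cast
      exact h2
    exact_mod_cast h3
  have hfin := Pool.Agent.helper1.KV.kv_finrank hinj hnef hbig hex
  refine good_of_finrank (p := q) (Pool.Agent.helper1.KV.Vt d ⊓
    (Pool.Agent.helper1.KV.Jd q T).restrictScalars ℂ) ?_ ?_
  · intro F
    rw [Submodule.mem_inf, Pool.Agent.helper1.KV.mem_Vt, Submodule.restrictScalars_mem,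
      Pool.Agent.helper1.KV.mem_Jd hinj]
  · rw [card_tri]
    have h1 : ∀ k : ℕ, 2 * (k + 1).choose 2 = k * (k + 1) := by
      intro k
      have := Nat.triangle_succ k
      rw [Nat.choose_two_right, Nat.add_sub_cancel]
      have h2 : 2 ∣ (k + 1) * k := by
        rw [mul_comm]
        exact (Nat.even_mul_succ_self k).two_dvd
      rw [Nat.mul_div_cancel' h2, mul_comm]
    have h2 : 2 * ∑ i, (T i + 1).choose 2 = ∑ i, T i * (T i + 1) := by
      rw [Finset.mul_sum]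
      exact Finset.sum_congr rfl fun i _ => h1 _
    have h3 := h1 (d + 1)
    have h4 : (d + 2).choose 2 = (d + 1 + 1).choose 2 := rfl
    rw [h4]
    have h5 : (d + 1) * (d + 2) = (d + 1) * (d + 1 + 1) := rfl
    omega

end Pool.Agent.SH9
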