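import Pool.Agent.SH9.Conv
import Pool.Agent.helper25.CF.P2b
import Pool.Agent.helper25.SC.MIN

set_option autoImplicit false

/-!
# Module BaseE: from the exponential bound (helper25.CF.P2b) to `E`
-/

namespace Pool.Agent.SH9

open MvPolynomial Pool.Agent.helper5.NBS Pool.Agent.helper89.Segre

theorem baseE {n : ℕ} (w : Fin n → ℕ) (W J U a : ℕ) (hW : 0 < W) (hw : ∀ i, w i ≤ W)
    (hwa : (Finset.univ.filter fun i => w i = W).card = a)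
    (hU : ∑ i, w i ^ 2 ≤ (a + U) * W ^ 2) (ha : 192 ≤ a) (hJ : 64 * J + 4 + U ≤ 3 * a)
    (d : ℕ) (m : Fin n → ℕ)
    (h : (5 ^ J * (((a - 16 * J : ℕ) : ℝ) - 2) + 1) * (∑ i, (w i : ℝ) ^ 2) * (d : ℝ) ^ 2 <
      5 ^ J * (((a - 16 * J : ℕ) : ℝ) - 2) * (∑ i, (w i : ℝ) * m i) ^ 2) :
    E d (Finset.univ.val.map m) := by
  obtain ⟨T, hTc, hT0, hT⟩ := Pool.Agent.helper25.CF.exp_weighted_order w W J U a hW hw hwa hU ha hJ
  obtain ⟨P, hP⟩ := Pool.Agent.helper7.SC.exists_avoid T hTc hT0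
  let q : Fin n → Fin 2 → ℂ := fun i l => P (i, l)
  have hq : ∀ Q ∈ T, evP q Q ≠ 0 := fun Q hQ => by
    have h1 : evP q Q = eval P Q := by rw [evP]
    rw [h1]
    exact hP Q hQ
  obtain ⟨_, hb⟩ := hT q hq
  apply E_of_emp (p := q)
  intro F hFd hFm
  by_contra hF0
  have hm : ∀ i, m i ≤ mult (q i) F := fun i => (mem_pow_iff_le_mult hF0).mp (hFm i)
  have hb1 := hb F hF0
  have hz0 : (0 : ℝ) ≤ 5 ^ J * (((a - 16 * J : ℕ) : ℝ) - 2) := by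
    have h1 : 2 ≤ a - 16 * J := by omega
    have h2 : (2 : ℝ) ≤ ((a - 16 * J : ℕ) : ℝ) := by exact_mod_cast h1
    have h3 : (0 : ℝ) ≤ ((a - 16 * J : ℕ) : ℝ) - 2 := by linarith
    positivity
  set z : ℝ := 5 ^ J * (((a - 16 * J : ℕ) : ℝ) - 2) with hz
  have h1 : (∑ i, (w i : ℝ) * m i) ≤ ∑ i, (w i : ℝ) * mult (q i) F := by
    apply Finset.sum_le_sum
    intro i _
    have := hm i
    have h2 : (m i : ℝ) ≤ (mult (q i) F : ℝ) := by exact_mod_cast this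
    exact mul_le_mul_of_nonneg_left h2 (Nat.cast_nonneg _)
  have h0 : (0 : ℝ) ≤ ∑ i, (w i : ℝ) * m i := Finset.sum_nonneg fun i _ => by positivity
  have h2 : (∑ i, (w i : ℝ) * m i) ^ 2 ≤ (∑ i, (w i : ℝ) * mult (q i) F) ^ 2 :=
    pow_le_pow_left₀ h0 h1 2
  have h3 : z * (∑ i, (w i : ℝ) * m i) ^ 2 ≤ z * (∑ i, (w i : ℝ) * mult (q i) F) ^ 2 :=
    mul_le_mul_of_nonneg_left h2 hz0
  have h4 : (wdeg 1 F : ℝ) ^ 2 ≤ (d : ℝ) ^ 2 := by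
    have h5 : (wdeg 1 F : ℝ) ≤ (d : ℝ) := by exact_mod_cast hFd
    exact pow_le_pow_left₀ (Nat.cast_nonneg _) h5 2
  have h5 : (0 : ℝ) ≤ (z + 1) * (∑ i, (w i : ℝ) ^ 2) := by positivity
  have h6 : (z + 1) * (∑ i, (w i : ℝ) ^ 2) * (wdeg 1 F : ℝ) ^ 2 ≤
      (z + 1) * (∑ i, (w i : ℝ) ^ 2) * (d : ℝ) ^ 2 := mul_le_mul_of_nonneg_left h4 h5
  linarith

end Pool.Agent.SH9
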