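import Pool.Agent.SH9.Conv
import Pool.Agent.SH9.Collide

set_option autoImplicit false

/-!
# Module CC1: collision of `q` points at the price of one simple point

Let `q` points of multiplicity `m` be such that `L_t(m^q)` is empty and `L_(t+1)(m^q)` has dimension
at most one (at general points), `E (t+1) (m^q, 1)`. If `L_d(t+2, ms)` is empty then
`L_d(m^q, 1, ms)` is empty.

Proof. Suppose `¬ E d (m^q + (1 ::ₘ ms))`. Write `ms = univ.val.map μ` with `μ : Fin s → ℕ`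
(`Multiset` induction or `ms.toList`), the points are indexed by `Fin (q + (1 + s))` or any
convenient `Fin n`. By `E_of_emp` no configuration is empty, so `collide` gives `P ≠ 0`. Choose `c`
with `P(c) ≠ 0` whose first `q` points `c_G` satisfy: `Emp t (m^q) c_G` and there is a point `z₀`
with `Emp (t+1) (m^q, 1) (c_G, z₀)` (`E.generic`, product of nonzero polynomials; the second
polynomial depends also on `z₀`: choose `(c, z₀)` together). So two polynomials `g₁, g₂` of degree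
`≤ t + 1` with multiplicities `m` at `c_G` are proportional.
Choose `(q₀, p)` with `Emp d (t+2, μ) (q₀, p)` (`E.generic`). The space `X` of all `F` with
`wdeg 1 F ≤ d`, `F ∈ ptIdeal (p i) ^ μ i`, `F ∈ ptIdeal q₀ ^ (t+1)` and with terms of degree `t+1` at
`q₀` equal to those of some `g` of degree `≤ t+1` with multiplicities `m` at `c_G` has dimension
`≤ 1`: for `F₁, F₂ ∈ X` with `g₁, g₂`, a combination `(a₁, a₂) ≠ 0` has `a₁ g₁ + a₂ g₂ = 0`, so
`a₁ F₁ + a₂ F₂ ∈ ptIdeal q₀ ^ (t+2)`, so it is `0`. Choose `z` with `F(z) ≠ 0` for a generator of `X`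
(`z = 0` if `X = 0`). Apply `collide` to `π` (group `↦ q₀`, the others to `z`, `p i`): get `F ≠ 0`.
At `p i`: `g ≠ 0` of degree `≤ μ' ≤ mult (p i) F` in `ptIdeal (c i) ^ μ i`; since
`mult ≤ totalDegree` (`mult_le_totalDegree` in helper89.Exp.Collide16) `μ i ≤ mult (p i) F`. Same at
`z`, so `F(z) = 0`. At `q₀`: `g ≠ 0` of degree `≤ μ' ≤ mult q₀ F` with multiplicities `m` at `c_G`;
`Emp t` gives `t + 1 ≤ μ'`; if `mult q₀ F ≥ t + 2` then `F = 0` by `Emp d (t+2, μ)`; so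
`mult q₀ F = t + 1 = μ'` and `F ∈ X`, `F(z) = 0`, contradiction.
-/

namespace Pool.Agent.SH9

open MvPolynomial Pool.Agent.helper5.NBS Pool.Agent.helper89.Segre

lemma cc1_totalDegree_trans_le (p : Fin 2 → ℂ) (F : R2) :
    (trans p F).totalDegree ≤ F.totalDegree := by
  have h1 : trans p F = aeval (fun j : Fin 2 => (X j + C (p j) : R2)) F := rfl
  rw [h1, aeval_def, eval₂_eq]
  apply totalDegree_finsetSum_le
  intro n hn
  refine (totalDegree_mul _ _).trans ?_
  rw [algebraMap_eq, totalDegree_C, zero_add]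
  refine (totalDegree_finsetProd _ _).trans ?_
  have h2 : ∀ i ∈ n.support, ((X i + C (p i) : R2) ^ n i).totalDegree ≤ n i := by
    intro i _
    refine (totalDegree_pow _ _).trans ?_
    have h3 : (X i + C (p i) : R2).totalDegree ≤ 1 := by
      refine (totalDegree_add _ _).trans ?_
      rw [totalDegree_X, totalDegree_C]
      simp
    calc n i * _ ≤ n i * 1 := Nat.mul_le_mul_left _ h3
      _ = n i := mul_one _
  exact (Finset.sum_le_sum h2).trans (le_totalDegree hn)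

lemma cc1_totalDegree_le_wdeg (F : R2) : F.totalDegree ≤ wdeg 1 F := by
  refine Finset.sup_le fun n hn => ?_
  have h1 : (n.sum fun _ e => e) = n 0 + 1 * n 1 := by
    rw [Finsupp.sum_fintype _ _ (fun _ => rfl), Fin.sum_univ_two, one_mul]
  rw [h1]
  exact Finset.le_sup (f := fun n : Fin 2 →₀ ℕ => n 0 + 1 * n 1) hn

/-- the multiplicity is at most the degree -/
lemma cc1_le_wdeg_of_mem {p : Fin 2 → ℂ} {F : R2} {k : ℕ} (hF : F ≠ 0) (h : F ∈ ptIdeal p ^ k) :
    k ≤ wdeg 1 F := by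
  have h1 := mem_ptIdeal_pow.mp h
  have h2 : trans p F ≠ 0 := fun h => hF ((trans p).map_eq_zero_iff.mp h)
  obtain ⟨n, hn⟩ := support_nonempty.mpr h2
  by_contra hcon
  push Not at hcon
  have h3 := le_totalDegree hn
  have h4 := (cc1_totalDegree_trans_le p F).trans (cc1_totalDegree_le_wdeg F)
  have h5 : (n.sum fun _ e => e) = n.degree := by
    rw [Finsupp.degree_eq_sum, Finsupp.sum_fintype _ _ (fun _ => rfl)]
  rw [mem_support_iff] at hn
  exact hn (h1 n (by omega))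

lemma cc1_exists_fin_map (ms : Multiset ℕ) :
    ∃ (s : ℕ) (μ : Fin s → ℕ), ms = Finset.univ.val.map μ := by
  obtain ⟨l, rfl⟩ := Quotient.exists_rep ms
  exact ⟨l.length, l.get, by rw [Fin.univ_val_map, List.ofFn_get]; rfl⟩

lemma cc1_univ_map_cons {s : ℕ} (a : ℕ) (μ : Fin s → ℕ) :
    Finset.univ.val.map (Fin.cons a μ : Fin (s + 1) → ℕ) = a ::ₘ Finset.univ.val.map μ := by
  rw [Fin.univ_val_map, Fin.univ_val_map, List.ofFn_cons]
  rfl

lemma cc1_univ_map_append {q s : ℕ} (a : Fin q → ℕ) (b : Fin s → ℕ) :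
    Finset.univ.val.map (Fin.append a b) =
      Finset.univ.val.map a + Finset.univ.val.map b := by
  rw [Fin.univ_val_map, Fin.univ_val_map, Fin.univ_val_map, List.ofFn_fin_append]
  rfl

lemma cc1_univ_map_const (q m : ℕ) :
    Finset.univ.val.map (fun _ : Fin q => m) = Multiset.replicate q m := by
  rw [Multiset.map_const']
  congr 1
  exact (Finset.card_univ).trans (Fintype.card_fin q)

lemma cc1_wdeg_smul_add_le {F G : R2} {d : ℕ} (hF : wdeg 1 F ≤ d) (hG : wdeg 1 G ≤ d) (a b : ℂ) :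
    wdeg 1 (C a * F + C b * G) ≤ d := by
  refine Finset.sup_le fun n hn => ?_
  rw [mem_support_iff, coeff_add, coeff_C_mul, coeff_C_mul] at hn
  by_cases h1 : coeff n F = 0
  · have h2 : coeff n G ≠ 0 := by
      intro h2
      apply hn
      rw [h1, h2]
      ring
    exact (Finset.le_sup (f := fun n : Fin 2 →₀ ℕ => n 0 + 1 * n 1)
      (mem_support_iff.2 h2)).trans hG
  · exact (Finset.le_sup (f := fun n : Fin 2 →₀ ℕ => n 0 + 1 * n 1)
      (mem_support_iff.2 h1)).trans hF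

theorem cc1 {t q m d : ℕ} {ms : Multiset ℕ} (h0 : E t (Multiset.replicate q m))
    (h1 : E (t + 1) (1 ::ₘ Multiset.replicate q m)) (h : E d ((t + 2) ::ₘ ms)) :
    E d (Multiset.replicate q m + (1 ::ₘ ms)) := by
  classical
  obtain ⟨s, μ, rfl⟩ := cc1_exists_fin_map ms
  by_contra hE
  -- the multiplicities
  let M : Fin (q + (s + 1)) → ℕ := Fin.append (fun _ => m) (Fin.cons 1 μ : Fin (s + 1) → ℕ)
  have hM : Finset.univ.val.map M =
      Multiset.replicate q m + (1 ::ₘ Finset.univ.val.map μ) := by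
    rw [cc1_univ_map_append, cc1_univ_map_cons, cc1_univ_map_const]
  have hne : ∀ c : Fin (q + (s + 1)) → Fin 2 → ℂ, ¬ Emp d M c := by
    intro c hc
    apply hE
    rw [← hM]
    exact E_of_emp hc
  obtain ⟨P, hP0, hP⟩ := collide hne
  -- generic polynomials
  rw [← cc1_univ_map_const q m] at h0 h1
  rw [← cc1_univ_map_cons] at h1 h
  obtain ⟨Q0, hQ00, hQ0⟩ := h0.generic
  obtain ⟨Q1, hQ10, hQ1⟩ := h1.generic
  obtain ⟨Q2, hQ20, hQ2⟩ := h.generic
  -- the configuration `(z₀, c)`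
  let ιP : Fin (q + (s + 1)) × Fin 2 → Fin (q + (s + 1) + 1) × Fin 2 := fun a => (a.1.succ, a.2)
  let ι0 : Fin q × Fin 2 → Fin (q + (s + 1) + 1) × Fin 2 :=
    fun a => ((Fin.castAdd (s + 1) a.1).succ, a.2)
  let κ : Fin (q + 1) → Fin (q + (s + 1) + 1) :=
    Fin.cons 0 (fun i : Fin q => (Fin.castAdd (s + 1) i).succ)
  let ι1 : Fin (q + 1) × Fin 2 → Fin (q + (s + 1) + 1) × Fin 2 := fun a => (κ a.1, a.2)
  have hιP : Function.Injective ιP := by
    rintro ⟨a, b⟩ ⟨a', b'⟩ hab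
    simp only [ιP, Prod.mk.injEq, Fin.succ_inj] at hab
    rw [hab.1, hab.2]
  have hι0 : Function.Injective ι0 := by
    rintro ⟨a, b⟩ ⟨a', b'⟩ hab
    simp only [ι0, Prod.mk.injEq, Fin.succ_inj, Fin.castAdd_inj] at hab
    rw [hab.1, hab.2]
  have hκ : Function.Injective κ := by
    intro a b
    refine Fin.cases ?_ (fun a => ?_) a <;> refine Fin.cases ?_ (fun b => ?_) b
    · intro _
      rfl
    · intro h'
      have h2 : (0 : Fin (q + (s + 1) + 1)) = (Fin.castAdd (s + 1) b).succ := h'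
      exact absurd h2.symm (Fin.succ_ne_zero _)
    · intro h'
      have h2 : (Fin.castAdd (s + 1) a).succ = (0 : Fin (q + (s + 1) + 1)) := h'
      exact absurd h2 (Fin.succ_ne_zero _)
    · intro h'
      have h2 : (Fin.castAdd (s + 1) a).succ = (Fin.castAdd (s + 1) b).succ := h'
      rw [Fin.succ_inj, Fin.castAdd_inj] at h2
      rw [h2]
  have hι1 : Function.Injective ι1 := by
    rintro ⟨a, b⟩ ⟨a', b'⟩ hab
    simp only [ι1, Prod.mk.injEq] at hab
    rw [hκ hab.1, hab.2]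
  have hprod : rename ιP P * (rename ι0 Q0 * rename ι1 Q1) ≠ 0 := by
    refine mul_ne_zero ?_ (mul_ne_zero ?_ ?_)
    · exact fun h' => hP0 ((map_eq_zero_iff _ (rename_injective _ hιP)).mp h')
    · exact fun h' => hQ00 ((map_eq_zero_iff _ (rename_injective _ hι0)).mp h')
    · exact fun h' => hQ10 ((map_eq_zero_iff _ (rename_injective _ hι1)).mp h')
  obtain ⟨x, hx⟩ : ∃ x : Fin (q + (s + 1) + 1) × Fin 2 → ℂ,
      eval x (rename ιP P * (rename ι0 Q0 * rename ι1 Q1)) ≠ 0 := by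
    by_contra hcon
    push Not at hcon
    exact hprod (MvPolynomial.funext fun x => by rw [hcon x, map_zero])
  rw [map_mul, map_mul, eval_rename, eval_rename, eval_rename] at hx
  have hxP := left_ne_zero_of_mul hx
  have hx0 := left_ne_zero_of_mul (right_ne_zero_of_mul hx)
  have hx1 := right_ne_zero_of_mul (right_ne_zero_of_mul hx)
  set z₀ : Fin 2 → ℂ := fun l => x (0, l) with hz₀
  set c : Fin (q + (s + 1)) → Fin 2 → ℂ := fun i l => x (i.succ, l) with hc
  set cG : Fin q → Fin 2 → ℂ := fun i => c (Fin.castAdd (s + 1) i) with hcG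
  have hcP : evP c P ≠ 0 := hxP
  have hE0 : Emp t (fun _ : Fin q => m) cG := hQ0 cG hx0
  have hE1 : Emp (t + 1) (Fin.cons 1 (fun _ => m) : Fin (q + 1) → ℕ)
      (Fin.cons z₀ cG : Fin (q + 1) → Fin 2 → ℂ) := by
    apply hQ1
    have : evP (Fin.cons z₀ cG : Fin (q + 1) → Fin 2 → ℂ) Q1 = eval (x ∘ ι1) Q1 := by
      show eval _ Q1 = _
      congr 2
      funext a
      obtain ⟨a, l⟩ := a
      refine Fin.cases ?_ (fun a => ?_) a <;> rfl
    rw [this]
    exact hx1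
  -- the points `q₀, p`
  obtain ⟨y, hy⟩ : ∃ y : Fin (s + 1) × Fin 2 → ℂ, eval y Q2 ≠ 0 := by
    by_contra hcon
    push Not at hcon
    exact hQ20 (MvPolynomial.funext fun x => by rw [hcon x, map_zero])
  set q₀ : Fin 2 → ℂ := fun l => y (0, l) with hq₀
  set p : Fin s → Fin 2 → ℂ := fun i l => y (i.succ, l) with hp
  have hE2 : ∀ F : R2, wdeg 1 F ≤ d → F ∈ ptIdeal q₀ ^ (t + 2) →
      (∀ i, F ∈ ptIdeal (p i) ^ μ i) → F = 0 := by
    intro F hF hF0 hFp
    refine hQ2 (fun i l => y (i, l)) hy F hF fun i => ?_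
    refine Fin.cases ?_ (fun i => ?_) i
    · exact hF0
    · exact hFp i
  -- the space `X`
  let XX : R2 → Prop := fun F => wdeg 1 F ≤ d ∧ (∀ i, F ∈ ptIdeal (p i) ^ μ i) ∧
    F ∈ ptIdeal q₀ ^ (t + 1) ∧ ∃ g : R2, wdeg 1 g ≤ t + 1 ∧ (∀ i, g ∈ ptIdeal (cG i) ^ m) ∧
      ∀ ν : Fin 2 →₀ ℕ, ν.degree = t + 1 → coeff ν g = coeff ν (trans q₀ F)
  have hdep : ∀ F₁ F₂, XX F₁ → XX F₂ → ∃ a b : ℂ, (a ≠ 0 ∨ b ≠ 0) ∧ C a * F₁ + C b * F₂ = 0 := by
    rintro F₁ F₂ ⟨hd1, hp1, hm1, g₁, hg1, hgm1, hgc1⟩ ⟨hd2, hp2, hm2, g₂, hg2, hgm2, hgc2⟩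
    -- a combination of `g₁, g₂` vanishes
    obtain ⟨a, b, hab, hg⟩ : ∃ a b : ℂ, (a ≠ 0 ∨ b ≠ 0) ∧ C a * g₁ + C b * g₂ = 0 := by
      have key : ∀ a b : ℂ, a * eval z₀ g₁ + b * eval z₀ g₂ = 0 → C a * g₁ + C b * g₂ = 0 := by
        intro a b hab
        refine hE1 _ (cc1_wdeg_smul_add_le hg1 hg2 a b) fun i => ?_
        refine Fin.cases ?_ (fun i => ?_) i
        · show _ ∈ ptIdeal z₀ ^ 1
          rw [pow_one, mem_ptIdeal_iff, map_add, map_mul, map_mul, eval_C, eval_C]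
          exact hab
        · show _ ∈ ptIdeal (cG i) ^ m
          exact Ideal.add_mem _ (Ideal.mul_mem_left _ _ (hgm1 i)) (Ideal.mul_mem_left _ _ (hgm2 i))
      by_cases h1 : eval z₀ g₁ = 0
      · exact ⟨1, 0, Or.inl one_ne_zero, key 1 0 (by rw [h1]; ring)⟩
      · exact ⟨eval z₀ g₂, - eval z₀ g₁, Or.inr (neg_ne_zero.2 h1), key _ _ (by ring)⟩
    refine ⟨a, b, hab, hE2 _ (cc1_wdeg_smul_add_le hd1 hd2 a b) ?_ fun i => ?_⟩
    · rw [mem_ptIdeal_pow]
      intro n hn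
      rw [map_add, map_mul, map_mul, trans_C, trans_C, coeff_add, coeff_C_mul, coeff_C_mul]
      rcases Nat.lt_or_ge n.degree (t + 1) with h' | h'
      · rw [mem_ptIdeal_pow.1 hm1 n h', mem_ptIdeal_pow.1 hm2 n h']
        ring
      · have hn' : n.degree = t + 1 := by omega
        rw [← hgc1 n hn', ← hgc2 n hn']
        have := congrArg (coeff n) hg
        rw [coeff_add, coeff_C_mul, coeff_C_mul, coeff_zero] at this
        exact this
    · exact Ideal.add_mem _ (Ideal.mul_mem_left _ _ (hp1 i)) (Ideal.mul_mem_left _ _ (hp2 i))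
  obtain ⟨z, hz⟩ : ∃ z : Fin 2 → ℂ, ∀ F, XX F → eval z F = 0 → F = 0 := by
    by_cases hX : ∃ F₁, XX F₁ ∧ F₁ ≠ 0
    · obtain ⟨F₁, hX1, hF1⟩ := hX
      obtain ⟨z, hz⟩ : ∃ z, eval z F₁ ≠ 0 := by
        by_contra hcon
        push Not at hcon
        exact hF1 (MvPolynomial.funext fun x => by rw [hcon x, map_zero])
      refine ⟨z, fun F hF hFz => ?_⟩
      obtain ⟨a, b, hab, hz0⟩ := hdep F₁ F hX1 hF
      have h1 := congrArg (eval z) hz0
      rw [map_add, map_mul, map_mul, eval_C, eval_C, hFz, mul_zero, add_zero, map_zero] at h1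
      have ha : a = 0 := (mul_eq_zero.1 h1).resolve_right hz
      have hb : b ≠ 0 := hab.resolve_left (fun h => h ha)
      rw [ha, C_0, zero_mul, zero_add] at hz0
      rcases mul_eq_zero.1 hz0 with h2 | h2
      · exact absurd (C_eq_zero.1 h2) hb
      · exact h2
    · push Not at hX
      exact ⟨0, fun F hF _ => hX F hF⟩
  -- the limit curve
  let π : Fin (q + (s + 1)) → Fin (s + 2) := Fin.addCases (fun _ => 0) (fun j => j.succ)
  obtain ⟨F, hF0, hFd, hFk⟩ := hP c hcP (s + 2) π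
    (Fin.cons q₀ (Fin.cons z p : Fin (s + 1) → Fin 2 → ℂ) : Fin (s + 2) → Fin 2 → ℂ)
  have hsucc : ∀ j : Fin (s + 1), (Fin.cons 1 μ : Fin (s + 1) → ℕ) j ≤
      mult ((Fin.cons z p : Fin (s + 1) → Fin 2 → ℂ) j) F := by
    intro j
    obtain ⟨μ', g, hg0, hgF, hgd, hgm, -⟩ := hFk j.succ
    have h1 := hgm (Fin.natAdd q j) (by simp [π])
    have h2 : M (Fin.natAdd q j) = (Fin.cons 1 μ : Fin (s + 1) → ℕ) j := by
      simp only [M, Fin.append_right]
    rw [h2] at h1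
    exact (cc1_le_wdeg_of_mem hg0 h1).trans (hgd.trans hgF)
  have hFp : ∀ i, F ∈ ptIdeal (p i) ^ μ i := fun i =>
    (mem_pow_iff_le_mult hF0).2 (hsucc i.succ)
  have hFz : eval z F = 0 := by
    have h1 : F ∈ ptIdeal z ^ 1 := (mem_pow_iff_le_mult hF0).2 (hsucc 0)
    rw [pow_one, mem_ptIdeal_iff] at h1
    exact h1
  obtain ⟨μ', g, hg0, hgF, hgd, hgm, hgc⟩ := hFk 0
  have hgm' : ∀ i, g ∈ ptIdeal (cG i) ^ m := by
    intro i
    have h1 := hgm (Fin.castAdd (s + 1) i) (by simp [π])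
    have h2 : M (Fin.castAdd (s + 1) i) = m := by
      simp only [M, Fin.append_left]
    rw [h2] at h1
    exact h1
  have hgF' : μ' ≤ mult q₀ F := hgF
  have h3 : ¬ wdeg 1 g ≤ t := fun h' => hg0 (hE0 g h' hgm')
  have h4 : ¬ t + 2 ≤ mult q₀ F := fun h' =>
    hF0 (hE2 F hFd ((mem_pow_iff_le_mult hF0).2 h') hFp)
  have h5 : μ' = t + 1 := by omega
  subst h5
  exact hF0 (hz F ⟨hFd, hFp, (mem_pow_iff_le_mult hF0).2 hgF', g, hgd, hgm', hgc⟩ hFz)

end Pool.Agent.SH9
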