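import Pool.Agent.SH9.Defs

set_option autoImplicit false

/-!
# Module Conv: the predicate `E` (multisets, points of the torus) and configurations in `ℂ²`

`E d ms = Good ℂ (tri d) ms (tri d).card`.
-/

namespace Pool.Agent.SH9

open MvPolynomial Pool.Agent.helper5.NBS Pool.Agent.helper89.Segre

lemma supp_tri {d : ℕ} {F : R2} :
    wdeg 1 F ≤ d ↔ F.support ⊆ (tri d).image Pool.Agent.helper73.Nag.e2 := by
  rw [wdeg, Finset.sup_le_iff]
  constructor
  · intro h n hn
    rw [Finset.mem_image]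
    exact ⟨(n 0, n 1), mem_tri.mpr (by have := h n hn; simpa using this),
      Pool.Agent.helper73.Nag.e2_eq n⟩
  · intro h n hn
    obtain ⟨e, he, rfl⟩ := Finset.mem_image.mp (h hn)
    have := mem_tri.mp he
    rw [Pool.Agent.helper73.Nag.e2_zero, Pool.Agent.helper73.Nag.e2_one]
    omega

/-- (from `generic_of_good'`) -/
theorem E.generic {d n : ℕ} {m : Fin n → ℕ} (h : E d (Finset.univ.val.map m)) :
    ∃ Q : PtRing n, Q ≠ 0 ∧ ∀ p : Fin n → Fin 2 → ℂ, evP p Q ≠ 0 → Emp d m p := by
  obtain ⟨Q, h1, h2⟩ := Pool.Agent.helper7.SC.generic_of_good' h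
  exact ⟨Q, h1, fun p hp F hF hm => h2 p hp F (supp_tri.mp hF) hm⟩

/-- the coefficients of an element of the kernel give a polynomial with the multiplicities -/
lemma kr_poly {D : Finset (ℕ × ℕ)} {L : Multiset ((ℂ × ℂ) × ℕ)} {c : ℕ × ℕ → ℂ}
    (hc : c ∈ Kr D L) {x : (ℂ × ℂ) × ℕ} (hx : x ∈ L) (h0 : x.1.1 ≠ 0 ∧ x.1.2 ≠ 0) :
    (∑ e ∈ D, monomial (Pool.Agent.helper73.Nag.e2 e) (c e) : R2) ∈
      ptIdeal (![x.1.1, x.1.2] : Fin 2 → ℂ) ^ x.2 := by
  classical
  rw [mem_Kr_iff] at hc
  have hs : (∑ e ∈ D, monomial (Pool.Agent.helper73.Nag.e2 e) (c e) : R2).support ⊆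
      D.image Pool.Agent.helper73.Nag.e2 := by
    refine (support_sum).trans ?_
    intro n hn
    obtain ⟨e, he, hn⟩ := Finset.mem_biUnion.mp hn
    rw [Finset.mem_image]
    refine ⟨e, he, ?_⟩
    have := support_monomial_subset hn
    rw [Finset.mem_singleton] at this
    exact this.symm
  have hco : ∀ e ∈ D, coeff (Pool.Agent.helper73.Nag.e2 e)
      (∑ e ∈ D, monomial (Pool.Agent.helper73.Nag.e2 e) (c e) : R2) = c e := by
    intro e he
    rw [coeff_sum, Finset.sum_eq_single e]
    · rw [coeff_monomial, if_pos rfl]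
    · intro b _ hb
      rw [coeff_monomial, if_neg]
      intro h
      exact hb (Pool.Agent.helper7.SC.e2_inj h)
    · intro h; exact absurd he h
  rw [mem_ptIdeal_pow]
  intro n hn
  have h1 := hc.2 x hx (n 0, n 1) (by
    rw [mem_idx]
    rw [degree_eq] at hn
    exact hn)
  rw [← Pool.Agent.helper73.Nag.e2_eq n, Pool.Agent.helper7.SC.coeff_trans_sum hs]
  simp only [Matrix.cons_val_zero, Matrix.cons_val_one]
  have h2 : ∑ e ∈ D, c e * (pw x.1 e * ((e.1.choose (n 0) : ℕ) : ℂ) * ((e.2.choose (n 1) : ℕ) : ℂ)) =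
      (x.1.1 ^ n 0 * x.1.2 ^ n 1) * ∑ e ∈ D, coeff (Pool.Agent.helper73.Nag.e2 e)
        (∑ e ∈ D, monomial (Pool.Agent.helper73.Nag.e2 e) (c e) : R2) *
        (gg x.1.1 e.1 (n 0) * gg x.1.2 e.2 (n 1)) := by
    rw [Finset.mul_sum]
    apply Finset.sum_congr rfl
    intro e he
    rw [hco e he, Pool.Agent.helper7.SC.pw_choose (s := x.1.1) (t := x.1.2)]
    ring
  simp only at h1
  rw [h2] at h1
  exact (mul_eq_zero.mp h1).resolve_left
    (mul_ne_zero (pow_ne_zero _ h0.1) (pow_ne_zero _ h0.2))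

/-- If one configuration of `ℂ²` has no curve then `E` holds. -/
theorem E_of_emp {d n : ℕ} {m : Fin n → ℕ} {p : Fin n → Fin 2 → ℂ} (h : Emp d m p) :
    E d (Finset.univ.val.map m) := by
  classical
  have hex : ∀ D' ∈ ((tri d).image Pool.Agent.helper73.Nag.e2).powerset, ∃ Φ : PtRing n, Φ ≠ 0 ∧
      ∀ p : Fin n → Fin 2 → ℂ, evP p Φ ≠ 0 →
      ∀ F : R2, F.support = D' → (∀ i, F ∈ ptIdeal (p i) ^ m i) → F = 0 := by
    intro D' hD'
    exact exists_minor D' m p
      (fun F hF hm => h F (supp_tri.mpr (hF.trans (Finset.mem_powerset.mp hD'))) hm)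
  choose! Φ hΦ0 hΦ using hex
  set Q : PtRing n := ∏ D' ∈ ((tri d).image Pool.Agent.helper73.Nag.e2).powerset, Φ D' with hQdef
  have hQ : Q ≠ 0 := Finset.prod_ne_zero_iff.mpr hΦ0
  have hQX : Q * ∏ ij : Fin n × Fin 2, X ij ≠ 0 :=
    mul_ne_zero hQ (Finset.prod_ne_zero_iff.mpr fun ij _ => X_ne_zero _)
  obtain ⟨x, hx⟩ : ∃ x : Fin n × Fin 2 → ℂ, eval x (Q * ∏ ij : Fin n × Fin 2, X ij) ≠ 0 := by
    by_contra hcon
    push Not at hcon
    exact hQX (MvPolynomial.funext fun x => by rw [hcon x, map_zero])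
  rw [map_mul] at hx
  have hx1 : eval x Q ≠ 0 := left_ne_zero_of_mul hx
  have hx3 := right_ne_zero_of_mul hx
  rw [map_prod] at hx3
  have hx2 : ∀ ij, x ij ≠ 0 := by
    intro ij
    have := Finset.prod_ne_zero_iff.mp hx3 ij (Finset.mem_univ _)
    rwa [eval_X] at this
  set q : Fin n → Fin 2 → ℂ := fun i j => x (i, j) with hq
  have hqQ : evP q Q ≠ 0 := hx1
  refine ⟨Finset.univ.val.map fun i => ((q i 0, q i 1), m i), ?_, ?_, ?_⟩
  · rw [Multiset.map_map]; rfl
  · intro y hy
    obtain ⟨i, _, rfl⟩ := Multiset.mem_map.mp hy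
    exact ⟨hx2 _, hx2 _⟩
  · apply hasRank_of_kr
    rw [Submodule.eq_bot_iff]
    intro c hc
    have hF : (∑ e ∈ tri d, monomial (Pool.Agent.helper73.Nag.e2 e) (c e) : R2) = 0 := by
      set F : R2 := ∑ e ∈ tri d, monomial (Pool.Agent.helper73.Nag.e2 e) (c e) with hFdef
      have hs : F.support ⊆ (tri d).image Pool.Agent.helper73.Nag.e2 := by
        refine (support_sum).trans ?_
        intro k hk
        obtain ⟨e, he, hk⟩ := Finset.mem_biUnion.mp hk
        rw [Finset.mem_image]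
        refine ⟨e, he, ?_⟩
        have := support_monomial_subset hk
        rw [Finset.mem_singleton] at this
        exact this.symm
      rw [hQdef, map_prod, Finset.prod_ne_zero_iff] at hqQ
      refine hΦ F.support (Finset.mem_powerset.mpr hs) q
        (hqQ _ (Finset.mem_powerset.mpr hs)) F rfl (fun i => ?_)
      have := kr_poly hc (x := ((q i 0, q i 1), m i))
        (Multiset.mem_map.mpr ⟨i, Finset.mem_univ i, rfl⟩) ⟨hx2 _, hx2 _⟩
      have hqi : q i = ![((q i 0, q i 1), m i).1.1, ((q i 0, q i 1), m i).1.2] := by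
        funext j
        fin_cases j <;> rfl
      rw [hqi]
      exact this
    funext e
    by_cases he : e ∈ tri d
    · have h1 := congrArg (coeff (Pool.Agent.helper73.Nag.e2 e)) hF
      rw [coeff_sum, Finset.sum_eq_single e, coeff_monomial, if_pos rfl, coeff_zero] at h1
      · exact h1
      · intro b _ hb
        rw [coeff_monomial, if_neg]
        intro h
        exact hb (Pool.Agent.helper7.SC.e2_inj h)
      · intro h; exact absurd he h
    · exact (mem_Kr_iff.mp hc).1 e he

/-- more conditions -/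
theorem E.add {d : ℕ} {ms : Multiset ℕ} (h : E d ms) (ms' : Multiset ℕ) : E d (ms + ms') := by
  unfold E at h ⊢
  rw [add_comm]
  exact h.add ms'

theorem E.add' {d : ℕ} {ms : Multiset ℕ} (h : E d ms) (ms' : Multiset ℕ) : E d (ms' + ms) := by
  unfold E at h ⊢
  exact h.add ms'

/-- larger multiplicity (`Good.raise`) -/
theorem E.raise {d m m' : ℕ} {ms : Multiset ℕ} (h : E d (m' ::ₘ ms)) (hm : m' ≤ m) :
    E d (m ::ₘ ms) := Good.raise h hm

/-- smaller degree (`Good.of_subset`) -/
theorem E.mono {d d' : ℕ} {ms : Multiset ℕ} (h : E d ms) (hd : d' ≤ d) : E d' ms := by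
  refine Good.of_subset h ?_
  intro e he
  rw [mem_tri] at he ⊢
  omega

lemma goodDropSub {D : Finset (ℕ × ℕ)} {ms : Multiset ℕ} : ∀ (k : ℕ) {r : ℕ},
    Good ℂ D (ms + Multiset.replicate k 1) r → Good ℂ D ms (r - k) := by
  intro k
  induction k with
  | zero => intro r h; simpa using h
  | succ k ih =>
    intro r h
    rw [Multiset.replicate_succ, Multiset.add_cons] at h
    have := ih h.drop_one
    rwa [Nat.sub_sub, Nat.add_comm 1 k] at this

/-- one simple point drops the rank by at most one (`HasRank.drop_one`), so `v` simple points by at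
most `v` -/
theorem good_of_E_ones {d v : ℕ} {ms : Multiset ℕ} (h : E d (ms + Multiset.replicate v 1)) :
    Good ℂ (tri d) ms ((tri d).card - v) := goodDropSub v h

/-- a nonzero polynomial is nonzero at some point of the torus -/
lemma exists_torus_ne {D : Finset (ℕ × ℕ)} {c : ℕ × ℕ → ℂ} (hc : ∀ e ∉ D, c e = 0) (h0 : c ≠ 0) :
    ∃ p : ℂ × ℂ, p.1 ≠ 0 ∧ p.2 ≠ 0 ∧ ∑ e ∈ D, c e * pw p e ≠ 0 := by
  classical
  obtain ⟨e0, he0⟩ : ∃ e, c e ≠ 0 := by
    by_contra hcon
    push Not at hcon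
    exact h0 (funext hcon)
  have he0D : e0 ∈ D := by
    by_contra hcon
    exact he0 (hc e0 hcon)
  set F : R2 := ∑ e ∈ D, monomial (Pool.Agent.helper73.Nag.e2 e) (c e) with hF
  have hF0 : F ≠ 0 := by
    intro h
    have h1 := congrArg (coeff (Pool.Agent.helper73.Nag.e2 e0)) h
    rw [hF, coeff_sum, Finset.sum_eq_single e0] at h1
    · rw [coeff_monomial, if_pos rfl, coeff_zero] at h1
      exact he0 h1
    · intro e _ hne
      rw [coeff_monomial, if_neg]
      intro h2
      exact hne (Pool.Agent.helper7.SC.e2_inj h2)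
    · intro h2; exact absurd he0D h2
  have hG0 : F * (X 0 * X 1) ≠ 0 := mul_ne_zero hF0 (mul_ne_zero (X_ne_zero _) (X_ne_zero _))
  obtain ⟨x, hx⟩ : ∃ x : Fin 2 → ℂ, eval x (F * (X 0 * X 1)) ≠ 0 := by
    by_contra hcon
    push Not at hcon
    exact hG0 (MvPolynomial.funext fun x => by rw [hcon x, map_zero])
  rw [map_mul, map_mul, eval_X, eval_X] at hx
  have h1 : x 0 ≠ 0 := fun h => hx (by rw [h]; ring)
  have h2 : x 1 ≠ 0 := fun h => hx (by rw [h]; ring)
  have h3 : eval x F ≠ 0 := fun h => hx (by rw [h]; ring)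
  refine ⟨(x 0, x 1), h1, h2, ?_⟩
  rw [hF, map_sum] at h3
  convert h3 using 1
  apply Finset.sum_congr rfl
  intro e _
  rw [eval_monomial, Finsupp.prod_fintype _ _ (fun i => by simp), Fin.prod_univ_two,
    Pool.Agent.helper73.Nag.e2_zero, Pool.Agent.helper73.Nag.e2_one]
  rfl

lemma exists_ones (D : Finset (ℕ × ℕ)) : ∀ (v : ℕ) (L : Multiset ((ℂ × ℂ) × ℕ)),
    Module.finrank ℂ (Kr D L) ≤ v →
    ∃ P : Multiset ((ℂ × ℂ) × ℕ), P.map Prod.snd = Multiset.replicate v 1 ∧
      (∀ x ∈ P, x.1.1 ≠ 0 ∧ x.1.2 ≠ 0) ∧ Kr D (L + P) = ⊥ := by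
  classical
  intro v
  induction v with
  | zero =>
    intro L h
    exact ⟨0, by simp, by simp, by simpa using h⟩
  | succ v ih =>
    intro L h
    by_cases h0 : Kr D L = ⊥
    · have h1 : Kr D (((1, 1), 1) ::ₘ L) ≤ Kr D L := by
        intro c hc
        rw [mem_Kr_iff] at hc ⊢
        exact ⟨hc.1, fun z hz ij hij => hc.2 z (Multiset.mem_cons_of_mem hz) ij hij⟩
      have h2 : Kr D (((1, 1), 1) ::ₘ L) = ⊥ := by
        rw [eq_bot_iff, ← h0]; exact h1
      obtain ⟨P, h3, h4, h5⟩ := ih (((1, 1), 1) ::ₘ L) (by rw [h2, finrank_bot]; omega)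
      refine ⟨((1, 1), 1) ::ₘ P, by rw [Multiset.map_cons, h3, Multiset.replicate_succ], ?_, ?_⟩
      · intro x hx
        rcases Multiset.mem_cons.mp hx with rfl | hx
        · simp
        · exact h4 x hx
      · rw [Multiset.add_cons, ← Multiset.cons_add]; exact h5
    · obtain ⟨c, hc, hc0⟩ := (Submodule.ne_bot_iff _).mp h0
      obtain ⟨p, hp1, hp2, hp3⟩ := exists_torus_ne hc.1 hc0
      have hlt : Kr D ((p, 1) ::ₘ L) < Kr D L := by
        refine lt_of_le_of_ne ?_ ?_
        · intro c hc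
          rw [mem_Kr_iff] at hc ⊢
          exact ⟨hc.1, fun z hz ij hij => hc.2 z (Multiset.mem_cons_of_mem hz) ij hij⟩
        · intro heq
          rw [← heq] at hc
          have h6 := (mem_Kr_iff.mp hc).2 (p, 1) (Multiset.mem_cons_self _ _) (0, 0)
            (by rw [mem_idx]; norm_num)
          apply hp3
          rw [← h6]
          apply Finset.sum_congr rfl
          intro e _
          simp
      have h1 := Submodule.finrank_lt_finrank_of_lt hlt
      obtain ⟨P, h3, h4, h5⟩ := ih ((p, 1) ::ₘ L) (by omega)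
      refine ⟨(p, 1) ::ₘ P, by rw [Multiset.map_cons, h3, Multiset.replicate_succ], ?_, ?_⟩
      · intro x hx
        rcases Multiset.mem_cons.mp hx with rfl | hx
        · exact ⟨hp1, hp2⟩
        · exact h4 x hx
      · rw [Multiset.add_cons, ← Multiset.cons_add]; exact h5

/-- a general simple point imposes a new condition as long as the kernel is not zero -/
theorem E_ones_of_good {d v r : ℕ} {ms : Multiset ℕ} (h : Good ℂ (tri d) ms r)
    (hv : (tri d).card ≤ r + v) : E d (ms + Multiset.replicate v 1) := by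
  obtain ⟨L, h1, h2, h3⟩ := h
  have h4 := h3.finrank_le
  obtain ⟨P, h5, h6, h7⟩ := exists_ones (tri d) v L (by omega)
  refine ⟨L + P, by rw [Multiset.map_add, h1, h5], ?_, hasRank_of_kr h7⟩
  intro x hx
  rcases Multiset.mem_add.mp hx with hx | hx
  · exact h2 x hx
  · exact h6 x hx


namespace FRaux

lemma map_append {a b : ℕ} (f : Fin a → ℕ) (g : Fin b → ℕ) :
    (Finset.univ : Finset (Fin (a + b))).val.map (Fin.append f g) =
      (Finset.univ : Finset (Fin a)).val.map f + (Finset.univ : Finset (Fin b)).val.map g := by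
  rw [Fin.univ_val_map, Fin.univ_val_map, Fin.univ_val_map, List.ofFn_fin_append,
    Multiset.coe_add]

lemma map_const' (a x : ℕ) :
    (Finset.univ : Finset (Fin a)).val.map (fun _ => x) = Multiset.replicate a x := by
  rw [Multiset.map_const']
  simp

/-- evaluation at a point -/
noncomputable def ev (p : Fin 2 → ℂ) : R2 →ₗ[ℂ] ℂ := (aeval p).toLinearMap

lemma ev_apply (p : Fin 2 → ℂ) (F : R2) : ev p F = eval p F := rfl

lemma eval_eq (p : Fin 2 → ℂ) (F : R2) :
    eval p F = constantCoeff (aeval (fun j : Fin 2 => (X j + C (p j) : R2)) F) := by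
  induction F using MvPolynomial.induction_on with
  | C a => simp
  | add f g hf hg => rw [map_add, map_add, map_add, hf, hg]
  | mul_X f i hf => rw [map_mul, map_mul, map_mul, hf]; simp

lemma ev_of_mem {p : Fin 2 → ℂ} {F : R2} (h : F ∈ ptIdeal p ^ 1) : eval p F = 0 := by
  have h1 := mem_ptIdeal_pow.mp h 0 (by simp)
  have h2 : trans p F = aeval (fun j : Fin 2 => (X j + C (p j) : R2)) F := rfl
  rw [h2, ← constantCoeff_eq] at h1
  rw [eval_eq, h1]

/-- a space of polynomials of dimension at most `v` is killed by `v` points -/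
lemma exists_kill : ∀ (v : ℕ) (S : Submodule ℂ R2), Module.Finite ℂ S → Module.finrank ℂ S ≤ v →
    ∃ z : Fin v → Fin 2 → ℂ, ∀ F ∈ S, (∀ j, eval (z j) F = 0) → F = 0 := by
  intro v
  induction v with
  | zero =>
    intro S hf hr
    refine ⟨fun j => j.elim0, ?_⟩
    intro F hF _
    have h1 : S = ⊥ := by
      have := hf
      exact Submodule.finrank_eq_zero.mp (Nat.le_zero.mp hr)
    rw [h1] at hF
    simpa using hF
  | succ v ih =>
    intro S hf hr
    by_cases hS : ∀ F ∈ S, F = 0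
    · exact ⟨fun _ _ => 0, fun F hF _ => hS F hF⟩
    · push Not at hS
      obtain ⟨F0, hF0, hne⟩ := hS
      obtain ⟨z0, hz0⟩ : ∃ z0 : Fin 2 → ℂ, eval z0 F0 ≠ 0 := by
        by_contra hcon
        push Not at hcon
        exact hne (MvPolynomial.funext (fun x => by rw [hcon x, map_zero]))
      have hlt : S ⊓ LinearMap.ker (ev z0) < S := by
        refine lt_of_le_of_ne inf_le_left ?_
        intro h
        rw [← h] at hF0
        exact hz0 (LinearMap.mem_ker.mp hF0.2)
      have h1 := Submodule.finrank_lt_finrank_of_lt hlt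
      obtain ⟨z, hz⟩ := ih (S ⊓ LinearMap.ker (ev z0))
        (Submodule.finiteDimensional_of_le inf_le_left) (by omega)
      refine ⟨Fin.cons z0 z, ?_⟩
      intro F hF hj
      apply hz F
      · refine ⟨hF, LinearMap.mem_ker.mpr ?_⟩
        have := hj 0
        rwa [Fin.cons_zero] at this
      · intro j
        have := hj j.succ
        rwa [Fin.cons_succ] at this

end FRaux

open FRaux in
theorem good_of_finrank {d n r : ℕ} {m : Fin n → ℕ} {p : Fin n → Fin 2 → ℂ} (S : Submodule ℂ R2)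
    (hS : ∀ F : R2, F ∈ S ↔ wdeg 1 F ≤ d ∧ ∀ i, F ∈ ptIdeal (p i) ^ m i)
    (hr : Module.finrank ℂ S + r ≤ (tri d).card) :
    Good ℂ (tri d) (Finset.univ.val.map m) r := by
  classical
  have hfin : Module.Finite ℂ S := by
    let φ : R2 →ₗ[ℂ] (Fin (d + 1) × Fin (d + 1) → ℂ) := LinearMap.pi fun ab =>
      lcoeff ℂ (Finsupp.single 0 (ab.1 : ℕ) + Finsupp.single 1 (ab.2 : ℕ))
    have hinj : Function.Injective (φ ∘ₗ S.subtype) := by
      rw [← LinearMap.ker_eq_bot, LinearMap.ker_eq_bot']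
      intro F hF
      apply Subtype.ext
      change (F : R2) = 0
      ext n
      by_contra hne
      rw [coeff_zero] at hne
      have hn : n ∈ (F : R2).support := mem_support_iff.mpr hne
      have h1 : n 0 + 1 * n 1 ≤ wdeg 1 (F : R2) :=
        Finset.le_sup (f := fun n : Fin 2 →₀ ℕ => n 0 + 1 * n 1) hn
      have h2 := ((hS F).mp F.2).1
      have h3 := congrFun hF (⟨n 0, by omega⟩, ⟨n 1, by omega⟩)
      apply hne
      have h4 : n = Finsupp.single 0 (n 0) + Finsupp.single 1 (n 1) := by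
        ext i
        fin_cases i <;> simp
      rw [h4]
      exact h3
    exact Module.Finite.of_injective _ hinj
  obtain ⟨z, hz⟩ := exists_kill _ S hfin le_rfl
  have hE : Emp d (Fin.append m (fun _ : Fin (Module.finrank ℂ S) => 1)) (Fin.append p z) := by
    intro F hF1 hF2
    apply hz F
    · rw [hS]
      refine ⟨hF1, fun i => ?_⟩
      have := hF2 (Fin.castAdd _ i)
      rwa [Fin.append_left, Fin.append_left] at this
    · intro j
      have := hF2 (Fin.natAdd _ j)
      rw [Fin.append_right, Fin.append_right] at this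
      exact ev_of_mem this
  have h2 := E_of_emp hE
  rw [map_append, map_const'] at h2
  obtain ⟨L, h3, h4, h5⟩ := good_of_E_ones h2
  exact ⟨L, h3, h4, h5.le (by omega)⟩


end Pool.Agent.SH9
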