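import Pool.Agent.helper7.SC.Wempty
import Pool.Agent.helper89.Segre2.Large

set_option autoImplicit false

/-!
# Definitions for the project MP_cfebfb_ag (homogeneous SHGH near the critical degree)
-/

namespace Pool.Agent.SH9

open MvPolynomial Pool.Agent.helper5.NBS Pool.Agent.helper89.Segre

/-- no nonzero polynomial of degree at most `d` has multiplicity at least `m i` at `p i` -/
def Emp (d : ℕ) {n : ℕ} (m : Fin n → ℕ) (p : Fin n → Fin 2 → ℂ) : Prop :=
  ∀ F : R2, wdeg 1 F ≤ d → (∀ i, F ∈ ptIdeal (p i) ^ m i) → F = 0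

/-- the linear system of degree `d` with multiplicities `ms` at general points is empty -/
def E (d : ℕ) (ms : Multiset ℕ) : Prop := Good ℂ (tri d) ms (tri d).card

/-- the ideal of the fat points `t i` at `p i` -/
noncomputable def Jt {n : ℕ} (p : Fin n → Fin 2 → ℂ) (t : Fin n → ℕ) : Ideal R2 :=
  ⨅ i, ptIdeal (p i) ^ t i

/-- the polynomial `∏ (X - x i) ^ k i` -/
noncomputable def Dx {n : ℕ} (x : Fin n → ℂ) (k : Fin n → ℕ) : R2 := ∏ i, (X 0 - C (x i)) ^ k i

end Pool.Agent.SH9
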