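import Mathlib

set_option autoImplicit false

/-!
# Module Dig: digits in base 9

Choose `j` with `9^j H ≤ h < 9^(j+1) H`, `a = h / 9^j`, `r = h % 9^j`; `L` = base 9 digits of `r`
(level `i < j` repeated digit `i` times, ascending) followed by `a` times `j`.
-/

namespace Pool.Agent.SH9

/-- splitting a list of levels `< j` followed by `a` times `j` at an element -/
private lemma split_app {j a : ℕ} {L done todo : List ℕ} {x : ℕ}
    (h : L ++ List.replicate a j = done ++ x :: todo) :
    x = j ∨ ∃ todo', L = done ++ x :: todo' := by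
  rcases List.append_eq_append_iff.1 h with ⟨l, h1, h2⟩ | ⟨l, h1, h2⟩
  · left
    have : x ∈ List.replicate a j := by rw [h2]; simp
    exact List.eq_of_mem_replicate this
  · rcases l with _ | ⟨y, l⟩
    · left
      rw [List.nil_append] at h2
      have : x ∈ List.replicate a j := by rw [← h2]; simp
      exact List.eq_of_mem_replicate this
    · right
      rw [List.cons_append] at h2
      obtain ⟨rfl, -⟩ := List.cons.inj h2
      exact ⟨l, h1⟩

/-- `n < 9 ^ j` as an ascending list of levels `< j`, at most eight of each -/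
theorem low_digits (j n : ℕ) (hn : n < 9 ^ j) : ∃ L : List ℕ, (L.map (9 ^ ·)).sum = n ∧
    (∀ i ∈ L, i < j) ∧ L.length ≤ 8 * j ∧ (L.map (3 ^ ·)).sum ≤ 4 * 3 ^ j ∧
    ∀ (done todo : List ℕ) (x : ℕ), L = done ++ x :: todo →
      (done.map (9 ^ ·)).sum + 9 ^ x ≤ 9 ^ (x + 1) := by
  induction j generalizing n with
  | zero =>
    refine ⟨[], ?_, by simp, by simp, by simp, ?_⟩
    · rw [pow_zero] at hn
      have : n = 0 := by omega
      simp [this]
    · intro done todo x h
      simp at h
  | succ j ih =>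
    have hr : n % 9 ^ j < 9 ^ j := Nat.mod_lt _ (by positivity)
    obtain ⟨L, h1, h2, h3, h4, h5⟩ := ih (n % 9 ^ j) hr
    have ha : n / 9 ^ j < 9 := by
      rw [pow_succ] at hn
      exact Nat.div_lt_of_lt_mul hn
    have hs : ((L ++ List.replicate (n / 9 ^ j) j).map (9 ^ ·)).sum = n := by
      rw [List.map_append, List.sum_append, h1, List.map_replicate, List.sum_replicate,
        smul_eq_mul]
      have := Nat.div_add_mod n (9 ^ j)
      rw [mul_comm] at this
      omega
    refine ⟨L ++ List.replicate (n / 9 ^ j) j, hs, ?_, ?_, ?_, ?_⟩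
    · intro i hi
      rcases List.mem_append.1 hi with hi | hi
      · have := h2 i hi
        omega
      · rw [List.eq_of_mem_replicate hi]
        omega
    · rw [List.length_append, List.length_replicate]
      omega
    · rw [List.map_append, List.sum_append, List.map_replicate, List.sum_replicate, smul_eq_mul]
      have h6 : n / 9 ^ j * 3 ^ j ≤ 8 * 3 ^ j := Nat.mul_le_mul_right _ (by omega)
      rw [pow_succ]
      omega
    · intro done todo x h
      rcases split_app h with rfl | ⟨todo', h'⟩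
      · have h6 : (done.map (9 ^ ·)).sum + 9 ^ x ≤ n := by
          rw [h, List.map_append, List.sum_append, List.map_cons, List.sum_cons] at hs
          omega
        omega
      · exact h5 done todo' x h'

/-- Cauchy-Schwarz -/
private lemma cs (L : List ℕ) :
    ((L.map (3 ^ ·)).sum) ^ 2 ≤ (L.map (9 ^ ·)).sum * L.length := by
  induction L with
  | nil => simp
  | cons x L ih =>
    rw [List.map_cons, List.sum_cons, List.map_cons, List.sum_cons, List.length_cons]
    have h9 : (9 : ℕ) ^ x = (3 ^ x) ^ 2 := by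
      rw [← pow_mul, mul_comm, pow_mul]
      norm_num
    rw [h9]
    generalize (3 : ℕ) ^ x = b at *
    generalize (L.map (3 ^ ·)).sum = S at *
    generalize (L.map (9 ^ ·)).sum = Q at *
    generalize L.length = k at *
    have h1 : 2 * b * S ≤ b ^ 2 * k + Q := by
      have h2 : (2 * b * S) ^ 2 ≤ (b ^ 2 * k + Q) ^ 2 := by
        have h3 : 4 * (b ^ 2 * k) * Q ≤ (b ^ 2 * k + Q) ^ 2 := by
          zify
          nlinarith [sq_nonneg ((b : ℤ) ^ 2 * k - Q)]
        calc (2 * b * S) ^ 2 = 4 * b ^ 2 * S ^ 2 := by ring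
          _ ≤ 4 * b ^ 2 * (Q * k) := Nat.mul_le_mul_left _ ih
          _ = 4 * (b ^ 2 * k) * Q := by ring
          _ ≤ _ := h3
      exact (Nat.pow_le_pow_iff_left (by norm_num)).1 h2
    nlinarith

theorem digits (H h : ℕ) (hH : 0 < H) (hHh : H ≤ h) : ∃ (j a : ℕ) (L : List ℕ),
    (L.map (9 ^ ·)).sum = h ∧ (∀ i ∈ L, i ≤ j) ∧ L.count j = a ∧ H ≤ a ∧ a < 9 * H ∧
    9 ^ j * H ≤ h ∧ h < 9 ^ (j + 1) * H ∧ h < (a + 1) * 9 ^ j ∧
    L.length ≤ a + 8 * j ∧ (L.map (3 ^ ·)).sum ≤ (a + 4) * 3 ^ j ∧
    ((L.map (3 ^ ·)).sum) ^ 2 ≤ h * L.length ∧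
    ∀ (done todo : List ℕ) (x : ℕ), L = done ++ x :: todo → x < j →
      (done.map (9 ^ ·)).sum + 9 ^ x ≤ 9 ^ (x + 1) := by
  have hq : h / H ≠ 0 := by
    have := Nat.div_pos hHh hH
    omega
  set j := Nat.log 9 (h / H) with hj
  have hj1 : 9 ^ j * H ≤ h := by
    have := Nat.pow_log_le_self 9 hq
    exact (Nat.le_div_iff_mul_le hH).1 this
  have hj2 : h < 9 ^ (j + 1) * H := by
    have := Nat.lt_pow_succ_log_self (b := 9) (by norm_num) (h / H)
    exact (Nat.div_lt_iff_lt_mul hH).1 this
  have h9 : 0 < 9 ^ j := by positivity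
  have ha1 : H ≤ h / 9 ^ j := by
    rw [Nat.le_div_iff_mul_le h9, mul_comm]
    exact hj1
  have ha2 : h / 9 ^ j < 9 * H := by
    rw [Nat.div_lt_iff_lt_mul h9]
    calc h < 9 ^ (j + 1) * H := hj2
      _ = 9 * H * 9 ^ j := by ring
  have hdm := Nat.div_add_mod h (9 ^ j)
  have hr : h % 9 ^ j < 9 ^ j := Nat.mod_lt _ h9
  obtain ⟨L, h1, h2, h3, h4, h5⟩ := low_digits j (h % 9 ^ j) hr
  have hs : ((L ++ List.replicate (h / 9 ^ j) j).map (9 ^ ·)).sum = h := by
    rw [List.map_append, List.sum_append, h1, List.map_replicate, List.sum_replicate,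
      smul_eq_mul]
    rw [mul_comm] at hdm
    omega
  refine ⟨j, h / 9 ^ j, L ++ List.replicate (h / 9 ^ j) j, hs, ?_, ?_, ha1, ha2, hj1, hj2, ?_, ?_,
    ?_, ?_, ?_⟩
  · intro i hi
    rcases List.mem_append.1 hi with hi | hi
    · exact (h2 i hi).le
    · rw [List.eq_of_mem_replicate hi]
  · rw [List.count_append, List.count_replicate_self, List.count_eq_zero.2, zero_add]
    intro hmem
    exact lt_irrefl _ (h2 j hmem)
  · calc h = 9 ^ j * (h / 9 ^ j) + h % 9 ^ j := hdm.symm
      _ < 9 ^ j * (h / 9 ^ j) + 9 ^ j := by omega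
      _ = (h / 9 ^ j + 1) * 9 ^ j := by ring
  · rw [List.length_append, List.length_replicate]
    omega
  · rw [List.map_append, List.sum_append, List.map_replicate, List.sum_replicate, smul_eq_mul]
    have : (h / 9 ^ j + 4) * 3 ^ j = h / 9 ^ j * 3 ^ j + 4 * 3 ^ j := by ring
    omega
  · have := cs (L ++ List.replicate (h / 9 ^ j) j)
    rwa [hs] at this
  · intro done todo x h' hx
    rcases split_app h' with rfl | ⟨todo', h''⟩
    · exact absurd hx (lt_irrefl _)
    · exact h5 done todo' x h''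

end Pool.Agent.SH9
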