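import Mathlib

set_option autoImplicit false

/-!
# Module NumE: the numerical inequality of the empty half

Notation: `v = C(d+2,2) - h C(m+1,2)`, `8 v = (2d+3)² - h (2m+1)² + (h - 1)`.
`a` points of the top level `j` (weight `3^j`), `s` points in all, `S = ∑ 3^i`, `S² ≤ h s` (Cauchy).
With `q = √h`, `r = √H`, `e = exp (-3H/40)`: `s ≤ 11 H`, so `S + 2·3^j ≤ q (10 r / 3 + 1 / 6)`; it
suffices `(2 + e) d + 10 r / 3 + 1 / 6 < q (2m+1)`. For `d ≥ 4 r` this follows from `hv`, for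
`d < 4 r` from `h H < 4 m²`.
-/

namespace Pool.Agent.SH9

open Real

private lemma j_le {H h j : ℕ} (hH : 192 ≤ H) (hexp : (h : ℝ) ≤ exp (H / 2))
    (hj : 9 ^ j * H ≤ h) : 4 * j ≤ H := by
  have h1 : exp (2 * (j : ℝ)) ≤ 9 ^ j := by
    rw [mul_comm, exp_nat_mul]
    have : exp 2 ≤ 9 := by
      have h2 := exp_one_lt_d9
      have h3 : exp 2 = exp 1 * exp 1 := by rw [← exp_add]; norm_num
      rw [h3]
      nlinarith [exp_pos 1]
    exact pow_le_pow_left₀ (exp_pos _).le this j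
  have h2 : (9 : ℝ) ^ j ≤ h := by
    have h3 : 9 ^ j ≤ h := by
      refine le_trans ?_ hj
      exact Nat.le_mul_of_pos_right _ (by omega)
    exact_mod_cast h3
  have h3 : exp (2 * (j : ℝ)) ≤ exp (H / 2) := h1.trans (h2.trans hexp)
  rw [exp_le_exp] at h3
  have h4 : (4 * j : ℝ) ≤ H := by linarith
  exact_mod_cast h4

theorem numE {H h m d j a s S : ℕ} {z : ℝ} (hH : 192 ≤ H) (hHh : H ≤ h)
    (hexp : (h : ℝ) ≤ exp (H / 2)) (hm : h * H < 4 * m ^ 2) (haH : H ≤ a) (haH' : a < 9 * H)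
    (hj : 9 ^ j * H ≤ h) (hs : s ≤ a + 8 * j) (hS : S ^ 2 ≤ h * s) (hz : exp (3 * a / 40) ≤ z)
    (hv : (((d + 2).choose 2 : ℕ) : ℝ) + (d + 2) * (2 * √H + exp (-(3 * H / 40)) * (d + 2)) ≤
      h * ((m + 1).choose 2 : ℕ)) :
    S + 2 * 3 ^ j ≤ h * (2 * m + 1) ∧
      (z + 1) * (4 * h * (d : ℝ) ^ 2) <
        z * ((h : ℝ) * (2 * m + 1) - S - 2 * 3 ^ j) ^ 2 := by
  have hj4 := j_le hH hexp hj
  have hs11 : s ≤ 11 * H := by omega
  -- real variables
  obtain ⟨r, hr0, hr⟩ : ∃ r : ℝ, 0 ≤ r ∧ r ^ 2 = H := ⟨√H, sqrt_nonneg _, sq_sqrt (Nat.cast_nonneg _)⟩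
  obtain ⟨q, hq0, hq⟩ : ∃ q : ℝ, 0 ≤ q ∧ q ^ 2 = h := ⟨√h, sqrt_nonneg _, sq_sqrt (Nat.cast_nonneg _)⟩
  have hrs : √(H : ℝ) = r := by rw [← hr, sqrt_sq hr0]
  rw [hrs] at hv
  have hHr : (192 : ℝ) ≤ H := by exact_mod_cast hH
  have hHhr : (H : ℝ) ≤ h := by exact_mod_cast hHh
  have hr12 : (12 : ℝ) ≤ r := by nlinarith
  have hqr : r ≤ q := by
    rw [← pow_le_pow_iff_left₀ hr0 hq0 two_ne_zero, hr, hq]
    exact hHhr
  have hq12 : (12 : ℝ) ≤ q := hr12.trans hqr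
  have hSr : (S : ℝ) ≤ 10 / 3 * r * q := by
    rw [← pow_le_pow_iff_left₀ (Nat.cast_nonneg _) (by positivity) two_ne_zero]
    have h1 : (S : ℝ) ^ 2 ≤ h * s := by exact_mod_cast hS
    have h2 : (s : ℝ) ≤ 11 * H := by exact_mod_cast hs11
    calc (S : ℝ) ^ 2 ≤ h * s := h1
      _ ≤ h * (11 * H) := by gcongr
      _ ≤ (10 / 3 * r * q) ^ 2 := by
        rw [← hr, ← hq]
        nlinarith [mul_nonneg (sq_nonneg q) (sq_nonneg r)]
  have h3j : (3 : ℝ) ^ j * r ≤ q := by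
    rw [← pow_le_pow_iff_left₀ (by positivity) hq0 two_ne_zero]
    have h1 : (9 : ℝ) ^ j * H ≤ h := by exact_mod_cast hj
    rw [hq, mul_pow, hr, ← pow_mul, mul_comm j 2, pow_mul]
    norm_num
    exact h1
  have h3j' : 2 * (3 : ℝ) ^ j ≤ 1 / 6 * q := by
    have h1 : (3 : ℝ) ^ j * 12 ≤ 3 ^ j * r := by gcongr
    linarith
  have hm' : (h : ℝ) * H < 4 * (m : ℝ) ^ 2 := by exact_mod_cast hm
  have hM : q * r < 2 * m := by
    apply lt_of_pow_lt_pow_left₀ 2 (by positivity)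
    rw [mul_pow, mul_pow, hq, hr]
    linarith
  obtain ⟨M, hM'⟩ : ∃ M : ℝ, M = 2 * m + 1 := ⟨_, rfl⟩
  have hMq : q * r < M := by linarith
  have hM0 : 0 ≤ M := by rw [hM']; positivity
  constructor
  · have h1 : (S : ℝ) + 2 * 3 ^ j ≤ h * (2 * m + 1) := by
      rw [← hM', ← hq]
      have h2 : (10 / 3 * r + 1 / 6) * q ≤ q * r * q ^ 2 := by
        have h3 : 10 / 3 * r + 1 / 6 ≤ r * q * q := by nlinarith [mul_nonneg hr0 hq0]
        nlinarith
      nlinarith [mul_lt_mul_of_pos_left hMq (show (0 : ℝ) < q ^ 2 by positivity)]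
    exact_mod_cast h1
  · obtain ⟨e, he⟩ : ∃ e : ℝ, e = exp (-(3 * H / 40)) := ⟨_, rfl⟩
    rw [← he] at hv
    have he0 : 0 < e := by rw [he]; exact exp_pos _
    have he1 : e ≤ 1 / 1000 := by
      have h1 : exp (-(3 * (H : ℝ) / 40)) ≤ exp (-14) := by
        rw [exp_le_exp]; linarith
      have h2 : exp (-14 : ℝ) ≤ 1 / 1000 := by
        rw [exp_neg, inv_le_comm₀ (exp_pos _) (by norm_num)]
        have h3 : (2 : ℝ) ≤ exp 1 := by
          have := add_one_le_exp (1 : ℝ)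
          linarith
        have h4 : exp (14 : ℝ) = exp 1 ^ 14 := by
          rw [← exp_nat_mul]; norm_num
        rw [h4]
        calc ((1 : ℝ) / 1000)⁻¹ ≤ 2 ^ 14 := by norm_num
          _ ≤ exp 1 ^ 14 := pow_le_pow_left₀ (by norm_num) h3 14
      rw [he]
      exact h1.trans h2
    have hz0 : 0 < z := (exp_pos _).trans_le hz
    have hze : 1 ≤ z * e := by
      have h1 : exp (3 * (H : ℝ) / 40) ≤ z := by
        refine le_trans ?_ hz
        rw [exp_le_exp]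
        have : (H : ℝ) ≤ a := by exact_mod_cast haH
        linarith
      calc (1 : ℝ) = exp (3 * (H : ℝ) / 40) * e := by rw [he, ← exp_add]; simp
        _ ≤ z * e := by gcongr
    -- the main inequality
    have hd0 : (0 : ℝ) ≤ d := Nat.cast_nonneg _
    have hc1 : (((d + 2).choose 2 : ℕ) : ℝ) = (d + 2) * (d + 1) / 2 := by
      rw [Nat.cast_choose_two]
      push_cast
      ring
    have hc2 : (((m + 1).choose 2 : ℕ) : ℝ) = (m + 1) * m / 2 := by
      rw [Nat.cast_choose_two]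
      push_cast
      ring
    rw [hc1, hc2] at hv
    have hv' : (2 * (d : ℝ) + 3) ^ 2 - 1 + h + 8 * (d + 2) * (2 * r + e * (d + 2)) ≤
        (q * M) ^ 2 := by
      rw [mul_pow, hq, hM']
      nlinarith
    have hkey : (2 + e) * d + (10 / 3 * r + 1 / 6) < q * M := by
      apply lt_of_pow_lt_pow_left₀ 2 (by positivity)
      by_cases hd : 4 * r ≤ d
      · refine lt_of_lt_of_le ?_ hv'
        have h1 : (e * (d : ℝ) ^ 2) * e ≤ (e * (d : ℝ) ^ 2) * (1 / 1000) := by gcongr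
        have h2 : (2 * e * d) * (10 / 3 * r + 1 / 6) ≤ (2 * (1 / 1000) * d) * (10 / 3 * r + 1 / 6) := by
          gcongr
        have h3 : r * (4 * r) ≤ r * d := by gcongr
        have h4 : 0 ≤ e * (d : ℝ) ^ 2 := by positivity
        have h5 : 0 ≤ e * (d : ℝ) := by positivity
        have h6 : r ^ 2 ≤ h := by rw [hr]; exact hHhr
        clear hv hv' hHr hHhr hqr hq12 hSr h3j h3j' hm' hM hMq hM0 hz hze hS hq hr hexp he hM' hc1 hc2
        linarith
      · push Not at hd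
        have h1 : (2 + e) * d + (10 / 3 * r + 1 / 6) ≤ 12 * r := by
          nlinarith
        have h2 : 12 * r ≤ q * (q * r) := by nlinarith [mul_nonneg hr0 hq0]
        have h3 : q * (q * r) < q * M := by
          apply mul_lt_mul_of_pos_left hMq
          linarith
        have h4 : (2 + e) * d + (10 / 3 * r + 1 / 6) < q * M := by linarith
        exact pow_lt_pow_left₀ h4 (by positivity) two_ne_zero
    -- conclusion
    have hlow : q * ((2 + e) * d) < (h : ℝ) * (2 * m + 1) - S - 2 * 3 ^ j := by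
      rw [← hM', ← hq]
      have h1 := mul_lt_mul_of_pos_left hkey (show (0 : ℝ) < q by linarith)
      nlinarith
    have h1 : (q * ((2 + e) * d)) ^ 2 < ((h : ℝ) * (2 * m + 1) - S - 2 * 3 ^ j) ^ 2 :=
      pow_lt_pow_left₀ hlow (by positivity) two_ne_zero
    have h2 : z * (q * ((2 + e) * d)) ^ 2 < z * ((h : ℝ) * (2 * m + 1) - S - 2 * 3 ^ j) ^ 2 :=
      mul_lt_mul_of_pos_left h1 hz0
    refine lt_of_le_of_lt ?_ h2
    rw [mul_pow, mul_pow, hq]
    have h3 : z + 1 ≤ z * (1 + e) := by linarith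
    have h4 : (1 + e) * 4 ≤ (2 + e) ^ 2 := by nlinarith
    calc (z + 1) * (4 * h * (d : ℝ) ^ 2) ≤ z * (1 + e) * (4 * h * (d : ℝ) ^ 2) := by gcongr
      _ = z * (h * (((1 + e) * 4) * (d : ℝ) ^ 2)) := by ring
      _ ≤ z * (h * ((2 + e) ^ 2 * (d : ℝ) ^ 2)) := by gcongr

end Pool.Agent.SH9
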