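import Mathlib

set_option autoImplicit false

/-!
# Module Num: the numerical inequalities (all checked by computer on 10^4 random cases)

Notation: `v = C(d+2,2) - h C(m+1,2)`, `8 v = (2d+3)² - h (2m+1)² + (h - 1)`.
`a` points of the top level `j` (weight `3^j`), `s` points in all, `S = ∑ 3^i`, `S² ≤ h s` (Cauchy).

`numR`: put `B = 2d + 4`, `μ = 2m + 1`, `σ = √H`, `ε = exp (-3H/40)`. The hypothesis is
`h μ² - h + 1 + 16 B σ + 2 ε B² ≤ (B - 1)²`. Since `h H < 4 m²` it gives `h σ ≤ B`, then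
`h μ² ≤ B²`. Moreover `s ≤ a + 8 j ≤ 11 H` since `exp (2 j) ≤ 9 ^ j ≤ exp (H / 2)`; so
`μ S ≤ B √s ≤ 3.32 B σ`, and both inequalities follow.
-/

namespace Pool.Agent.SH9

open Real

/-- the real inequalities behind `numR` -/
theorem numR_real {h μ B σ x S s ε H : ℝ} (hH : 192 ≤ H) (hHh : H ≤ h) (hσ : 0 < σ)
    (hσH : σ ^ 2 = H) (hB : h * σ ≤ B) (hμ : 0 ≤ μ) (hε : 0 ≤ ε)
    (hv : h * μ ^ 2 - h + 1 + 16 * B * σ + 2 * ε * B ^ 2 ≤ (B - 1) ^ 2)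
    (hx0 : 0 ≤ x) (hx : x ^ 2 = s) (hs : s ≤ 11 * H) (hS0 : 0 ≤ S) (hS : S ^ 2 ≤ h * s) :
    (1 + ε) * (h * μ ^ 2 + 2 * μ * S + s) ≤ (B + 2) ^ 2 ∧
      h * μ ^ 2 + 4 * μ * S + 3 * s + 1 < (B + 5) ^ 2 := by
  have hσ1 : 13 ≤ σ := by nlinarith
  have hh0 : 0 < h := by linarith
  have hB0 : 0 < B := lt_of_lt_of_le (mul_pos hh0 hσ) hB
  have hs0 : 0 ≤ s := by rw [← hx]; positivity
  -- `x ≤ 3.32 σ`
  have hxσ : x ≤ 332 / 100 * σ := by
    apply le_of_sq_le_sq _ (by positivity)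
    rw [hx, mul_pow, hσH]
    linarith
  -- `192 h ≤ B σ`
  have hhB : 192 * h ≤ B * σ := by
    have h1 : h * σ * σ ≤ B * σ := mul_le_mul_of_nonneg_right hB hσ.le
    have h2 : h * σ * σ = h * H := by rw [← hσH]; ring
    rw [h2] at h1
    nlinarith
  have hHB : 192 * H ≤ B * σ := by linarith
  have hBσ : 0 < B * σ := mul_pos hB0 hσ
  -- `h μ² ≤ B²`
  have hqμ : h * μ ^ 2 ≤ B ^ 2 := by
    have : 0 ≤ 2 * ε * B ^ 2 := by positivity
    nlinarith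
  -- `μ S ≤ B x`
  have hμS : μ * S ≤ B * x := by
    apply le_of_sq_le_sq _ (by positivity)
    calc (μ * S) ^ 2 = μ ^ 2 * S ^ 2 := by ring
      _ ≤ μ ^ 2 * (h * s) := mul_le_mul_of_nonneg_left hS (by positivity)
      _ = h * μ ^ 2 * s := by ring
      _ ≤ B ^ 2 * s := mul_le_mul_of_nonneg_right hqμ hs0
      _ = (B * x) ^ 2 := by rw [mul_pow, hx]
  have hμS2 : μ * S ≤ 332 / 100 * (B * σ) := by
    refine hμS.trans ?_
    have := mul_le_mul_of_nonneg_left hxσ hB0.le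
    linarith
  -- `192 σ ≤ B`
  have hσB : 192 * σ ≤ B := by
    refine le_trans ?_ hB
    exact mul_le_mul_of_nonneg_right (by linarith) hσ.le
  have hBσ2 : 192 * (B * σ) ≤ B ^ 2 := by
    have := mul_le_mul_of_nonneg_left hσB hB0.le
    nlinarith
  constructor
  · have hA : h * μ ^ 2 + 2 * μ * S + s ≤ 2 * B ^ 2 := by nlinarith
    have hεA := mul_le_mul_of_nonneg_left hA hε
    nlinarith
  · nlinarith

theorem numR {H h m d j a s S : ℕ} {z : ℝ} (hH : 192 ≤ H) (hHh : H ≤ h)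
    (hexp : (h : ℝ) ≤ exp (H / 2)) (hm : h * H < 4 * m ^ 2) (haH : H ≤ a) (haH' : a < 9 * H)
    (hj : 9 ^ j * H ≤ h) (hs : s ≤ a + 8 * j) (hS : S ^ 2 ≤ h * s) (hz : exp (3 * a / 40) ≤ z)
    (hv : (h : ℝ) * ((m + 1).choose 2 : ℕ) + (d + 2) * (4 * √H + exp (-(3 * H / 40)) * (d + 2)) ≤
      ((d + 2).choose 2 : ℕ)) :
    (z + 1) * ((h : ℝ) * (2 * m + 1) ^ 2 + 2 * (2 * m + 1) * S + s) ≤ z * (4 * (d + 3) ^ 2) ∧
      h * (2 * m + 1) ^ 2 + 4 * (2 * m + 1) * S + 3 * s + 1 < (2 * d + 9) ^ 2 := by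
  have hHR : (192 : ℝ) ≤ H := by exact_mod_cast hH
  have hHhR : (H : ℝ) ≤ h := by exact_mod_cast hHh
  have hh0 : (0 : ℝ) < h := by linarith
  have hH0 : (0 : ℝ) < H := by linarith
  obtain ⟨σ, hσd⟩ : ∃ σ, σ = √(H : ℝ) := ⟨_, rfl⟩
  obtain ⟨ε, hεd⟩ : ∃ ε, ε = exp (-(3 * (H : ℝ) / 40)) := ⟨_, rfl⟩
  rw [← hσd, ← hεd] at hv
  have hσ : 0 < σ := by rw [hσd]; exact sqrt_pos.2 hH0
  have hσH : σ ^ 2 = (H : ℝ) := by rw [hσd]; exact sq_sqrt hH0.le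
  have hε : 0 < ε := by rw [hεd]; exact exp_pos _
  -- the binomials
  have hch : ∀ k : ℕ, (((k + 1).choose 2 : ℕ) : ℝ) = k * (k + 1) / 2 := by
    intro k
    rw [Nat.cast_choose_two]
    push_cast
    ring
  have hc1 := hch m
  have hc2 := hch (d + 1)
  rw [hc1, hc2] at hv
  push_cast at hv
  have hd0 : (0 : ℝ) ≤ d := Nat.cast_nonneg d
  have hm0 : (0 : ℝ) ≤ m := Nat.cast_nonneg m
  -- `h σ ≤ B`
  have hmR : (h : ℝ) * H < 4 * m ^ 2 := by exact_mod_cast hm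
  have hB : (h : ℝ) * σ ≤ 2 * d + 4 := by
    apply le_of_sq_le_sq _ (by positivity)
    have h1 : ((h : ℝ) * σ) ^ 2 = h * (h * H) := by rw [mul_pow, hσH]; ring
    rw [h1]
    have h2 : (h : ℝ) * (h * H) ≤ h * (4 * m ^ 2) := mul_le_mul_of_nonneg_left hmR.le hh0.le
    have h3 : 0 ≤ ((d : ℝ) + 2) * (4 * σ + ε * (d + 2)) := by positivity
    have h4 : 0 ≤ (h : ℝ) * m := by positivity
    nlinarith
  -- `s ≤ 11 H`
  have hs11 : (s : ℝ) ≤ 11 * H := by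
    have h9 : exp (2 * (j : ℝ)) ≤ 9 ^ j := by
      have h1 : exp 2 ≤ 9 := by
        have h5 := Real.exp_one_lt_d9
        calc exp 2 = exp 1 ^ 2 := by rw [← Real.exp_nat_mul]; norm_num
          _ ≤ (2.7182818286 : ℝ) ^ 2 := pow_le_pow_left₀ (exp_pos _).le h5.le 2
          _ ≤ 9 := by norm_num
      rw [mul_comm, Real.exp_nat_mul]
      exact pow_le_pow_left₀ (exp_pos _).le h1 j
    have h2 : (9 : ℝ) ^ j * H ≤ h := by exact_mod_cast hj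
    have h3 : (9 : ℝ) ^ j ≤ h := by
      refine le_trans ?_ h2
      have : (0 : ℝ) < 9 ^ j := by positivity
      nlinarith
    have h4 : 2 * (j : ℝ) ≤ H / 2 := exp_le_exp.1 ((h9.trans h3).trans hexp)
    have h5 : (s : ℝ) ≤ a + 8 * j := by exact_mod_cast hs
    have h6 : (a : ℝ) ≤ 9 * H := by exact_mod_cast haH'.le
    linarith
  have hSR : (S : ℝ) ^ 2 ≤ h * s := by exact_mod_cast hS
  have hμ : (0 : ℝ) ≤ 2 * m + 1 := by positivity
  have hmain := numR_real (μ := 2 * (m : ℝ) + 1) (B := 2 * (d : ℝ) + 4) (x := √(s : ℝ))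
    (S := S) (s := s) (ε := ε) hHR hHhR hσ hσH hB hμ hε.le (by nlinarith) (sqrt_nonneg _)
    (sq_sqrt (Nat.cast_nonneg s)) hs11 (Nat.cast_nonneg S) hSR
  obtain ⟨h1, h2⟩ := hmain
  constructor
  · -- `1 / z ≤ ε`
    have hz1 : exp (3 * (H : ℝ) / 40) ≤ z := by
      refine le_trans (exp_le_exp.2 ?_) hz
      have : (H : ℝ) ≤ a := by exact_mod_cast haH
      linarith
    have hz0 : 0 < z := lt_of_lt_of_le (exp_pos _) hz1
    have hεz : 1 ≤ ε * z := by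
      calc (1 : ℝ) = ε * exp (3 * (H : ℝ) / 40) := by
            rw [hεd, ← exp_add, neg_add_cancel, exp_zero]
        _ ≤ ε * z := mul_le_mul_of_nonneg_left hz1 hε.le
    obtain ⟨A, hA⟩ : ∃ A, A = (h : ℝ) * (2 * m + 1) ^ 2 + 2 * (2 * m + 1) * S + s := ⟨_, rfl⟩
    rw [← hA] at h1 ⊢
    have hA0 : 0 ≤ A := by rw [hA]; positivity
    have h3 : A ≤ ε * z * A := le_mul_of_one_le_left hA0 hεz
    have h4 := mul_le_mul_of_nonneg_left h1 hz0.le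
    nlinarith
  · have h3 : (h : ℝ) * (2 * m + 1) ^ 2 + 4 * (2 * m + 1) * S + 3 * s + 1 < (2 * d + 9) ^ 2 := by
      have : (2 * (d : ℝ) + 4 + 5) ^ 2 = (2 * d + 9) ^ 2 := by ring
      rw [this] at h2
      exact h2
    exact_mod_cast h3

end Pool.Agent.SH9
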