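import Mathlib

set_option autoImplicit false

/-!
# Module Num: the numerical inequalities (small `m`, expansion without loss, total square)

Notation: `v = C(d+2,2) - h C(m+1,2)`, `8 v = (2d+3)² - h (2m+1)² + (h - 1)`.
`a` points of the top level `j` (weight `3^j`), `s` points in all, `S = ∑ 3^i`, `S² ≤ h s` (Cauchy).
-/

namespace Pool.Agent.SH9

open Real

lemma numS_choose (k : ℕ) : (((k + 1).choose 2 : ℕ) : ℝ) = k * (k + 1) / 2 := by
  rw [Nat.cast_choose_two]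
  push_cast
  ring

/-- the case of small `m` -/
theorem numS {H h m d : ℕ} (hH : 192 ≤ H) (hHh : H ≤ h) (hm : 4 * m ^ 2 ≤ h * H)
    (hv : (h : ℝ) * ((m + 1).choose 2 : ℕ) + (d + 2) * (4 * √H) ≤ ((d + 2).choose 2 : ℕ) ∨
      (((d + 2).choose 2 : ℕ) : ℝ) + (d + 2) * (2 * √H) ≤ h * ((m + 1).choose 2 : ℕ)) :
    h * (m + 1).choose 2 + 2 * m * (m - 1) < (d + 2).choose 2 ∨
      (d + 2).choose 2 + 5 * (m + 1).choose 2 ≤ h * (m + 1).choose 2 := by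
  have hHR : (192 : ℝ) ≤ H := by exact_mod_cast hH
  have hHhR : (H : ℝ) ≤ h := by exact_mod_cast hHh
  have hH0 : (0 : ℝ) < H := by linarith
  have hh0 : (0 : ℝ) < h := by linarith
  obtain ⟨σ, hσd⟩ : ∃ σ, σ = √(H : ℝ) := ⟨_, rfl⟩
  rw [← hσd] at hv
  have hσ : 0 < σ := by rw [hσd]; exact sqrt_pos.2 hH0
  have hσH : σ ^ 2 = (H : ℝ) := by rw [hσd]; exact sq_sqrt hH0.le
  have hmR : 4 * (m : ℝ) ^ 2 ≤ h * H := by exact_mod_cast hm
  have hm0 : (0 : ℝ) ≤ m := Nat.cast_nonneg m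
  have hd0 : (0 : ℝ) ≤ d := Nat.cast_nonneg d
  have hc1 := numS_choose m
  have hc2 := numS_choose (d + 1)
  push_cast at hc2
  rcases hv with hv | hv
  · left
    have h1 : (h : ℝ) * m ^ 2 ≤ (d + 2) ^ 2 := by
      rw [hc1] at hv
      have h2 : (((d + 2).choose 2 : ℕ) : ℝ) = (d + 1) * (d + 1 + 1) / 2 := hc2
      rw [h2] at hv
      have h3 : 0 ≤ ((d : ℝ) + 2) * (4 * σ) := by positivity
      nlinarith [mul_nonneg hh0.le hm0]
    have h2 : 2 * (m : ℝ) ^ 2 ≤ (d + 2) * σ := by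
      apply le_of_sq_le_sq _ (by positivity)
      calc (2 * (m : ℝ) ^ 2) ^ 2 = (4 * (m : ℝ) ^ 2) * m ^ 2 := by ring
        _ ≤ ((h : ℝ) * H) * m ^ 2 := mul_le_mul_of_nonneg_right hmR (by positivity)
        _ = ((h : ℝ) * m ^ 2) * H := by ring
        _ ≤ ((d : ℝ) + 2) ^ 2 * H := mul_le_mul_of_nonneg_right h1 hH0.le
        _ = (((d : ℝ) + 2) * σ) ^ 2 := by rw [mul_pow, hσH]
    have h3 : ((2 * m * (m - 1) : ℕ) : ℝ) ≤ 2 * (m : ℝ) ^ 2 := by
      have : 2 * m * (m - 1) ≤ 2 * m ^ 2 := by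
        calc 2 * m * (m - 1) ≤ 2 * m * m := Nat.mul_le_mul_left _ (Nat.sub_le _ _)
          _ = 2 * m ^ 2 := by ring
      exact_mod_cast this
    have h4 : 0 < ((d : ℝ) + 2) * σ := by positivity
    have h5 : ((h * (m + 1).choose 2 + 2 * m * (m - 1) : ℕ) : ℝ) < (((d + 2).choose 2 : ℕ) : ℝ) := by
      rw [Nat.cast_add, Nat.cast_mul]
      linarith
    exact_mod_cast h5
  · right
    by_cases hc : 5 * (((m + 1).choose 2 : ℕ) : ℝ) ≤ (d + 2) * (2 * σ)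
    · have h5 : (((d + 2).choose 2 + 5 * (m + 1).choose 2 : ℕ) : ℝ) ≤
          ((h * (m + 1).choose 2 : ℕ) : ℝ) := by
        push_cast
        linarith
      exact_mod_cast h5
    · push Not at hc
      have hm1 : (1 : ℝ) ≤ m := by
        rcases Nat.eq_zero_or_pos m with h0 | h0
        · exfalso
          subst h0
          simp only [zero_add, Nat.choose_succ_self, Nat.cast_zero, mul_zero] at hc
          have : 0 < ((d : ℝ) + 2) * (2 * σ) := by positivity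
          linarith
        · exact_mod_cast h0
      have h5 : (((d + 2).choose 2 + 5 * (m + 1).choose 2 : ℕ) : ℝ) ≤
          ((h * (m + 1).choose 2 : ℕ) : ℝ) := by
        have h2 : (((d + 2).choose 2 : ℕ) : ℝ) = (d + 1) * (d + 1 + 1) / 2 := hc2
        push_cast
        rw [h2, hc1]
        rw [hc1] at hc
        -- `(d + 2) σ < 5 m (m + 1) / 4`
        have h3 : ((d : ℝ) + 2) * σ < 5 / 4 * (m * (m + 1)) := by linarith
        have h4 : ((d : ℝ) + 2) ^ 2 * H ≤ (5 / 4 * (m * (m + 1))) ^ 2 := by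
          have := pow_le_pow_left₀ (by positivity) h3.le 2
          rw [mul_pow, hσH] at this
          exact this
        have h6 : (5 / 4 * ((m : ℝ) * (m + 1))) ^ 2 ≤ (25 / 64 * (h * (m + 1) ^ 2)) * H := by
          have h7 : (5 / 4 * ((m : ℝ) * (m + 1))) ^ 2 = 25 / 64 * (4 * m ^ 2) * (m + 1) ^ 2 := by
            ring
          rw [h7]
          have := mul_le_mul_of_nonneg_right (mul_le_mul_of_nonneg_left hmR
            (by norm_num : (0 : ℝ) ≤ 25 / 64)) (by positivity : (0 : ℝ) ≤ ((m : ℝ) + 1) ^ 2)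
          calc 25 / 64 * (4 * (m : ℝ) ^ 2) * (m + 1) ^ 2 ≤ 25 / 64 * (h * H) * (m + 1) ^ 2 := this
            _ = _ := by ring
        have h8 : ((d : ℝ) + 2) ^ 2 ≤ 25 / 64 * (h * (m + 1) ^ 2) :=
          le_of_mul_le_mul_right (h4.trans h6) hH0
        have h9 : ((m : ℝ) + 1) ^ 2 ≤ 2 * (m * (m + 1)) := by nlinarith
        have h10 : (h : ℝ) * (m + 1) ^ 2 ≤ h * (2 * (m * (m + 1))) :=
          mul_le_mul_of_nonneg_left h9 hh0.le
        have h11 : 0 ≤ ((m : ℝ) * (m + 1)) * (h - 192) := mul_nonneg (by positivity) (by linarith)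
        nlinarith
      exact_mod_cast h5

/-- conditions for the expansion without loss -/
theorem numB {H h m j : ℕ} (hH : 192 ≤ H) (hm : h * H < 4 * m ^ 2)
    (hj : 9 ^ j * H ≤ h) (hj' : h < 9 ^ (j + 1) * H) :
    h + 4 ≤ 4 * (3 ^ j * (2 * m + 1)) ∧
      ∀ x < j, 9 ^ (x + 1) + 4 ≤ 4 * (3 ^ x * (2 * m + 1)) := by
  have h9 : ∀ i : ℕ, 9 ^ i = (3 ^ i) ^ 2 := by
    intro i
    rw [← pow_mul, mul_comm, pow_mul]
    norm_num
  have h3 : 1 ≤ 3 ^ j := Nat.one_le_pow _ _ (by norm_num)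
  constructor
  · have h1 : h ^ 2 ≤ (6 * (3 ^ j * m)) ^ 2 := by
      calc h ^ 2 = h * h := sq h
        _ ≤ h * (9 ^ (j + 1) * H) := Nat.mul_le_mul_left _ hj'.le
        _ = 9 ^ (j + 1) * (h * H) := by ring
        _ ≤ 9 ^ (j + 1) * (4 * m ^ 2) := Nat.mul_le_mul_left _ hm.le
        _ = (6 * (3 ^ j * m)) ^ 2 := by rw [pow_succ, h9]; ring
    have h2 : h ≤ 6 * (3 ^ j * m) := (Nat.pow_le_pow_iff_left (by norm_num)).1 h1
    nlinarith
  · intro x hx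
    have h1 : (3 ^ j * H) ^ 2 < (2 * m) ^ 2 := by
      calc (3 ^ j * H) ^ 2 = (9 ^ j * H) * H := by rw [h9]; ring
        _ ≤ h * H := Nat.mul_le_mul_right _ hj
        _ < 4 * m ^ 2 := hm
        _ = (2 * m) ^ 2 := by ring
    have h2 : 3 ^ j * H < 2 * m := (Nat.pow_lt_pow_iff_left (by norm_num)).1 h1
    have h4 : 3 ^ (x + 1) ≤ 3 ^ j := Nat.pow_le_pow_right (by norm_num) hx
    have h5 : 1 ≤ 3 ^ x := Nat.one_le_pow _ _ (by norm_num)
    rw [pow_succ] at h4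
    have h6 : 3 ^ j * 192 ≤ 3 ^ j * H := Nat.mul_le_mul_left _ hH
    have h7 : 9 * 3 ^ x ≤ 8 * m := by omega
    have h8 : 9 * 3 ^ x * 3 ^ x ≤ 8 * m * 3 ^ x := Nat.mul_le_mul_right _ h7
    rw [pow_succ, h9 x]
    nlinarith

/-- the weights of the regular half have total square at most `(a + 2) W²` -/
theorem numU {H h m j a s S : ℕ} (hH : 192 ≤ H) (hHh : H ≤ h) (hm : h * H < 4 * m ^ 2)
    (hj : 9 ^ j * H ≤ h) (ha : h < (a + 1) * 9 ^ j) (hs : s ≤ a + 8 * j)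
    (hS : S ≤ (a + 4) * 3 ^ j) :
    h * (2 * m + 1) ^ 2 + 2 * (2 * m + 1) * S + s ≤ (a + 2) * (3 ^ j * (2 * m + 1) + 1) ^ 2 := by
  have h9 : 9 ^ j = (3 ^ j) ^ 2 := by
    rw [← pow_mul, mul_comm, pow_mul]
    norm_num
  have hm1 : 96 < m := by
    have h1 : H * H ≤ h * H := Nat.mul_le_mul_right _ hHh
    have h2 : 192 * 192 ≤ H * H := Nat.mul_le_mul hH hH
    by_contra hc
    push Not at hc
    have : m ^ 2 ≤ 96 ^ 2 := Nat.pow_le_pow_left hc 2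
    omega
  have hjj : j ≤ 3 ^ j := (Nat.lt_pow_self (by norm_num)).le
  obtain ⟨P, hP⟩ : ∃ P, P = 3 ^ j := ⟨_, rfl⟩
  obtain ⟨μ, hμ⟩ : ∃ μ, μ = 2 * m + 1 := ⟨_, rfl⟩
  have hP1 : 1 ≤ P := by rw [hP]; exact Nat.one_le_pow _ _ (by norm_num)
  have hμ1 : 193 ≤ μ := by omega
  rw [← hμ, ← hP]
  rw [h9, ← hP] at ha
  rw [← hP] at hS hjj
  have e1 : h * μ ^ 2 ≤ (a + 1) * P ^ 2 * μ ^ 2 := Nat.mul_le_mul_right _ ha.le
  have e2 : 2 * μ * S ≤ 2 * μ * ((a + 4) * P) := Nat.mul_le_mul_left _ hS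
  obtain ⟨Y, hY⟩ : ∃ Y, Y = P * μ := ⟨_, rfl⟩
  have e3 : 193 ≤ Y := by
    rw [hY]
    calc 193 = 1 * 193 := rfl
      _ ≤ P * μ := Nat.mul_le_mul hP1 hμ1
  have e4 : 8 * j ≤ Y := by
    rw [hY]
    calc 8 * j ≤ 8 * P := Nat.mul_le_mul_left _ hjj
      _ = P * 8 := mul_comm _ _
      _ ≤ P * μ := Nat.mul_le_mul_left _ (by omega)
  have e5 : 5 * Y ≤ Y * Y := Nat.mul_le_mul_right _ (by omega)
  have e6 : (a + 1) * P ^ 2 * μ ^ 2 = (a + 1) * (Y * Y) := by rw [hY]; ring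
  have e7 : 2 * μ * ((a + 4) * P) = 2 * (a + 4) * Y := by rw [hY]; ring
  rw [← hY]
  rw [e6] at e1
  rw [e7] at e2
  have e8 : (a + 2) * (Y + 1) ^ 2 = (a + 1) * (Y * Y) + Y * Y + 2 * (a + 2) * Y + (a + 2) := by
    ring
  rw [e8]
  have e9 : 2 * (a + 4) * Y = 2 * (a + 2) * Y + 4 * Y := by ring
  rw [e9] at e2
  omega

end Pool.Agent.SH9
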