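import Mathlib

set_option autoImplicit false

/-!
# Module Z: the exponential inside the constant

`5 ≥ exp (8/5)`, so `5^J ≥ exp (8 J / 5)`, `8 J / 5 ≥ 3 a / 40 - 1.725`, and
`a - 16 J - 2 ≥ a / 4 - 1/2 ≥ 47 ≥ exp 2` (`exp 2 < 9`).
-/

namespace Pool.Agent.SH9

open Real

theorem z_exp_le_five : exp (8 / 5) ≤ 5 := by
  have h1 := Real.exp_one_lt_d9
  have h2 : exp (8 / 5) ^ 5 ≤ 5 ^ 5 := by
    calc exp (8 / 5) ^ 5 = exp 1 ^ 8 := by
          rw [← Real.exp_nat_mul, ← Real.exp_nat_mul]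
          norm_num
      _ ≤ (2.7182818286 : ℝ) ^ 8 := pow_le_pow_left₀ (exp_pos _).le h1.le 8
      _ ≤ 5 ^ 5 := by norm_num
  exact le_of_pow_le_pow_left₀ (by norm_num) (by norm_num) h2

theorem zbound (a J : ℕ) (ha : 192 ≤ a) (hJ : 64 * J + 6 ≤ 3 * a) (hJ' : 3 * a ≤ 64 * J + 69) :
    exp (3 * a / 40) ≤ 5 ^ J * (((a - 16 * J : ℕ) : ℝ) - 2) := by
  have h1 : 16 * J ≤ a := by omega
  rw [Nat.cast_sub h1]
  push_cast
  have hJ1 : (64 : ℝ) * J + 6 ≤ 3 * a := by exact_mod_cast hJ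
  have hJ2 : (3 : ℝ) * a ≤ 64 * J + 69 := by exact_mod_cast hJ'
  have ha' : (192 : ℝ) ≤ a := by exact_mod_cast ha
  have h2 : exp (3 * a / 40) ≤ exp (J * (8 / 5)) * exp 2 := by
    rw [← exp_add]
    apply exp_le_exp.2
    linarith
  have h3 : exp (J * (8 / 5)) ≤ 5 ^ J := by
    rw [Real.exp_nat_mul]
    exact pow_le_pow_left₀ (exp_pos _).le z_exp_le_five J
  have h4 : exp 2 ≤ 9 := by
    have h5 := Real.exp_one_lt_d9
    calc exp 2 = exp 1 ^ 2 := by rw [← Real.exp_nat_mul]; norm_num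
      _ ≤ (2.7182818286 : ℝ) ^ 2 := pow_le_pow_left₀ (exp_pos _).le h5.le 2
      _ ≤ 9 := by norm_num
  calc exp (3 * a / 40) ≤ exp (J * (8 / 5)) * exp 2 := h2
    _ ≤ 5 ^ J * (a - 16 * J - 2) := by
        apply mul_le_mul h3 _ (exp_pos _).le (by positivity)
        linarith

end Pool.Agent.SH9
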