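import Pool.Agent.SH9.LevE
import Pool.Agent.SH9.Dig
import Pool.Agent.SH9.NumS
import Pool.Agent.SH9.NumR
import Pool.Agent.SH9.NumE
import Pool.Agent.SH9.Z
import Pool.Agent.SH9.Base
import Pool.Agent.SH9.BaseE

set_option autoImplicit false

/-!
# The main theorem
-/

namespace Pool.Agent.SH9

open MvPolynomial Pool.Agent.helper5.NBS Pool.Agent.helper89.Segre

lemma sum_get {M : Type} [AddCommMonoid M] {α : Type} (L : List α) (g : α → M) :
    ∑ i : Fin L.length, g (L.get i) = (L.map g).sum := by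
  induction L with
  | nil => simp
  | cons x L ih =>
    rw [List.map_cons, List.sum_cons, ← ih]
    exact Fin.sum_univ_succ _

lemma card_get {α : Type} (L : List α) (P : α → Prop) [DecidablePred P] :
    (Finset.univ.filter fun i : Fin L.length => P (L.get i)).card =
      (L.map fun x => if P x then 1 else 0).sum := by
  rw [Finset.card_filter]
  exact sum_get L (fun x => if P x then 1 else 0)

lemma map_get {α β : Type} (L : List α) (g : α → β) :
    (Finset.univ : Finset (Fin L.length)).val.map (fun i => g (L.get i)) = ↑(L.map g) := by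
  rw [Fin.univ_val_map]
  congr 1
  have h1 : (fun i : Fin L.length => g (L.get i)) = g ∘ L.get := rfl
  rw [h1, ← List.map_ofFn, List.ofFn_get]

/-- `baseE` for lists of pairs (weight, multiplicity) -/
theorem baseEL (P : List (ℕ × ℕ)) (W J U a : ℕ) (hW : 0 < W) (hw : ∀ x ∈ P, x.1 ≤ W)
    (hwa : (P.map fun x => if x.1 = W then 1 else 0).sum = a)
    (hU : (P.map fun x => x.1 ^ 2).sum ≤ (a + U) * W ^ 2) (ha : 192 ≤ a)
    (hJ : 64 * J + 4 + U ≤ 3 * a) (d : ℕ)
    (h : (5 ^ J * (((a - 16 * J : ℕ) : ℝ) - 2) + 1) * ((P.map fun x => x.1 ^ 2).sum : ℕ) *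
        (d : ℝ) ^ 2 <
      5 ^ J * (((a - 16 * J : ℕ) : ℝ) - 2) * (((P.map fun x => x.1 * x.2).sum : ℕ) : ℝ) ^ 2) :
    E d ↑(P.map Prod.snd) := by
  rw [← map_get P Prod.snd]
  refine baseE (fun i => (P.get i).1) W J U a hW (fun i => hw _ (List.get_mem _ _)) ?_ ?_ ha hJ d
    (fun i => (P.get i).2) ?_
  · rw [← hwa]
    exact card_get P (fun x => x.1 = W)
  · rw [sum_get P (fun x => x.1 ^ 2)]
    exact hU
  · have h1 : ∑ i : Fin P.length, (((P.get i).1 : ℕ) : ℝ) ^ 2 =
        ((P.map fun x => x.1 ^ 2).sum : ℕ) := by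
      rw [← sum_get P (fun x => x.1 ^ 2)]
      push_cast
      rfl
    have h2 : ∑ i : Fin P.length, (((P.get i).1 : ℕ) : ℝ) * (((P.get i).2 : ℕ) : ℝ) =
        (((P.map fun x => x.1 * x.2).sum : ℕ) : ℝ) := by
      rw [← sum_get P (fun x => x.1 * x.2)]
      push_cast
      rfl
    rw [h1, h2]
    exact h

/-- `baseR` for lists -/
theorem baseRL (L : List ℕ) (W J U a : ℕ) (hw : ∀ x ∈ L, x + 1 ≤ W)
    (hwa : (L.map fun x => if x + 1 = W then 1 else 0).sum = a)
    (hU : (L.map fun x => (x + 1) ^ 2).sum ≤ (a + U) * W ^ 2) (ha : 192 ≤ a)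
    (hJ : 64 * J + 4 + U ≤ 3 * a) (d : ℕ)
    (h : (5 ^ J * (((a - 16 * J : ℕ) : ℝ) - 2) + 1) * ((L.map fun x => (x + 1) ^ 2).sum : ℕ) ≤
      5 ^ J * (((a - 16 * J : ℕ) : ℝ) - 2) * ((d : ℝ) + 3) ^ 2)
    (hex : (L.map fun x => (x + 2).choose 2).sum < (d + 5).choose 2) :
    Good ℂ (tri d) ↑L (L.map fun x => (x + 1).choose 2).sum := by
  have h0 : (↑L : Multiset ℕ) = (Finset.univ : Finset (Fin L.length)).val.map
      (fun i => L.get i) := by
    have := map_get L (fun x => x)
    rw [this]
    simp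
  rw [h0, ← sum_get L (fun x => (x + 1).choose 2)]
  refine baseR (fun i => L.get i) W J U a (fun i => hw _ (List.get_mem _ _)) ?_ ?_ ha hJ d ?_ ?_
  · rw [← hwa]
    exact card_get L (fun x => x + 1 = W)
  · rw [sum_get L (fun x => (x + 1) ^ 2)]
    exact hU
  · have h1 : ∑ i : Fin L.length, (((L.get i : ℕ) : ℝ) + 1) ^ 2 =
        (((L.map fun x => (x + 1) ^ 2).sum : ℕ) : ℝ) := by
      rw [← sum_get L (fun x => (x + 1) ^ 2)]
      push_cast
      rfl
    rw [h1]
    exact h
  · rw [sum_get L (fun x => (x + 2).choose 2)]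
    exact hex

lemma two_choose (k : ℕ) : 8 * (k + 2).choose 2 + 1 = (2 * k + 3) ^ 2 := by
  have h1 : 2 * (k + 1 + 1).choose 2 = (k + 1) * (k + 1 + 1) := by
    rw [Nat.choose_two_right, Nat.add_sub_cancel, Nat.mul_div_cancel' (by
      have := Nat.even_mul_succ_self (k + 1)
      rw [mul_comm] at this
      exact this.two_dvd), mul_comm]
  have h2 : 8 * (k + 1 + 1).choose 2 = 4 * ((k + 1) * (k + 1 + 1)) := by rw [← h1]; ring
  rw [show k + 2 = k + 1 + 1 by ring, h2]
  ring

lemma exL_const (m : ℕ) (L : List ℕ) :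
    exL (L.map fun i => (i, m)) = Multiset.replicate (L.map (9 ^ ·)).sum m := by
  induction L with
  | nil => simp [exL]
  | cons x L ih =>
    have h2 : exL ((x :: L).map fun i => (i, m)) = Multiset.replicate (9 ^ x) m +
        exL (L.map fun i => (i, m)) := by simp [exL]
    rw [h2, ih, List.map_cons, List.sum_cons, Multiset.replicate_add]

lemma col_const (m : ℕ) (L : List ℕ) :
    col (L.map fun i => (i, m)) = ↑(L.map (TT m)) := by
  rw [col, List.map_map]
  rfl

lemma rhoL_const (m : ℕ) (L : List ℕ) :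
    8 * rhoL (L.map fun i => (i, m)) + L.length = (L.map (9 ^ ·)).sum := by
  induction L with
  | nil => simp [rhoL]
  | cons x L ih =>
    have h2 : rhoL ((x :: L).map fun i => (i, m)) = rho x + rhoL (L.map fun i => (i, m)) := by
      simp [rhoL]
    have h3 := eight_rho x
    rw [h2, List.map_cons, List.sum_cons, List.length_cons]
    omega

lemma count_pow {j a : ℕ} (L : List ℕ) (h : L.count j = a) (f : ℕ → ℕ)
    (hf : ∀ i, f i = f j ↔ i = j) :
    (L.map fun i => if f i = f j then 1 else 0).sum = a := by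
  subst h
  induction L with
  | nil => simp
  | cons x L ih =>
    rw [List.map_cons, List.sum_cons, ih, List.count_cons]
    by_cases hx : x = j
    · subst hx; simp [add_comm]
    · rw [if_neg (fun h => hx ((hf x).mp h))]
      simp [hx]

lemma TT_lt {m i j : ℕ} (h : i < j) : TT m i < TT m j := by
  have h1 := two_TT m i
  have h2 := two_TT m j
  have h3 : 3 ^ i * (2 * m + 1) < 3 ^ j * (2 * m + 1) :=
    Nat.mul_lt_mul_of_pos_right (Nat.pow_lt_pow_right (by norm_num) h) (by omega)
  omega

lemma TT_inj {m i j : ℕ} : TT m i + 1 = TT m j + 1 ↔ i = j := by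
  constructor
  · intro h
    rcases Nat.lt_trichotomy i j with h1 | h1 | h1
    · have := TT_lt (m := m) h1; omega
    · exact h1
    · have := TT_lt (m := m) h1; omega
  · rintro rfl; rfl

/-- sums over the list of levels -/
lemma sum_sq (m : ℕ) (L : List ℕ) :
    4 * (L.map fun i => (TT m i + 1) ^ 2).sum = (L.map (9 ^ ·)).sum * (2 * m + 1) ^ 2 +
      2 * (2 * m + 1) * (L.map (3 ^ ·)).sum + L.length := by
  induction L with
  | nil => simp
  | cons x L ih =>
    rw [List.map_cons, List.sum_cons, List.map_cons, List.sum_cons, List.map_cons, List.sum_cons,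
      List.length_cons, mul_add, ih]
    have h1 := two_TT m x
    have h2 : 4 * (TT m x + 1) ^ 2 = (2 * TT m x + 1 + 1) ^ 2 := by ring
    have h3 : (9 : ℕ) ^ x = (3 ^ x) ^ 2 := by rw [← pow_mul, mul_comm, pow_mul]; norm_num
    rw [h2, h1, h3]
    ring

lemma sum_ch (m : ℕ) (L : List ℕ) :
    8 * (L.map fun i => (TT m i + 2).choose 2).sum = (L.map (9 ^ ·)).sum * (2 * m + 1) ^ 2 +
      4 * (2 * m + 1) * (L.map (3 ^ ·)).sum + 3 * L.length := by
  induction L with
  | nil => simp
  | cons x L ih =>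
    rw [List.map_cons, List.sum_cons, List.map_cons, List.sum_cons, List.map_cons, List.sum_cons,
      List.length_cons, mul_add, ih]
    have h1 := two_TT m x
    have h2 := two_choose (TT m x)
    have h3 : (9 : ℕ) ^ x = (3 ^ x) ^ 2 := by rw [← pow_mul, mul_comm, pow_mul]; norm_num
    have h4 : (2 * TT m x + 3) ^ 2 = (3 ^ x * (2 * m + 1) + 2) ^ 2 := by
      rw [← h1]
    have h5 : 8 * (TT m x + 2).choose 2 = (3 ^ x * (2 * m + 1)) ^ 2 +
        4 * (3 ^ x * (2 * m + 1)) + 3 := by
      have : (3 ^ x * (2 * m + 1) + 2) ^ 2 = (3 ^ x * (2 * m + 1)) ^ 2 +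
        4 * (3 ^ x * (2 * m + 1)) + 4 := by ring
      omega
    rw [h5, h3]
    ring

lemma sum_wt (m : ℕ) (L : List ℕ) :
    2 * (L.map fun i => 3 ^ i * TT m i).sum + (L.map (3 ^ ·)).sum =
      (L.map (9 ^ ·)).sum * (2 * m + 1) := by
  induction L with
  | nil => simp
  | cons x L ih =>
    rw [List.map_cons, List.sum_cons, List.map_cons, List.sum_cons, List.map_cons, List.sum_cons]
    have h1 := two_TT m x
    have h3 : (9 : ℕ) ^ x = 3 ^ x * 3 ^ x := by rw [← mul_pow]; norm_num
    have h2 : 2 * (3 ^ x * TT m x) + 3 ^ x = 9 ^ x * (2 * m + 1) := by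
      calc 2 * (3 ^ x * TT m x) + 3 ^ x = 3 ^ x * (2 * TT m x + 1) := by ring
        _ = _ := by rw [h1, h3]; ring
    rw [add_mul, ← ih, ← h2]
    ring

/-- the regular half for large multiplicities -/
theorem regular_large {H h m d : ℕ} (hH : 192 ≤ H) (hHh : H ≤ h)
    (hexp : (h : ℝ) ≤ Real.exp (H / 2)) (hm : h * H < 4 * m ^ 2)
    (hv : (h : ℝ) * ((m + 1).choose 2 : ℕ) +
      (d + 2) * (4 * √H + Real.exp (-(3 * H / 40)) * (d + 2)) ≤ ((d + 2).choose 2 : ℕ)) :
    Good ℂ (tri d) (Multiset.replicate h m) (h * (m + 1).choose 2) := by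
  obtain ⟨j, a, L, h1, h2, h3, h4, h5, h6, h7, h8, h9, h10, h11, h12⟩ := digits H h (by omega) hHh
  have hm1 : 1 ≤ m := by
    rcases Nat.eq_zero_or_pos m with rfl | h0
    · simp at hm
    · exact h0
  set J := (3 * a - 6) / 64 with hJ
  have ha : 192 ≤ a := by omega
  have hz := zbound a J ha (by omega) (by omega)
  obtain ⟨n1, n2⟩ := numR hH hHh hexp hm h4 h5 h6 h9 h11 hz hv
  have hT := two_TT m j
  have hsq := sum_sq m L
  rw [h1] at hsq
  have hch := sum_ch m L
  rw [h1] at hch
  have hg := baseRL (L.map (TT m)) (TT m j + 1) J 2 a (by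
      intro x hx
      obtain ⟨i, hi, rfl⟩ := List.mem_map.mp hx
      rcases (h2 i hi).lt_or_eq with h0 | h0
      · have := TT_lt (m := m) h0; omega
      · rw [h0])
    (by
      rw [List.map_map]
      exact count_pow L h3 (fun i => TT m i + 1) (fun i => TT_inj))
    (by
      rw [List.map_map]
      have hU := numU hH hHh hm h6 h8 h9 h10
      have e1 : 4 * (L.map ((fun x => (x + 1) ^ 2) ∘ TT m)).sum =
          4 * (L.map fun i => (TT m i + 1) ^ 2).sum := rfl
      have e2 : (3 ^ j * (2 * m + 1) + 1) ^ 2 = 4 * (TT m j + 1) ^ 2 := by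
        rw [← hT]; ring
      rw [e2] at hU
      have e3 : 4 * (L.map ((fun x => (x + 1) ^ 2) ∘ TT m)).sum ≤
          4 * ((a + 2) * (TT m j + 1) ^ 2) := by
        rw [e1, hsq]
        refine hU.trans (le_of_eq ?_)
        ring
      omega)
    ha (by omega) d
    (by
      rw [List.map_map]
      have e1 : ((L.map ((fun x => (x + 1) ^ 2) ∘ TT m)).sum : ℕ) =
          (L.map fun i => (TT m i + 1) ^ 2).sum := rfl
      rw [e1]
      have e2 : (4 : ℝ) * ((L.map fun i => (TT m i + 1) ^ 2).sum : ℕ) =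
          (h : ℝ) * (2 * m + 1) ^ 2 + 2 * (2 * m + 1) * ((L.map (3 ^ ·)).sum : ℕ) +
            (L.length : ℕ) := by
        exact_mod_cast hsq
      rw [← e2] at n1
      linarith)
    (by
      rw [List.map_map]
      have e1 : 8 * (L.map ((fun x => (x + 2).choose 2) ∘ TT m)).sum =
          8 * (L.map fun i => (TT m i + 2).choose 2).sum := rfl
      have e2 := two_choose (d + 3)
      have e3 : (2 * (d + 3) + 3) ^ 2 = (2 * d + 9) ^ 2 := by ring
      have e4 : d + 3 + 2 = d + 5 := by ring
      rw [e3, e4] at e2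
      omega)
  have hcol := col_const m L
  rw [← hcol] at hg
  have hsum : (((col (L.map fun i => (i, m))) + 0).map kk).sum =
      ((L.map (TT m)).map fun x => (x + 1).choose 2).sum := by
    rw [add_zero, hcol, Multiset.map_coe, Multiset.sum_coe]
    rfl
  have hg' : Good ℂ (tri d) (col (L.map fun i => (i, m)) + 0)
      (((col (L.map fun i => (i, m))) + 0).map kk).sum := by
    rw [hsum, add_zero]
    exact hg
  have hle : (((col (L.map fun i => (i, m))) + 0).map kk).sum ≤ (tri d).card := by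
    obtain ⟨L', _, _, hr⟩ := hg'
    have := hasRank_iff.mp hr
    omega
  have hR := mainR (L.map fun i => (i, m)) (by
    intro x hx
    obtain ⟨i, _, rfl⟩ := List.mem_map.mp hx
    exact hm1) hg' hle
  rw [add_zero, exL_const, h1, Multiset.map_replicate, Multiset.sum_replicate, smul_eq_mul] at hR
  exact hR

/-- the empty half for large multiplicities -/
theorem empty_large {H h m d : ℕ} (hH : 192 ≤ H) (hHh : H ≤ h)
    (hexp : (h : ℝ) ≤ Real.exp (H / 2)) (hm : h * H < 4 * m ^ 2)
    (hv : (((d + 2).choose 2 : ℕ) : ℝ) +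
      (d + 2) * (2 * √H + Real.exp (-(3 * H / 40)) * (d + 2)) ≤ h * ((m + 1).choose 2 : ℕ)) :
    E d (Multiset.replicate h m) := by
  obtain ⟨j, a, L, h1, h2, h3, h4, h5, h6, h7, h8, h9, h10, h11, h12⟩ := digits H h (by omega) hHh
  have hm1 : 1 ≤ m := by
    rcases Nat.eq_zero_or_pos m with rfl | h0
    · simp at hm
    · exact h0
  set J := (3 * a - 6) / 64 with hJ
  have ha : 192 ≤ a := by omega
  have hz := zbound a J ha (by omega) (by omega)
  obtain ⟨n1, n2⟩ := numE hH hHh hexp hm h4 h5 h6 h9 h11 hz hv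
  obtain ⟨b1, b2⟩ := numB hH hm h6 h7
  have hz0 : (0 : ℝ) ≤ 5 ^ J * (((a - 16 * J : ℕ) : ℝ) - 2) := (Real.exp_pos _).le.trans hz
  -- general application of the base inequality
  have key : ∀ P : List (ℕ × ℕ), P.map Prod.fst = L.map (3 ^ ·) →
      (L.map (9 ^ ·)).sum * (2 * m + 1) ≤
        2 * (P.map fun x => x.1 * x.2).sum + (L.map (3 ^ ·)).sum + 2 * 3 ^ j →
      E d ↑(P.map Prod.snd) := by
    intro P hP hPs
    have hsq : (P.map fun x => x.1 ^ 2).sum = h := by
      have e1 : (P.map fun x => x.1 ^ 2) = (P.map Prod.fst).map (· ^ 2) := by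
        rw [List.map_map]; rfl
      rw [e1, hP, List.map_map, ← h1]
      congr 1
      apply List.map_congr_left
      intro i _
      show (3 ^ i) ^ 2 = 9 ^ i
      rw [← pow_mul, mul_comm, pow_mul]; norm_num
    have hcnt : (P.map fun x => if x.1 = 3 ^ j then 1 else 0).sum = a := by
      have e1 : (P.map fun x => if x.1 = 3 ^ j then 1 else 0) =
          (P.map Prod.fst).map (fun y => if y = 3 ^ j then 1 else 0) := by
        rw [List.map_map]; rfl
      rw [e1, hP, List.map_map]
      exact count_pow L h3 (fun i => 3 ^ i) (fun i => by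
        constructor
        · intro h0; exact Nat.pow_right_injective (le_refl 2 |>.trans (by norm_num)) h0
        · rintro rfl; rfl)
    apply baseEL P (3 ^ j) J 1 a (by positivity) (by
      intro x hx
      have e1 : x.1 ∈ P.map Prod.fst := List.mem_map.mpr ⟨x, hx, rfl⟩
      rw [hP] at e1
      obtain ⟨i, hi, hix⟩ := List.mem_map.mp e1
      rw [← hix]
      exact Nat.pow_le_pow_right (by norm_num) (h2 i hi)) hcnt (by
        rw [hsq]
        have e1 : (3 ^ j) ^ 2 = (9 : ℕ) ^ j := by
          rw [← pow_mul, mul_comm, pow_mul]; norm_num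
        rw [e1]
        exact h8.le) ha (by omega) d
    rw [hsq]
    rw [h1] at hPs
    have e1 : ((h : ℝ) * (2 * m + 1) - ((L.map (3 ^ ·)).sum : ℕ) - 2 * 3 ^ j) ≤
        2 * (((P.map fun x => x.1 * x.2).sum : ℕ) : ℝ) := by
      have : ((h * (2 * m + 1) : ℕ) : ℝ) ≤ ((2 * (P.map fun x => x.1 * x.2).sum +
          (L.map (3 ^ ·)).sum + 2 * 3 ^ j : ℕ) : ℝ) := by exact_mod_cast hPs
      push_cast at this ⊢
      linarith
    have e2 : 0 ≤ ((h : ℝ) * (2 * m + 1) - ((L.map (3 ^ ·)).sum : ℕ) - 2 * 3 ^ j) := by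
      have : (((L.map (3 ^ ·)).sum + 2 * 3 ^ j : ℕ) : ℝ) ≤ ((h * (2 * m + 1) : ℕ) : ℝ) := by
        exact_mod_cast n1
      push_cast at this ⊢
      linarith
    have e3 := pow_le_pow_left₀ e2 e1 2
    have e4 := mul_le_mul_of_nonneg_left e3 hz0
    nlinarith
  have hLL : ∀ x ∈ L.map fun i => (i, m), 1 ≤ x.2 := by
    intro x hx
    obtain ⟨i, _, rfl⟩ := List.mem_map.mp hx
    exact hm1
  have hmain := mainE (d := d) (ms := 0) (L.map fun i => (i, m)) hLL ?_ ?_ ?_ ?_
  · rw [add_zero, exL_const, h1] at hmain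
    exact hmain
  · -- LCond
    intro x hx
    obtain ⟨i, hi, rfl⟩ := List.mem_map.mp hx
    intro k hk
    show 9 * rho k ≤ TT m k
    have e1 := b2 k (by have := h2 i hi; simp only at hk; omega)
    have e2 := two_TT m k
    have e3 := eight_rho k
    rw [pow_succ] at e1
    omega
  · -- all collided
    rw [add_zero, col_const]
    have e1 := key (L.map fun i => (3 ^ i, TT m i)) (by rw [List.map_map]; rfl) (by
      rw [List.map_map]
      have e2 := sum_wt m L
      have e3 : (L.map ((fun x : ℕ × ℕ => x.1 * x.2) ∘ fun i => (3 ^ i, TT m i))) =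
          L.map fun i => 3 ^ i * TT m i := rfl
      rw [e3]
      omega)
    rw [List.map_map] at e1
    exact e1
  · -- one lowered
    intro done todo x hx
    obtain ⟨done', r, hL1, hd, hr⟩ := List.map_eq_append_iff.mp hx
    obtain ⟨i, todo', hr1, hi, ht⟩ := List.map_eq_cons_iff.mp hr
    subst hd ht hi
    rw [col_const, col_const, add_zero]
    have hL2 : L = done' ++ i :: todo' := by rw [hL1, hr1]
    have e1 := key ((done'.map fun i => (3 ^ i, TT m i)) ++
        (3 ^ i, TT m i - 1) :: todo'.map fun i => (3 ^ i, TT m i))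
      (by
        rw [hL2]
        simp [List.map_map, Function.comp_def])
      (by
        have e2 := sum_wt m L
        have e4 : 3 ^ i ≤ 3 ^ j := Nat.pow_le_pow_right (by norm_num)
          (h2 i (by rw [hL2]; simp))
        have e5 : (L.map fun i => 3 ^ i * TT m i).sum =
            ((((done'.map fun i => (3 ^ i, TT m i)) ++
              (3 ^ i, TT m i - 1) :: todo'.map fun i => (3 ^ i, TT m i))).map
                fun x : ℕ × ℕ => x.1 * x.2).sum + 3 ^ i := by
          rw [hL2]
          simp only [List.map_append, List.map_cons, List.map_map, List.sum_append, List.sum_cons,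
            Function.comp_def]
          have e6 : 3 ^ i * TT m i = 3 ^ i * (TT m i - 1) + 3 ^ i := by
            have := le_TT m i
            obtain ⟨k, hk⟩ : ∃ k, TT m i = k + 1 := ⟨TT m i - 1, by omega⟩
            rw [hk]; simp; ring
          rw [e6]
          ring
        omega)
    have e7 : (↑(List.map Prod.snd ((done'.map fun i => (3 ^ i, TT m i)) ++
        (3 ^ i, TT m i - 1) :: todo'.map fun i => (3 ^ i, TT m i))) : Multiset ℕ) =
        (TT m i - 1) ::ₘ ((↑(done'.map (TT m)) : Multiset ℕ) + ↑(todo'.map (TT m))) := by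
      rw [List.map_append, List.map_cons, List.map_map, List.map_map, ← Multiset.coe_add,
        ← Multiset.cons_coe, Multiset.add_cons]
      rfl
    rw [e7] at e1
    exact e1
  · -- defects
    intro done todo x hx
    obtain ⟨done', r, hL1, hd, hr⟩ := List.map_eq_append_iff.mp hx
    obtain ⟨i, todo', hr1, hi, ht⟩ := List.map_eq_cons_iff.mp hr
    subst hd ht hi
    have hL2 : L = done' ++ i :: todo' := by rw [hL1, hr1]
    show rhoL (done'.map fun i => (i, m)) + rho i ≤ TT m i
    have e1 := rhoL_const m done'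
    have e2 := eight_rho i
    have e3 := two_TT m i
    rcases (h2 i (by rw [hL2]; simp)).lt_or_eq with h0 | h0
    · have e4 := h12 done' todo' i hL2 h0
      have e5 := b2 i h0
      omega
    · have e4 : (done'.map (9 ^ ·)).sum + 9 ^ i ≤ h := by
        rw [← h1, hL2, List.map_append, List.sum_append, List.map_cons, List.sum_cons]
        omega
      rw [h0] at e3 e2 e4 ⊢
      omega

/-- **Main theorem** -/
theorem main (H h m d : ℕ) (hH : 192 ≤ H) (hHh : H ≤ h) (hexp : (h : ℝ) ≤ Real.exp (H / 2))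
    (hv : (h : ℝ) * ((m + 1).choose 2 : ℕ) +
        (d + 2) * (4 * √H + Real.exp (-(3 * H / 40)) * (d + 2)) ≤ ((d + 2).choose 2 : ℕ) ∨
      (((d + 2).choose 2 : ℕ) : ℝ) +
        (d + 2) * (2 * √H + Real.exp (-(3 * H / 40)) * (d + 2)) ≤ h * ((m + 1).choose 2 : ℕ)) :
    ∃ Q : MvPolynomial (Fin h × Fin 3) ℂ, Q ≠ 0 ∧ ∀ p : Fin h → Fin 3 → ℂ,
      eval (fun ij : Fin h × Fin 3 => p ij.1 ij.2) Q ≠ 0 →
      Module.finrank ℂ (sys d h (fun _ => m) p) = (d + 2).choose 2 - h * (m + 1).choose 2 := by
  have hsum : ∑ _k : Fin h, (m + 1).choose 2 = h * (m + 1).choose 2 := by simp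
  have hmap : (Finset.univ.val.map fun _ : Fin h => m) = Multiset.replicate h m := by
    rw [Multiset.map_const']
    simp
  have hnn : (0 : ℝ) ≤ (d + 2) * (Real.exp (-(3 * H / 40)) * (d + 2)) := by positivity
  rcases Nat.lt_or_ge (h * H) (4 * m ^ 2) with hm | hm
  · rw [← hsum]
    apply generic_of_good
    rw [hsum, hmap]
    rcases hv with hv | hv
    · have h1 := regular_large hH hHh hexp hm hv
      have h2 : h * (m + 1).choose 2 ≤ (d + 2).choose 2 := by
        have : ((h * (m + 1).choose 2 : ℕ) : ℝ) ≤ ((d + 2).choose 2 : ℕ) := by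
          push_cast
          have : (0 : ℝ) ≤ (d + 2) * (4 * √H + Real.exp (-(3 * H / 40)) * (d + 2)) := by
            positivity
          linarith
        exact_mod_cast this
      rw [min_eq_left h2]
      exact h1
    · have h1 := empty_large hH hHh hexp hm hv
      have h2 : (d + 2).choose 2 ≤ h * (m + 1).choose 2 := by
        have : (((d + 2).choose 2 : ℕ) : ℝ) ≤ ((h * (m + 1).choose 2 : ℕ) : ℝ) := by
          push_cast
          have : (0 : ℝ) ≤ (d + 2) * (2 * √H + Real.exp (-(3 * H / 40)) * (d + 2)) := by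
            positivity
          linarith
        exact_mod_cast this
      rw [min_eq_right h2, ← card_tri]
      exact h1
  · have hS := numS (d := d) hH hHh hm (by
      rcases hv with hv | hv
      · left
        nlinarith
      · right
        nlinarith)
    have h1 := awayFromZero d h m (fun _ => m) (fun _ => le_rfl) (by
      rw [hsum]
      exact hS)
    rw [hsum] at h1
    exact h1

end Pool.Agent.SH9
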