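import Mathlib

set_option autoImplicit false

/-!
# Module NumHE: numerics for `a` points of multiplicity `2 m + 1` and `r ≤ 3` of multiplicity `m`

`h = 4 a + r`, `q = √h`, `X = 2 m + 1`, `e = exp (-3H/40)`, `1/z ≤ e`, `(1 + e) ≤ (1 + e/2)²`; it
suffices `q d (1 + e/2) < a (4m+3) + r m - S - 2·3^j`.
`hv` gives `(2d+3)² ≤ h X² - h + 1 + (28/5) a m ≤ h X² + (28/5) a m`, so
`2 d + 3 ≤ q X + (7/5) a / q` (as `(q X + c)² ≥ q² X² + 2 c q X`, `X ≥ 2 m`) and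
`q d ≤ h X / 2 + (7/10) a - (3/2) q`, where `h X / 2 = a (4m+2) + r m + r/2`. So it suffices
`r/2 + (7/10) a + e q d / 2 + S + 2·3^j < a + (3/2) q`; here `e d ≤ 1` (`hd`), `s ≤ 11 H` (from
`A < 9 H`, `9^j ≤ a ≤ exp (H/2)`, `exp 2 ≤ 9`: `4 j ≤ H`), `S² ≤ 11 a H ≤ (11/200) a²` so
`S ≤ 0.235 a`, `9^j H ≤ a` so `3^j ≤ q / 27 ≤ ...`.
-/

namespace Pool.Agent.SH9

open Real

private lemma numHE_j {H h j : ℕ} (hH : 192 ≤ H) (hexp : (h : ℝ) ≤ exp (H / 2))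
    (hj : 9 ^ j * H ≤ h) : 4 * j ≤ H := by
  have h1 : exp (2 * (j : ℝ)) ≤ 9 ^ j := by
    rw [mul_comm, exp_nat_mul]
    have : exp 2 ≤ 9 := by
      have h2 := exp_one_lt_d9
      have h3 : exp 2 = exp 1 * exp 1 := by rw [← exp_add]; norm_num
      rw [h3]
      nlinarith [exp_pos 1]
    exact pow_le_pow_left₀ (exp_pos _).le this j
  have h2 : (9 : ℝ) ^ j ≤ h := by
    have h3 : 9 ^ j ≤ h := by
      refine le_trans ?_ hj
      exact Nat.le_mul_of_pos_right _ (by omega)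
    exact_mod_cast h3
  have h3 : exp (2 * (j : ℝ)) ≤ exp (H / 2) := h1.trans (h2.trans hexp)
  rw [exp_le_exp] at h3
  have h4 : (4 * j : ℝ) ≤ H := by linarith
  exact_mod_cast h4

/-- the real inequality behind `numHE` -/
private lemma numHE_real {a r m d S P e z : ℝ} (ha : 38400 ≤ a) (hr0 : 0 ≤ r) (hr : r ≤ 3)
    (hm : 0 ≤ m) (hd0 : 0 ≤ d) (he : 0 ≤ e) (hed : e * d ≤ 1) (hS0 : 0 ≤ S)
    (hS : S ≤ 235 / 1000 * a) (hP0 : 0 ≤ P) (hP : P ^ 2 ≤ a) (hz : 0 < z) (hze : 1 ≤ z * e)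
    (hv : 5 * ((d + 2) * (d + 1)) ≤ 5 * ((4 * a + r) * ((m + 1) * m)) + 7 * (a * m)) :
    S + 2 * P ≤ a * (4 * m + 3) + r * m ∧
      (z + 1) * ((4 * a + r) * d ^ 2) < z * (a * (4 * m + 3) + r * m - S - 2 * P) ^ 2 := by
  have ha0 : 0 < a := by linarith
  obtain ⟨h, hh⟩ : ∃ h, h = 4 * a + r := ⟨_, rfl⟩
  have hh0 : 0 < h := by linarith
  obtain ⟨q, hq0, hq⟩ : ∃ q : ℝ, 0 < q ∧ q ^ 2 = h := ⟨√h, sqrt_pos.2 hh0, sq_sqrt hh0.le⟩
  have hPq : 2 * P ≤ q := by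
    apply le_of_sq_le_sq _ hq0.le
    rw [mul_pow, hq, hh]
    linarith
  have hPa : 2 * P ≤ a := by
    apply le_of_sq_le_sq _ ha0.le
    rw [mul_pow]
    nlinarith
  have ham : 0 ≤ a * m := by positivity
  have hrm : 0 ≤ r * m := by positivity
  constructor
  · nlinarith
  · obtain ⟨X, hX⟩ : ∃ X, X = 2 * m + 1 := ⟨_, rfl⟩
    have hX1 : 1 ≤ X := by linarith
    have hmX : m = (X - 1) / 2 := by linarith
    rw [← hh] at hv ⊢
    have h1 : (q * (2 * d + 3)) ^ 2 ≤ (h * X + 14 / 10 * a) ^ 2 := by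
      have h2 : (2 * d + 3) ^ 2 ≤ h * X ^ 2 + 28 / 10 * (a * X) := by
        rw [hmX] at hv
        nlinarith
      calc (q * (2 * d + 3)) ^ 2 = h * (2 * d + 3) ^ 2 := by rw [mul_pow, hq]
        _ ≤ h * (h * X ^ 2 + 28 / 10 * (a * X)) := mul_le_mul_of_nonneg_left h2 hh0.le
        _ ≤ (h * X + 14 / 10 * a) ^ 2 := by nlinarith [sq_nonneg a]
    have h3 : q * (2 * d + 3) ≤ h * X + 14 / 10 * a :=
      le_of_sq_le_sq h1 (by positivity)
    have h4 : q * (e * d) ≤ q * 1 := mul_le_mul_of_nonneg_left hed hq0.le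
    -- the right hand side
    have h5 : a * (4 * m + 3) + r * m = h * X / 2 + a - r / 2 := by
      rw [hmX, hh]
      ring
    rw [h5]
    have hlow : q * d * (1 + e / 2) < h * X / 2 + a - r / 2 - S - 2 * P := by
      nlinarith
    have h6 : (q * d * (1 + e / 2)) ^ 2 < (h * X / 2 + a - r / 2 - S - 2 * P) ^ 2 :=
      pow_lt_pow_left₀ hlow (by positivity) two_ne_zero
    refine lt_of_le_of_lt ?_ (mul_lt_mul_of_pos_left h6 hz)
    rw [← hq, mul_pow, mul_pow]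
    have h7 : z + 1 ≤ z * (1 + e) := by linarith
    have h8 : 1 + e ≤ (1 + e / 2) ^ 2 := by nlinarith [sq_nonneg e]
    calc (z + 1) * (q ^ 2 * d ^ 2) ≤ z * (1 + e) * (q ^ 2 * d ^ 2) := by gcongr
      _ ≤ z * (1 + e / 2) ^ 2 * (q ^ 2 * d ^ 2) := by gcongr
      _ = z * (q ^ 2 * d ^ 2 * (1 + e / 2) ^ 2) := by ring

theorem numHE {H a r m d j A s S : ℕ} {z : ℝ} (hH : 192 ≤ H) (ha : 200 * H ≤ a) (hr : r ≤ 3)
    (hexp : (a : ℝ) ≤ exp (H / 2)) (hd : exp (-(3 * H / 40)) * (d + 2) ≤ 1)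
    (haH : H ≤ A) (haH' : A < 9 * H)
    (hj : 9 ^ j * H ≤ a) (hs : s ≤ A + 8 * j) (hS : S ^ 2 ≤ a * s) (hz : exp (3 * A / 40) ≤ z)
    (hv : 10 * (d + 2).choose 2 ≤ 10 * ((4 * a + r) * (m + 1).choose 2) + 7 * (a * m)) :
    S + 2 * 3 ^ j ≤ a * (4 * m + 3) + r * m ∧
      (z + 1) * ((4 * a + r) * (d : ℝ) ^ 2) <
        z * ((a : ℝ) * (4 * m + 3) + r * m - S - 2 * 3 ^ j) ^ 2 := by
  have hj4 := numHE_j hH hexp hj
  have hs11 : s ≤ 11 * H := by omega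
  have hHr : (192 : ℝ) ≤ H := by exact_mod_cast hH
  have haR : (200 : ℝ) * H ≤ a := by exact_mod_cast ha
  have ha0 : (38400 : ℝ) ≤ a := by linarith
  obtain ⟨e, he⟩ : ∃ e : ℝ, e = exp (-(3 * H / 40)) := ⟨_, rfl⟩
  rw [← he] at hd
  have he0 : 0 < e := by rw [he]; exact exp_pos _
  have hz0 : 0 < z := (exp_pos _).trans_le hz
  have hze : 1 ≤ z * e := by
    have h1 : exp (3 * (H : ℝ) / 40) ≤ z := by
      refine le_trans ?_ hz
      rw [exp_le_exp]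
      have : (H : ℝ) ≤ A := by exact_mod_cast haH
      linarith
    calc (1 : ℝ) = exp (3 * (H : ℝ) / 40) * e := by rw [he, ← exp_add]; simp
      _ ≤ z * e := by gcongr
  have hSa : (S : ℝ) ≤ 235 / 1000 * a := by
    rw [← pow_le_pow_iff_left₀ (Nat.cast_nonneg _) (by positivity) two_ne_zero]
    have h1 : (S : ℝ) ^ 2 ≤ a * s := by exact_mod_cast hS
    have h2 : (s : ℝ) ≤ 11 * H := by exact_mod_cast hs11
    calc (S : ℝ) ^ 2 ≤ a * s := h1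
      _ ≤ a * (11 * (a / 200)) := by
        apply mul_le_mul_of_nonneg_left _ (by positivity)
        linarith
      _ ≤ (235 / 1000 * a) ^ 2 := by nlinarith [sq_nonneg (a : ℝ)]
  have hP : ((3 : ℝ) ^ j) ^ 2 ≤ a := by
    have h1 : (9 : ℝ) ^ j * H ≤ a := by exact_mod_cast hj
    have h2 : ((3 : ℝ) ^ j) ^ 2 = 9 ^ j := by
      rw [← pow_mul, mul_comm j 2, pow_mul]
      norm_num
    rw [h2]
    have h3 : (0 : ℝ) < 9 ^ j := by positivity
    nlinarith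
  have hc : ∀ k : ℕ, (((k + 1).choose 2 : ℕ) : ℝ) = (k + 1) * k / 2 := by
    intro k
    rw [Nat.cast_choose_two]
    push_cast
    ring
  have hvR : (10 : ℝ) * ((d + 2).choose 2 : ℕ) ≤
      10 * ((4 * a + r) * ((m + 1).choose 2 : ℕ)) + 7 * (a * m) := by exact_mod_cast hv
  have hc2 := hc (d + 1)
  push_cast at hc2
  rw [hc2, hc m] at hvR
  obtain ⟨h1, h2⟩ := numHE_real (a := a) (r := r) (m := m) (d := d) (S := S) (P := 3 ^ j) (e := e)
    (z := z) ha0 (Nat.cast_nonneg _) (by exact_mod_cast hr) (Nat.cast_nonneg _)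
    (Nat.cast_nonneg _) he0.le (by nlinarith) (Nat.cast_nonneg _) hSa (by positivity) hP hz0 hze
    (by linarith)
  refine ⟨by exact_mod_cast h1, h2⟩

end Pool.Agent.SH9
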