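import Mathlib

set_option autoImplicit false

/-!
# Module NumHR: numerics for `a` points of multiplicity `2 m` and `r ≤ 3` of multiplicity `m`

`h = 4 a + r`, `X = 2 m + 1`, `4 m + 1 = 2 X - 1`, `e = exp (-3H/40)`, `1/z ≤ e`.
First sum: `a (2X-1)² + 2 (2X-1) S + s + r (X+1)² = h X² - 4 a X + a + 2 (2X-1) S + s + 2 r X + r`,
second sum: `h X² - 4 a X + a + 4 (2X-1) S + 3 s + 4 r X + 3 r + 1`.
`hv`: `h (X² - 1) ≤ (2d+3)² - 1 + (16/5) a m`, so `h X² ≤ (2d+3)² + h - 1 + (8/5) a X`.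
`s ≤ 11 H ≤ (11/200) a`, `S ≤ 0.235 a`, `8 X S ≤ 1.88 a X`; `a X` is much larger than
`h, a, s, r X` (`X ≥ 1000` by `hm`), and `e (2d+3)² ≤ 2 (2d+3)` (`hd`), `(2d+3)² ≤ ...` not needed:
use `(1 + e) (D² - δ) ≤ (D + 3)²` with `D = 2 d + 3`, as `e D² ≤ 2 D`.
-/

namespace Pool.Agent.SH9

open Real

private lemma numHR_j {H h j : ℕ} (hH : 192 ≤ H) (hexp : (h : ℝ) ≤ exp (H / 2))
    (hj : 9 ^ j * H ≤ h) : 4 * j ≤ H := by
  have h1 : exp (2 * (j : ℝ)) ≤ 9 ^ j := by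
    rw [mul_comm, exp_nat_mul]
    have : exp 2 ≤ 9 := by
      have h2 := exp_one_lt_d9
      have h3 : exp 2 = exp 1 * exp 1 := by rw [← exp_add]; norm_num
      rw [h3]
      nlinarith [exp_pos 1]
    exact pow_le_pow_left₀ (exp_pos _).le this j
  have h2 : (9 : ℝ) ^ j ≤ h := by
    have h3 : 9 ^ j ≤ h := by
      refine le_trans ?_ hj
      exact Nat.le_mul_of_pos_right _ (by omega)
    exact_mod_cast h3
  have h3 : exp (2 * (j : ℝ)) ≤ exp (H / 2) := h1.trans (h2.trans hexp)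
  rw [exp_le_exp] at h3
  have h4 : (4 * j : ℝ) ≤ H := by linarith
  exact_mod_cast h4

/-- the real inequalities behind `numHR` -/
private lemma numHR_real {a r m d s S e z : ℝ} (ha : 38400 ≤ a) (hr0 : 0 ≤ r) (hr : r ≤ 3)
    (hm : 600 ≤ m) (hd0 : 0 ≤ d) (he : 0 ≤ e) (hed : e * (d + 2) ≤ 1) (hs0 : 0 ≤ s)
    (hs : s ≤ 55 / 1000 * a) (hS0 : 0 ≤ S)
    (hS : S ≤ 235 / 1000 * a) (hz : 0 < z) (hze : 1 ≤ z * e)
    (hv : 5 * ((4 * a + r) * ((m + 1) * m)) ≤ 5 * ((d + 2) * (d + 1)) + 4 * (a * m)) :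
    (z + 1) * (a * (4 * m + 1) ^ 2 + 2 * (4 * m + 1) * S + s + r * (2 * m + 2) ^ 2) ≤
        z * (4 * (d + 3) ^ 2) ∧
      a * (4 * m + 1) ^ 2 + 4 * (4 * m + 1) * S + 3 * s + r * (4 * m ^ 2 + 12 * m + 8) + 1 <
        (2 * d + 9) ^ 2 := by
  have hm0 : 0 ≤ m := by linarith
  have ha0 : 0 ≤ a := by linarith
  obtain ⟨P, hP⟩ : ∃ P, P = a * m := ⟨_, rfl⟩
  have hP1 : 600 * a ≤ P := by rw [hP, mul_comm 600 a]; exact mul_le_mul_of_nonneg_left hm ha0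
  have hP2 : 38400 * m ≤ P := by rw [hP]; exact mul_le_mul_of_nonneg_right ha hm0
  have hmS : m * S ≤ 235 / 1000 * P := by
    rw [hP]
    have := mul_le_mul_of_nonneg_left hS hm0
    linarith
  have hrm : r * m ≤ 3 * m := mul_le_mul_of_nonneg_right hr hm0
  have hrm0 : 0 ≤ r * m := by positivity
  have hmain : 16 * (a * m ^ 2) + 4 * (r * m ^ 2) ≤ (2 * d + 3) ^ 2 - 1 - 128 / 10 * P - 4 * (r * m) := by
    rw [hP]
    nlinarith
  constructor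
  · obtain ⟨A, hA⟩ : ∃ A, A = a * (4 * m + 1) ^ 2 + 2 * (4 * m + 1) * S + s + r * (2 * m + 2) ^ 2 :=
      ⟨_, rfl⟩
    rw [← hA]
    have hA0 : 0 ≤ A := by rw [hA]; positivity
    have hA1 : A ≤ (2 * d + 3) ^ 2 := by
      have h1 : A = 16 * (a * m ^ 2) + 4 * (r * m ^ 2) + 8 * P + a + 8 * (m * S) + 2 * S + s +
          8 * (r * m) + 4 * r := by rw [hA, hP]; ring
      rw [h1]
      linarith
    have h2 : z + 1 ≤ z * (1 + e) := by linarith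
    have h3 : e * (2 * d + 3) ≤ 2 := by nlinarith
    have h4 : e * (2 * d + 3) ^ 2 ≤ 2 * (2 * d + 3) := by
      have := mul_le_mul_of_nonneg_right h3 (show 0 ≤ 2 * d + 3 by linarith)
      calc e * (2 * d + 3) ^ 2 = e * (2 * d + 3) * (2 * d + 3) := by ring
        _ ≤ _ := this
    calc (z + 1) * A ≤ z * (1 + e) * A := mul_le_mul_of_nonneg_right h2 hA0
      _ ≤ z * (1 + e) * (2 * d + 3) ^ 2 := mul_le_mul_of_nonneg_left hA1 (by positivity)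
      _ = z * ((2 * d + 3) ^ 2 + e * (2 * d + 3) ^ 2) := by ring
      _ ≤ z * (4 * (d + 3) ^ 2) := by
        apply mul_le_mul_of_nonneg_left _ hz.le
        nlinarith
  · have h1 : a * (4 * m + 1) ^ 2 + 4 * (4 * m + 1) * S + 3 * s + r * (4 * m ^ 2 + 12 * m + 8) + 1 =
        16 * (a * m ^ 2) + 4 * (r * m ^ 2) + 8 * P + a + 16 * (m * S) + 4 * S + 3 * s +
          12 * (r * m) + 8 * r + 1 := by rw [hP]; ring
    rw [h1]
    have h2 : (2 * d + 3) ^ 2 ≤ (2 * d + 9) ^ 2 := by nlinarith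
    linarith

theorem numHR {H a r m d j A s S : ℕ} {z : ℝ} (hH : 192 ≤ H) (ha : 200 * H ≤ a) (hr : r ≤ 3)
    (hm : a * H < 4 * (2 * m) ^ 2)
    (hexp : (a : ℝ) ≤ exp (H / 2)) (hd : exp (-(3 * H / 40)) * (d + 2) ≤ 1)
    (haH : H ≤ A) (haH' : A < 9 * H)
    (hj : 9 ^ j * H ≤ a) (hs : s ≤ A + 8 * j) (hS : S ^ 2 ≤ a * s) (hz : exp (3 * A / 40) ≤ z)
    (hv : 10 * ((4 * a + r) * (m + 1).choose 2) ≤ 10 * (d + 2).choose 2 + 4 * (a * m)) :
    (z + 1) * ((a : ℝ) * (4 * m + 1) ^ 2 + 2 * (4 * m + 1) * S + s + r * (2 * m + 2) ^ 2) ≤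
        z * (4 * (d + 3) ^ 2) ∧
      a * (4 * m + 1) ^ 2 + 4 * (4 * m + 1) * S + 3 * s + r * (4 * m ^ 2 + 12 * m + 8) + 1 <
        (2 * d + 9) ^ 2 := by
  have hj4 := numHR_j hH hexp hj
  have hs11 : s ≤ 11 * H := by omega
  have hHr : (192 : ℝ) ≤ H := by exact_mod_cast hH
  have haR : (200 : ℝ) * H ≤ a := by exact_mod_cast ha
  have ha0 : (38400 : ℝ) ≤ a := by linarith
  obtain ⟨e, he⟩ : ∃ e : ℝ, e = exp (-(3 * H / 40)) := ⟨_, rfl⟩
  rw [← he] at hd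
  have he0 : 0 < e := by rw [he]; exact exp_pos _
  have hz0 : 0 < z := (exp_pos _).trans_le hz
  have hze : 1 ≤ z * e := by
    have h1 : exp (3 * (H : ℝ) / 40) ≤ z := by
      refine le_trans ?_ hz
      rw [exp_le_exp]
      have : (H : ℝ) ≤ A := by exact_mod_cast haH
      linarith
    calc (1 : ℝ) = exp (3 * (H : ℝ) / 40) * e := by rw [he, ← exp_add]; simp
      _ ≤ z * e := by gcongr
  have hsR : (s : ℝ) ≤ 55 / 1000 * a := by
    have h2 : (s : ℝ) ≤ 11 * H := by exact_mod_cast hs11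
    linarith
  have hSa : (S : ℝ) ≤ 235 / 1000 * a := by
    rw [← pow_le_pow_iff_left₀ (Nat.cast_nonneg _) (by positivity) two_ne_zero]
    have h1 : (S : ℝ) ^ 2 ≤ a * s := by exact_mod_cast hS
    calc (S : ℝ) ^ 2 ≤ a * s := h1
      _ ≤ a * (55 / 1000 * a) := mul_le_mul_of_nonneg_left hsR (by positivity)
      _ ≤ (235 / 1000 * a) ^ 2 := by nlinarith [sq_nonneg (a : ℝ)]
  have hmR : (600 : ℝ) ≤ m := by
    have h1 : (a : ℝ) * H < 4 * (2 * m) ^ 2 := by exact_mod_cast hm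
    have h2 : (38400 : ℝ) * 192 ≤ a * H := mul_le_mul ha0 hHr (by norm_num) (by linarith)
    have h3 : (0 : ℝ) ≤ m := Nat.cast_nonneg _
    by_contra hcon
    push Not at hcon
    nlinarith
  have hc : ∀ k : ℕ, (((k + 1).choose 2 : ℕ) : ℝ) = (k + 1) * k / 2 := by
    intro k
    rw [Nat.cast_choose_two]
    push_cast
    ring
  have hvR : 10 * ((4 * a + r) * ((m + 1).choose 2 : ℕ)) ≤
      (10 : ℝ) * ((d + 2).choose 2 : ℕ) + 4 * (a * m) := by exact_mod_cast hv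
  have hc2 := hc (d + 1)
  push_cast at hc2
  rw [hc2, hc m] at hvR
  obtain ⟨h1, h2⟩ := numHR_real (a := a) (r := r) (m := m) (d := d) (s := s) (S := S) (e := e)
    (z := z) ha0 (Nat.cast_nonneg _) (by exact_mod_cast hr) hmR
    (Nat.cast_nonneg _) he0.le hd (Nat.cast_nonneg _) hsR (Nat.cast_nonneg _) hSa hz0 hze
    (by linarith)
  refine ⟨h1, ?_⟩
  have h3 : (((a * (4 * m + 1) ^ 2 + 4 * (4 * m + 1) * S + 3 * s +
      r * (4 * m ^ 2 + 12 * m + 8) + 1 : ℕ)) : ℝ) < (((2 * d + 9) ^ 2 : ℕ) : ℝ) := by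
    push_cast
    exact h2
  exact_mod_cast h3

end Pool.Agent.SH9
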