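import Pool.Agent.SH9.Final
import Pool.Agent.SH9.NumHE
import Pool.Agent.SH9.NumHR

set_option autoImplicit false

/-!
# `a` points of multiplicity `2 m + 1` (empty) or `2 m` (regular) and at most three of multiplicity
`m`
-/

namespace Pool.Agent.SH9

open MvPolynomial Pool.Agent.helper5.NBS Pool.Agent.helper89.Segre

/-- variant of `zbound` -/
theorem zbound' (a J : ℕ) (ha : 192 ≤ a) (hJ : 64 * J + 6 ≤ 3 * a) (hJ' : 3 * a ≤ 64 * J + 80) :
    Real.exp (3 * a / 40) ≤ 5 ^ J * (((a - 16 * J : ℕ) : ℝ) - 2) := by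
  have h1 : 16 * J ≤ a := by omega
  rw [Nat.cast_sub h1]
  push_cast
  have hJ1 : (64 : ℝ) * J + 6 ≤ 3 * a := by exact_mod_cast hJ
  have hJ2 : (3 : ℝ) * a ≤ 64 * J + 80 := by exact_mod_cast hJ'
  have ha' : (192 : ℝ) ≤ a := by exact_mod_cast ha
  have h2 : Real.exp (3 * a / 40) ≤ Real.exp (J * (8 / 5)) * Real.exp 2 := by
    rw [← Real.exp_add]
    apply Real.exp_le_exp.2
    linarith
  have h3 : Real.exp (J * (8 / 5)) ≤ 5 ^ J := by
    rw [Real.exp_nat_mul]
    exact pow_le_pow_left₀ (Real.exp_pos _).le z_exp_le_five J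
  have h4 : Real.exp 2 ≤ 9 := by
    have h5 := Real.exp_one_lt_d9
    calc Real.exp 2 = Real.exp 1 ^ 2 := by rw [← Real.exp_nat_mul]; norm_num
      _ ≤ (2.7182818286 : ℝ) ^ 2 := pow_le_pow_left₀ (Real.exp_pos _).le h5.le 2
      _ ≤ 9 := by norm_num
  calc Real.exp (3 * a / 40) ≤ Real.exp (J * (8 / 5)) * Real.exp 2 := h2
    _ ≤ 5 ^ J * (a - 16 * J - 2) := by
        apply mul_le_mul h3 _ (Real.exp_pos _).le (by positivity)
        linarith

theorem HE {H a r m d : ℕ} (hH : 192 ≤ H) (ha : 200 * H ≤ a) (hr : r ≤ 3)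
    (hm : a * H < 4 * (2 * m + 1) ^ 2)
    (hexp : (a : ℝ) ≤ Real.exp (H / 2)) (hd : Real.exp (-(3 * H / 40)) * (d + 2) ≤ 1)
    (hv : 10 * (d + 2).choose 2 ≤ 10 * ((4 * a + r) * (m + 1).choose 2) + 7 * (a * m)) :
    E d (Multiset.replicate a (2 * m + 1) + Multiset.replicate r m) := by
  obtain ⟨j, A, L, h1, h2, h3, h4, h5, h6, h7, h8, h9, h10, h11, h12⟩ :=
    digits H a (by omega) (by omega)
  set J := (3 * A - 6) / 64 with hJ
  have hA : 192 ≤ A := by omega
  have hz := zbound A J hA (by omega) (by omega)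
  obtain ⟨n1, n2⟩ := numHE hH ha hr hexp hd h4 h5 h6 h9 h11 hz hv
  obtain ⟨b1, b2⟩ := numB hH hm h6 h7
  have hz0 : (0 : ℝ) ≤ 5 ^ J * (((A - 16 * J : ℕ) : ℝ) - 2) := (Real.exp_pos _).le.trans hz
  -- general application of the base inequality
  have key : ∀ P : List (ℕ × ℕ), P.map Prod.fst = L.map (3 ^ ·) →
      (L.map (9 ^ ·)).sum * (2 * (2 * m + 1) + 1) ≤
        2 * (P.map fun x => x.1 * x.2).sum + (L.map (3 ^ ·)).sum + 2 * 3 ^ j →
      E d (↑(P.map Prod.snd) + Multiset.replicate r m) := by
    intro P hP hPs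
    have hsq : (P.map fun x => x.1 ^ 2).sum = a := by
      have e1 : (P.map fun x => x.1 ^ 2) = (P.map Prod.fst).map (· ^ 2) := by
        rw [List.map_map]; rfl
      rw [e1, hP, List.map_map, ← h1]
      congr 1
      apply List.map_congr_left
      intro i _
      show (3 ^ i) ^ 2 = 9 ^ i
      rw [← pow_mul, mul_comm, pow_mul]; norm_num
    have hcnt : (P.map fun x => if x.1 = 3 ^ j then 1 else 0).sum = A := by
      have e1 : (P.map fun x => if x.1 = 3 ^ j then 1 else 0) =
          (P.map Prod.fst).map (fun y => if y = 3 ^ j then 1 else 0) := by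
        rw [List.map_map]; rfl
      rw [e1, hP, List.map_map]
      exact count_pow L h3 (fun i => 3 ^ i) (fun i => by
        constructor
        · intro h0; exact Nat.pow_right_injective (le_refl 2 |>.trans (by norm_num)) h0
        · rintro rfl; rfl)
    have hle : ∀ x ∈ P, x.1 ≤ 3 ^ j := by
      intro x hx
      have e1 : x.1 ∈ P.map Prod.fst := List.mem_map.mpr ⟨x, hx, rfl⟩
      rw [hP] at e1
      obtain ⟨i, hi, hix⟩ := List.mem_map.mp e1
      rw [← hix]
      exact Nat.pow_le_pow_right (by norm_num) (h2 i hi)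
    have h3j : 1 ≤ 3 ^ j := Nat.one_le_pow _ _ (by norm_num)
    have hsq2 : ((P.map (fun x : ℕ × ℕ => (2 * x.1, x.2)) ++ List.replicate r (1, m)).map
        fun x : ℕ × ℕ => x.1 ^ 2).sum = 4 * a + r := by
      rw [List.map_append, List.sum_append, List.map_map, List.map_replicate, List.sum_replicate,
        ← hsq, ← List.sum_map_mul_left]
      simp only [Function.comp_def, smul_eq_mul, one_pow, mul_one]
      congr 2
      apply List.map_congr_left
      intro x _
      ring
    have hcnt2 : ((P.map (fun x : ℕ × ℕ => (2 * x.1, x.2)) ++ List.replicate r (1, m)).map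
        fun x : ℕ × ℕ => if x.1 = 2 * 3 ^ j then 1 else 0).sum = A := by
      rw [List.map_append, List.sum_append, List.map_map, List.map_replicate, List.sum_replicate,
        ← hcnt, if_neg (by simp only; omega), smul_zero, add_zero]
      congr 1
      apply List.map_congr_left
      intro x _
      simp only [Function.comp_def]
      by_cases h0 : x.1 = 3 ^ j
      · rw [if_pos (by rw [h0]), if_pos h0]
      · rw [if_neg (by omega), if_neg h0]
    have hS2 : ((P.map (fun x : ℕ × ℕ => (2 * x.1, x.2)) ++ List.replicate r (1, m)).map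
        fun x : ℕ × ℕ => x.1 * x.2).sum = 2 * (P.map fun x => x.1 * x.2).sum + r * m := by
      rw [List.map_append, List.sum_append, List.map_map, List.map_replicate, List.sum_replicate,
        ← List.sum_map_mul_left]
      simp only [Function.comp_def, smul_eq_mul, one_mul]
      congr 2
      apply List.map_congr_left
      intro x _
      ring
    have hfin := baseEL (P.map (fun x : ℕ × ℕ => (2 * x.1, x.2)) ++ List.replicate r (1, m))
      (2 * 3 ^ j) J 1 A (by positivity) (by
      intro x hx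
      rcases List.mem_append.mp hx with hx | hx
      · obtain ⟨y, hy, rfl⟩ := List.mem_map.mp hx
        have := hle y hy
        show 2 * y.1 ≤ 2 * 3 ^ j
        omega
      · rw [List.eq_of_mem_replicate hx]
        show 1 ≤ 2 * 3 ^ j
        omega) hcnt2 (by
        rw [hsq2]
        have e1 : (2 * 3 ^ j) ^ 2 = 4 * (9 : ℕ) ^ j := by
          rw [mul_pow, ← pow_mul, mul_comm j 2, pow_mul]; norm_num
        rw [e1]
        calc 4 * a + r ≤ 4 * ((A + 1) * 9 ^ j) := by omega
          _ = _ := by ring) hA (by omega) d (by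
        rw [hsq2, hS2]
        rw [h1] at hPs
        generalize (P.map fun x => x.1 * x.2).sum = S1 at hPs ⊢
        generalize (L.map (3 ^ ·)).sum = S0 at hPs n1 n2 ⊢
        have e1 : ((a : ℝ) * (4 * m + 3) + r * m - S0 - 2 * 3 ^ j) ≤ 2 * S1 + r * m := by
          have : ((a * (2 * (2 * m + 1) + 1) : ℕ) : ℝ) ≤
              ((2 * S1 + S0 + 2 * 3 ^ j : ℕ) : ℝ) := by exact_mod_cast hPs
          push_cast at this ⊢
          linarith
        have e2 : 0 ≤ ((a : ℝ) * (4 * m + 3) + r * m - S0 - 2 * 3 ^ j) := by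
          have : ((S0 + 2 * 3 ^ j : ℕ) : ℝ) ≤ ((a * (4 * m + 3) + r * m : ℕ) : ℝ) := by
            exact_mod_cast n1
          push_cast at this ⊢
          linarith
        have e3 := pow_le_pow_left₀ e2 e1 2
        have e4 := mul_le_mul_of_nonneg_left e3 hz0
        push_cast
        refine lt_of_le_of_lt (le_of_eq ?_) (n2.trans_le e4)
        ring)
    have e9 : ((P.map (fun x : ℕ × ℕ => (2 * x.1, x.2)) ++ List.replicate r (1, m)).map Prod.snd :
        Multiset ℕ) = ↑(P.map Prod.snd) + Multiset.replicate r m := by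
      rw [List.map_append, List.map_map, List.map_replicate, ← Multiset.coe_add,
        Multiset.coe_replicate]
      rfl
    rw [e9] at hfin
    exact hfin
  have hLL : ∀ x ∈ L.map fun i => (i, 2 * m + 1), 1 ≤ x.2 := by
    intro x hx
    obtain ⟨i, _, rfl⟩ := List.mem_map.mp hx
    show 1 ≤ 2 * m + 1
    omega
  have hmain := mainE (d := d) (ms := Multiset.replicate r m) (L.map fun i => (i, 2 * m + 1))
    hLL ?_ ?_ ?_ ?_
  · rw [exL_const, h1] at hmain
    exact hmain
  · -- LCond
    intro x hx
    obtain ⟨i, hi, rfl⟩ := List.mem_map.mp hx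
    intro k hk
    show 9 * rho k ≤ TT (2 * m + 1) k
    have e1 := b2 k (by have := h2 i hi; simp only at hk; omega)
    have e2 := two_TT (2 * m + 1) k
    have e3 := eight_rho k
    rw [pow_succ] at e1
    omega
  · -- all collided
    rw [col_const]
    have e1 := key (L.map fun i => (3 ^ i, TT (2 * m + 1) i)) (by rw [List.map_map]; rfl) (by
      rw [List.map_map]
      have e2 := sum_wt (2 * m + 1) L
      have e3 : (L.map ((fun x : ℕ × ℕ => x.1 * x.2) ∘ fun i => (3 ^ i, TT (2 * m + 1) i))) =
          L.map fun i => 3 ^ i * TT (2 * m + 1) i := rfl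
      rw [e3]
      omega)
    rw [List.map_map] at e1
    exact e1
  · -- one lowered
    intro done todo x hx
    obtain ⟨done', r', hL1, hd', hr'⟩ := List.map_eq_append_iff.mp hx
    obtain ⟨i, todo', hr1, hi, ht⟩ := List.map_eq_cons_iff.mp hr'
    subst hd' ht hi
    rw [col_const, col_const]
    have hL2 : L = done' ++ i :: todo' := by rw [hL1, hr1]
    have e1 := key ((done'.map fun i => (3 ^ i, TT (2 * m + 1) i)) ++
        (3 ^ i, TT (2 * m + 1) i - 1) :: todo'.map fun i => (3 ^ i, TT (2 * m + 1) i))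
      (by
        rw [hL2]
        simp [List.map_map, Function.comp_def])
      (by
        have e2 := sum_wt (2 * m + 1) L
        have e4 : 3 ^ i ≤ 3 ^ j := Nat.pow_le_pow_right (by norm_num)
          (h2 i (by rw [hL2]; simp))
        have e5 : (L.map fun i => 3 ^ i * TT (2 * m + 1) i).sum =
            ((((done'.map fun i => (3 ^ i, TT (2 * m + 1) i)) ++
              (3 ^ i, TT (2 * m + 1) i - 1) :: todo'.map fun i =>
                (3 ^ i, TT (2 * m + 1) i))).map
                fun x : ℕ × ℕ => x.1 * x.2).sum + 3 ^ i := by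
          rw [hL2]
          simp only [List.map_append, List.map_cons, List.map_map, List.sum_append, List.sum_cons,
            Function.comp_def]
          have e6 : 3 ^ i * TT (2 * m + 1) i = 3 ^ i * (TT (2 * m + 1) i - 1) + 3 ^ i := by
            have := le_TT (2 * m + 1) i
            obtain ⟨k, hk⟩ : ∃ k, TT (2 * m + 1) i = k + 1 :=
              ⟨TT (2 * m + 1) i - 1, by omega⟩
            rw [hk]; simp; ring
          rw [e6]
          ring
        omega)
    have e7 : (↑(List.map Prod.snd ((done'.map fun i => (3 ^ i, TT (2 * m + 1) i)) ++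
        (3 ^ i, TT (2 * m + 1) i - 1) :: todo'.map fun i => (3 ^ i, TT (2 * m + 1) i))) :
          Multiset ℕ) =
        (TT (2 * m + 1) i - 1) ::ₘ ((↑(done'.map (TT (2 * m + 1))) : Multiset ℕ) +
          ↑(todo'.map (TT (2 * m + 1)))) := by
      rw [List.map_append, List.map_cons, List.map_map, List.map_map, ← Multiset.coe_add,
        ← Multiset.cons_coe, Multiset.add_cons]
      rfl
    rw [e7, Multiset.cons_add, add_assoc] at e1
    exact e1
  · -- defects
    intro done todo x hx
    obtain ⟨done', r', hL1, hd', hr'⟩ := List.map_eq_append_iff.mp hx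
    obtain ⟨i, todo', hr1, hi, ht⟩ := List.map_eq_cons_iff.mp hr'
    subst hd' ht hi
    have hL2 : L = done' ++ i :: todo' := by rw [hL1, hr1]
    show rhoL (done'.map fun i => (i, 2 * m + 1)) + rho i ≤ TT (2 * m + 1) i
    have e1 := rhoL_const (2 * m + 1) done'
    have e2 := eight_rho i
    have e3 := two_TT (2 * m + 1) i
    rcases (h2 i (by rw [hL2]; simp)).lt_or_eq with h0 | h0
    · have e4 := h12 done' todo' i hL2 h0
      have e5 := b2 i h0
      omega
    · have e4 : (done'.map (9 ^ ·)).sum + 9 ^ i ≤ a := by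
        rw [← h1, hL2, List.map_append, List.sum_append, List.map_cons, List.sum_cons]
        omega
      rw [h0] at e3 e2 e4 ⊢
      omega

theorem HR {H a r m d : ℕ} (hH : 192 ≤ H) (ha : 200 * H ≤ a) (hr : r ≤ 3)
    (hm : a * H < 4 * (2 * m) ^ 2)
    (hexp : (a : ℝ) ≤ Real.exp (H / 2)) (hd : Real.exp (-(3 * H / 40)) * (d + 2) ≤ 1)
    (hv : 10 * ((4 * a + r) * (m + 1).choose 2) ≤ 10 * (d + 2).choose 2 + 4 * (a * m)) :
    Good ℂ (tri d) (Multiset.replicate a (2 * m) + Multiset.replicate r m)
      (a * (2 * m + 1).choose 2 + r * (m + 1).choose 2) := by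
  obtain ⟨j, A, L, h1, h2, h3, h4, h5, h6, h7, h8, h9, h10, h11, h12⟩ :=
    digits H a (by omega) (by omega)
  have hm3 : 3 ≤ m := by
    by_contra hc
    have h0 : m ≤ 2 := by omega
    have h00 : (2 * m) ^ 2 ≤ 4 ^ 2 := Nat.pow_le_pow_left (by omega) 2
    have h01 : 192 * 192 ≤ a * H := Nat.mul_le_mul (by omega) hH
    omega
  set J := (3 * A - 7) / 64 with hJ
  have hA : 192 ≤ A := by omega
  have hz := zbound' A J hA (by omega) (by omega)
  obtain ⟨n1, n2⟩ := numHR hH ha hr hm hexp hd h4 h5 h6 h9 h11 hz hv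
  have hT := two_TT (2 * m) j
  have hsq := sum_sq (2 * m) L
  rw [h1] at hsq
  have hch := sum_ch (2 * m) L
  rw [h1] at hch
  have hTj : 2 * m ≤ TT (2 * m) j := le_TT _ _
  have hsqL : ((L.map (TT (2 * m)) ++ List.replicate r m).map fun x => (x + 1) ^ 2).sum =
      (L.map fun i => (TT (2 * m) i + 1) ^ 2).sum + r * (m + 1) ^ 2 := by
    rw [List.map_append, List.sum_append, List.map_map, List.map_replicate, List.sum_replicate,
      smul_eq_mul]
    rfl
  have hg := baseRL (L.map (TT (2 * m)) ++ List.replicate r m) (TT (2 * m) j + 1) J 3 A (by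
      intro x hx
      rcases List.mem_append.mp hx with hx | hx
      · obtain ⟨i, hi, rfl⟩ := List.mem_map.mp hx
        rcases (h2 i hi).lt_or_eq with h0 | h0
        · have := TT_lt (m := 2 * m) h0; omega
        · rw [h0]
      · rw [List.eq_of_mem_replicate hx]
        omega)
    (by
      rw [List.map_append, List.sum_append, List.map_map, List.map_replicate, List.sum_replicate,
        if_neg (by omega), smul_zero, add_zero]
      exact count_pow L h3 (fun i => TT (2 * m) i + 1) (fun i => TT_inj))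
    (by
      rw [hsqL]
      have hU := numU (m := 2 * m) hH (by omega : H ≤ a) hm h6 h8 h9 h10
      have e2 : (3 ^ j * (2 * (2 * m) + 1) + 1) ^ 2 = 4 * (TT (2 * m) j + 1) ^ 2 := by
        rw [← hT]; ring
      rw [e2] at hU
      have e3 : 4 * (L.map fun i => (TT (2 * m) i + 1) ^ 2).sum ≤
          4 * ((A + 2) * (TT (2 * m) j + 1) ^ 2) := by
        rw [hsq]
        refine hU.trans (le_of_eq ?_)
        ring
      have e4 : r * (m + 1) ^ 2 ≤ (TT (2 * m) j + 1) ^ 2 := by
        calc r * (m + 1) ^ 2 ≤ 3 * (m + 1) ^ 2 := Nat.mul_le_mul_right _ hr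
          _ ≤ (2 * m + 1) ^ 2 := by nlinarith
          _ ≤ (TT (2 * m) j + 1) ^ 2 := Nat.pow_le_pow_left (by omega) 2
      have e5 : (A + 3) * (TT (2 * m) j + 1) ^ 2 =
          (A + 2) * (TT (2 * m) j + 1) ^ 2 + (TT (2 * m) j + 1) ^ 2 := by ring
      omega)
    hA (by omega) d
    (by
      rw [hsqL]
      generalize (L.map fun i => (TT (2 * m) i + 1) ^ 2).sum = Q at hsq ⊢
      generalize (L.map (3 ^ ·)).sum = S0 at hsq n1 ⊢
      have e2 : (4 : ℝ) * Q = (a : ℝ) * (4 * m + 1) ^ 2 + 2 * (4 * m + 1) * S0 + L.length := by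
        have : ((4 * Q : ℕ) : ℝ) = ((a * (2 * (2 * m) + 1) ^ 2 +
            2 * (2 * (2 * m) + 1) * S0 + L.length : ℕ) : ℝ) := by rw [hsq]
        push_cast at this
        rw [this]
        ring
      have e3 : (a : ℝ) * (4 * m + 1) ^ 2 + 2 * (4 * m + 1) * S0 + L.length +
          r * (2 * m + 2) ^ 2 = 4 * (Q + r * (m + 1) ^ 2) := by rw [← e2]; ring
      rw [e3] at n1
      push_cast
      linarith)
    (by
      rw [List.map_append, List.sum_append, List.map_map, List.map_replicate, List.sum_replicate,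
        smul_eq_mul]
      have e1 : 8 * (L.map ((fun x => (x + 2).choose 2) ∘ TT (2 * m))).sum =
          8 * (L.map fun i => (TT (2 * m) i + 2).choose 2).sum := rfl
      have e2 := two_choose (d + 3)
      have e3 : (2 * (d + 3) + 3) ^ 2 = (2 * d + 9) ^ 2 := by ring
      have e4 : d + 3 + 2 = d + 5 := by ring
      rw [e3, e4] at e2
      have e5 := two_choose m
      have e6 : 8 * (r * (m + 2).choose 2) = r * (4 * m ^ 2 + 12 * m + 8) := by
        have : 8 * (m + 2).choose 2 = 4 * m ^ 2 + 12 * m + 8 := by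
          have : (2 * m + 3) ^ 2 = 4 * m ^ 2 + 12 * m + 9 := by ring
          omega
        rw [← this]
        ring
      have e7 : a * (2 * (2 * m) + 1) ^ 2 = a * (4 * m + 1) ^ 2 := by ring
      have e8 : 4 * (2 * (2 * m) + 1) * (L.map (3 ^ ·)).sum =
          4 * (4 * m + 1) * (L.map (3 ^ ·)).sum := by ring
      rw [e7, e8] at hch
      omega)
  have hcol := col_const (2 * m) L
  have hco : ((L.map (TT (2 * m)) ++ List.replicate r m : List ℕ) : Multiset ℕ) =
      col (L.map fun i => (i, 2 * m)) + Multiset.replicate r m := by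
    rw [hcol, ← Multiset.coe_add, Multiset.coe_replicate]
  rw [hco] at hg
  have hsum : (((col (L.map fun i => (i, 2 * m))) + Multiset.replicate r m).map kk).sum =
      ((L.map (TT (2 * m)) ++ List.replicate r m).map fun x => (x + 1).choose 2).sum := by
    rw [← hco, Multiset.map_coe, Multiset.sum_coe]
    rfl
  rw [← hsum] at hg
  have hle : (((col (L.map fun i => (i, 2 * m))) + Multiset.replicate r m).map kk).sum ≤
      (tri d).card := by
    obtain ⟨L', _, _, hr'⟩ := hg
    have := hasRank_iff.mp hr'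
    omega
  have hR := mainR (L.map fun i => (i, 2 * m)) (by
    intro x hx
    obtain ⟨i, _, rfl⟩ := List.mem_map.mp hx
    show 1 ≤ 2 * m
    omega) hg hle
  rw [exL_const, h1, Multiset.map_add, Multiset.sum_add, Multiset.map_replicate,
    Multiset.sum_replicate, Multiset.map_replicate, Multiset.sum_replicate, smul_eq_mul,
    smul_eq_mul] at hR
  exact hR

end Pool.Agent.SH9
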