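import Pool.Agent.SH9.Conv

set_option autoImplicit false

/-!
# Levels: `9 ^ i` points of multiplicity `m` collide into one point of multiplicity `TT m i`
-/

namespace Pool.Agent.SH9

open Pool.Agent.helper89.Segre

/-- `TT m i = 3 ^ i * m + (3 ^ i - 1) / 2` -/
def TT (m : ℕ) : ℕ → ℕ
  | 0 => m
  | i + 1 => 3 * TT m i + 1

/-- `rho i = (9 ^ i - 1) / 8` -/
def rho : ℕ → ℕ
  | 0 => 0
  | i + 1 => 9 * rho i + 1

lemma two_TT (m i : ℕ) : 2 * TT m i + 1 = 3 ^ i * (2 * m + 1) := by
  induction i with
  | zero => simp [TT]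
  | succ i ih =>
    rw [TT, pow_succ]
    calc 2 * (3 * TT m i + 1) + 1 = 3 * (2 * TT m i + 1) := by ring
      _ = 3 * (3 ^ i * (2 * m + 1)) := by rw [ih]
      _ = _ := by ring

lemma eight_rho (i : ℕ) : 8 * rho i + 1 = 9 ^ i := by
  induction i with
  | zero => simp [rho]
  | succ i ih =>
    rw [rho, pow_succ]
    calc 8 * (9 * rho i + 1) + 1 = 9 * (8 * rho i + 1) := by ring
      _ = _ := by rw [ih]; ring

lemma le_TT (m i : ℕ) : m ≤ TT m i := by
  induction i with
  | zero => exact le_rfl
  | succ i ih => rw [TT]; omega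

/-- `C(TT + 1, 2) = 9 ^ i C(m + 1, 2) + rho i` -/
lemma choose_TT (m i : ℕ) :
    (TT m i + 1).choose 2 = 9 ^ i * (m + 1).choose 2 + rho i := by
  induction i with
  | zero => simp [TT, rho]
  | succ i ih =>
    have h1 : ∀ k : ℕ, 2 * (k + 1).choose 2 = k * (k + 1) := by
      intro k
      rw [Nat.choose_two_right, Nat.add_sub_cancel, Nat.mul_div_cancel' (by
        have := Nat.even_mul_succ_self k
        rw [mul_comm] at this
        exact this.two_dvd), mul_comm]
    rw [TT, rho, pow_succ]
    have h2 := h1 (3 * TT m i + 1)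
    have h3 := h1 (TT m i)
    have h4 : 2 * (3 * TT m i + 1 + 1).choose 2 = 2 * (9 * (TT m i + 1).choose 2 + 1) := by
      rw [h2]
      have : 2 * (9 * (TT m i + 1).choose 2 + 1) = 9 * (2 * (TT m i + 1).choose 2) + 2 := by ring
      rw [this, h3]
      ring
    have h5 := Nat.eq_of_mul_eq_mul_left (by norm_num) h4
    rw [h5, ih]
    ring

/-- the list of pairs (level, multiplicity): all groups collided -/
def col (L : List (ℕ × ℕ)) : Multiset ℕ := ↑(L.map fun x => TT x.2 x.1)

/-- all groups expanded -/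
def exL (L : List (ℕ × ℕ)) : Multiset ℕ := (L.map fun x => Multiset.replicate (9 ^ x.1) x.2).sum

/-- the total defect -/
def rhoL (L : List (ℕ × ℕ)) : ℕ := (L.map fun x => rho x.1).sum

lemma kk_col (L : List (ℕ × ℕ)) :
    ((col L).map kk).sum = ((exL L).map kk).sum + rhoL L := by
  induction L with
  | nil => simp [col, exL, rhoL]
  | cons x L ih =>
    have h1 : col (x :: L) = TT x.2 x.1 ::ₘ col L := rfl
    have h2 : exL (x :: L) = Multiset.replicate (9 ^ x.1) x.2 + exL L := by simp [exL]
    have h3 : rhoL (x :: L) = rho x.1 + rhoL L := by simp [rhoL]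
    rw [h1, h2, h3, Multiset.map_cons, Multiset.sum_cons, ih, Multiset.map_add, Multiset.sum_add,
      Multiset.map_replicate, Multiset.sum_replicate, kk, choose_TT, kk, smul_eq_mul]
    ring

end Pool.Agent.SH9
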