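import Pool.Agent.SH9.LevR
import Pool.Agent.SH9.CW

set_option autoImplicit false

/-!
# Module LevE: the expansion without loss and the empty half

`fine`: level `i = 0` is trivial. Level `i + 1`, `μ = TT m i = k + 1`, `TT m (i+1) = 3μ + 1 = t + 2`,
`t = 3 k + 2`: `cw` with `q = 9 ^ (i+1)`, `ρ = rho (i+1)`; `h0` is `sq0`, `h1` is `sq1`.

`sq0`: `E (3μ - 1) (replicate (9 ^ (i+1)) m)`, `μ = TT m i`, if `9 rho i ≤ TT m i`. Induction on `i`.
For `i = 0` it is `nine0` raised. For `i ≥ 1` prove for `k ≤ 9`
`E (3μ-1) (k • replicate (9^i) m + replicate (9-k) μ)`, `k = 0` is `nine0` raised; step `k → k+1`: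
`fine` at level `i` (`sq0` at `i - 1` is available: `9 rho (i-1) ≤ TT m (i-1)` follows from
`9 rho i ≤ TT m i`) with `ms = k • replicate (9^i) m + replicate (8-k) μ`,
`σ = TT m i - rho i`; the second hypothesis is: `E (3μ-1) ((μ-1) ::ₘ replicate 8 μ)` (`nine0` raised
at all but one of the two small ones), expand `k` of the `μ` by `crude`:
`E (3μ-1) ((μ-1) ::ₘ (k • replicate (9^i) m + replicate (8-k) μ + replicate (k rho i) 1))`,
`k rho i ≤ 8 rho i ≤ σ`, `E.add`.
(It may be convenient to prove `fine` and `sq0` by one common induction on the level.)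

`mainE`: split `L = done ++ x :: todo`, induction on the length of `done`: claim
`E d (exL done + (col (rest) + ms))` for every splitting `L = done ++ rest`. Step: `fine` for `x` with
`ms' = exL done + (col todo + ms)`; second hypothesis: `hlow` gives
`E d ((TT x - 1) ::ₘ (col done + (col todo + ms)))`, `crudeL done` gives the same with `exL done` and
`rhoL done` simple points, and `rhoL done + rho x.1 ≤ TT x.2 x.1`.
-/

namespace Pool.Agent.SH9

open Pool.Agent.helper89.Segre

/-- the condition for the level `i`: `9 rho j ≤ TT m j` for `i = j + 1`, nothing for `i = 0` -/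
def LCond (m i : ℕ) : Prop := ∀ j, i = j + 1 → 9 * rho j ≤ TT m j

lemma levE_cons_eq (a : ℕ) (s : Multiset ℕ) : a ::ₘ s = {a} + s :=
  (Multiset.singleton_add a s).symm

lemma levE_nine_top {μ : ℕ} (hμ : 1 ≤ μ) :
    E (3 * μ - 1) ((μ - 1) ::ₘ Multiset.replicate 8 μ) := by
  obtain ⟨k, rfl⟩ : ∃ k, μ = k + 1 := ⟨μ - 1, by omega⟩
  have h1 := nine0 k
  have h2 : Multiset.replicate 7 (k + 1) + Multiset.replicate 2 k =
      k ::ₘ (k ::ₘ Multiset.replicate 7 (k + 1)) := by
    rw [Multiset.replicate_succ k 1, Multiset.replicate_one, Multiset.add_cons, add_comm,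
      Multiset.singleton_add]
  rw [h2] at h1
  have h3 := E.raise h1 (m := k + 1) (by omega)
  rw [Multiset.cons_swap, ← Multiset.replicate_succ] at h3
  have h4 : 3 * (k + 1) - 1 = 3 * k + 2 := by omega
  rw [h4, Nat.add_sub_cancel]
  exact h3

lemma levE_nine_all {μ : ℕ} (hμ : 1 ≤ μ) : E (3 * μ - 1) (Multiset.replicate 9 μ) := by
  have h1 := E.raise (levE_nine_top hμ) (m := μ) (by omega)
  rw [← Multiset.replicate_succ] at h1
  exact h1

/-- `fine` with the emptiness of the square system as a hypothesis -/
theorem fine_aux {i m d σ : ℕ} {ms : Multiset ℕ} (hm : 1 ≤ m)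
    (hsq : ∀ j, i = j + 1 → E (3 * TT m j - 1) (Multiset.replicate (9 ^ (j + 1)) m))
    (hσ : rho i + σ ≤ TT m i) (h : E d (TT m i ::ₘ ms))
    (h' : E d ((TT m i - 1) ::ₘ (ms + Multiset.replicate σ 1))) :
    E d (Multiset.replicate (9 ^ i) m + ms) := by
  rcases i with _ | i
  · rw [pow_zero, Multiset.replicate_one, Multiset.singleton_add]
    exact h
  · have hμ : 1 ≤ TT m i := hm.trans (le_TT m i)
    have h0 := hsq i rfl
    have h1 := sq1 (i := i) hm
    have e1 : 3 * TT m i - 1 + 1 = 3 * TT m i := by omega
    have e2 : 3 * TT m i - 1 + 2 = TT m (i + 1) := by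
      rw [TT]
      omega
    have e3 : 3 * TT m i = TT m (i + 1) - 1 := by
      rw [TT]
      omega
    refine cw (t := 3 * TT m i - 1) (ρ := rho (i + 1)) (σ := σ) ?_ h0 ?_ ?_ ?_
    · rw [e2]
      exact hσ
    · rw [e1]
      exact h1
    · rw [e2]
      exact h
    · rw [e1, e3]
      exact h'

/-- `k` of the eight points expanded by `crude` -/
lemma levE_expand8 {i m : ℕ} (hm : 1 ≤ m) : ∀ k : ℕ, k ≤ 8 →
    E (3 * TT m i - 1) ((TT m i - 1) ::ₘ (Multiset.replicate (k * 9 ^ i) m +
      Multiset.replicate (8 - k) (TT m i) + Multiset.replicate (k * rho i) 1)) := by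
  intro k
  induction k with
  | zero =>
    intro _
    rw [zero_mul, zero_mul, Multiset.replicate_zero, Multiset.replicate_zero, zero_add, add_zero]
    exact levE_nine_top (hm.trans (le_TT m i))
  | succ k ih =>
    intro hk
    have h1 := ih (by omega)
    have h2 : (TT m i - 1) ::ₘ (Multiset.replicate (k * 9 ^ i) m +
      Multiset.replicate (8 - k) (TT m i) + Multiset.replicate (k * rho i) 1) =
        TT m i ::ₘ ((TT m i - 1) ::ₘ (Multiset.replicate (k * 9 ^ i) m +
      Multiset.replicate (8 - (k + 1)) (TT m i) + Multiset.replicate (k * rho i) 1)) := by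
      have h3 : 8 - k = (8 - (k + 1)) + 1 := by omega
      rw [h3, Multiset.replicate_succ]
      simp only [levE_cons_eq]
      abel
    rw [h2] at h1
    have h4 := crude hm h1
    have h5 : (TT m i - 1) ::ₘ (Multiset.replicate ((k + 1) * 9 ^ i) m +
      Multiset.replicate (8 - (k + 1)) (TT m i) + Multiset.replicate ((k + 1) * rho i) 1) =
        Multiset.replicate (9 ^ i) m + ((TT m i - 1) ::ₘ (Multiset.replicate (k * 9 ^ i) m +
          Multiset.replicate (8 - (k + 1)) (TT m i) + Multiset.replicate (k * rho i) 1) +
          Multiset.replicate (rho i) 1) := by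
      rw [add_mul, one_mul, add_mul, one_mul, Multiset.replicate_add, Multiset.replicate_add]
      simp only [levE_cons_eq]
      abel
    rw [h5]
    exact h4

theorem sq0 {i m : ℕ} (hm : 1 ≤ m) (hc : 9 * rho i ≤ TT m i) :
    E (3 * TT m i - 1) (Multiset.replicate (9 ^ (i + 1)) m) := by
  induction i with
  | zero =>
    have h1 := levE_nine_all hm
    rw [zero_add, pow_one]
    exact h1
  | succ i ih =>
    have hrec : 9 * rho i ≤ TT m i := by
      rw [rho, TT] at hc
      omega
    have hsq := ih hrec
    have hμ : 1 ≤ TT m (i + 1) := hm.trans (le_TT m (i + 1))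
    have key : ∀ k : ℕ, k ≤ 9 → E (3 * TT m (i + 1) - 1)
        (Multiset.replicate (k * 9 ^ (i + 1)) m +
          Multiset.replicate (9 - k) (TT m (i + 1))) := by
      intro k
      induction k with
      | zero =>
        intro _
        rw [zero_mul, Multiset.replicate_zero, zero_add]
        exact levE_nine_all hμ
      | succ k ihk =>
        intro hk
        have h1 := ihk (by omega)
        have h2 : Multiset.replicate (k * 9 ^ (i + 1)) m +
            Multiset.replicate (9 - k) (TT m (i + 1)) =
            TT m (i + 1) ::ₘ (Multiset.replicate (k * 9 ^ (i + 1)) m +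
            Multiset.replicate (9 - (k + 1)) (TT m (i + 1))) := by
          have h3 : 9 - k = (9 - (k + 1)) + 1 := by omega
          rw [h3, Multiset.replicate_succ]
          simp only [levE_cons_eq]
          abel
        rw [h2] at h1
        have h3 := levE_expand8 (i := i + 1) hm k (by omega)
        have hkr : k * rho (i + 1) ≤ 8 * rho (i + 1) := Nat.mul_le_mul_right _ (by omega)
        obtain ⟨s, hs⟩ : ∃ s, TT m (i + 1) - rho (i + 1) = k * rho (i + 1) + s :=
          ⟨TT m (i + 1) - rho (i + 1) - k * rho (i + 1), by omega⟩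
        have h4 := h3.add (Multiset.replicate s 1)
        have h5 := fine_aux (i := i + 1) (d := 3 * TT m (i + 1) - 1)
          (σ := TT m (i + 1) - rho (i + 1)) hm
          (fun j hj => by
            have : j = i := by omega
            subst this
            exact hsq) (by omega) h1 (by
            have h6 : (TT m (i + 1) - 1) ::ₘ (Multiset.replicate (k * 9 ^ (i + 1)) m +
                Multiset.replicate (9 - (k + 1)) (TT m (i + 1)) +
                Multiset.replicate (TT m (i + 1) - rho (i + 1)) 1) =
                (TT m (i + 1) - 1) ::ₘ (Multiset.replicate (k * 9 ^ (i + 1)) m +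
                Multiset.replicate (8 - k) (TT m (i + 1)) +
                Multiset.replicate (k * rho (i + 1)) 1) + Multiset.replicate s 1 := by
              have h7 : 9 - (k + 1) = 8 - k := by omega
              rw [hs, h7, Multiset.replicate_add]
              simp only [levE_cons_eq]
              abel
            rw [h6]
            exact h4)
        have h8 : Multiset.replicate ((k + 1) * 9 ^ (i + 1)) m +
            Multiset.replicate (9 - (k + 1)) (TT m (i + 1)) =
            Multiset.replicate (9 ^ (i + 1)) m + (Multiset.replicate (k * 9 ^ (i + 1)) m +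
            Multiset.replicate (9 - (k + 1)) (TT m (i + 1))) := by
          rw [add_mul, one_mul, Multiset.replicate_add]
          abel
        rw [h8]
        exact h5
    have h9 := key 9 le_rfl
    have e9 : 9 ^ (i + 1 + 1) = 9 * 9 ^ (i + 1) := by rw [pow_succ, mul_comm]
    rw [Nat.sub_self, Multiset.replicate_zero, add_zero] at h9
    rw [e9]
    exact h9

theorem fine {i m d σ : ℕ} {ms : Multiset ℕ} (hm : 1 ≤ m) (hc : LCond m i)
    (hσ : rho i + σ ≤ TT m i) (h : E d (TT m i ::ₘ ms))
    (h' : E d ((TT m i - 1) ::ₘ (ms + Multiset.replicate σ 1))) :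
    E d (Multiset.replicate (9 ^ i) m + ms) :=
  fine_aux hm (fun j hj => sq0 hm (hc j hj)) hσ h h'

theorem mainE {d : ℕ} {ms : Multiset ℕ} (L : List (ℕ × ℕ)) (hL : ∀ x ∈ L, 1 ≤ x.2)
    (hc : ∀ x ∈ L, LCond x.2 x.1) (h : E d (col L + ms))
    (hlow : ∀ (done todo : List (ℕ × ℕ)) (x : ℕ × ℕ), L = done ++ x :: todo →
      E d ((TT x.2 x.1 - 1) ::ₘ (col done + (col todo + ms))))
    (hsum : ∀ (done todo : List (ℕ × ℕ)) (x : ℕ × ℕ), L = done ++ x :: todo →
      rhoL done + rho x.1 ≤ TT x.2 x.1) :
    E d (exL L + ms) := by
  have key : ∀ rest done : List (ℕ × ℕ), L = done ++ rest →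
      E d (exL done + (col rest + ms)) → E d (exL L + ms) := by
    intro rest
    induction rest with
    | nil =>
      intro done hd h1
      rw [List.append_nil] at hd
      rw [hd]
      have : col [] = 0 := rfl
      rw [this, zero_add] at h1
      exact h1
    | cons x todo ih =>
      intro done hd h1
      have hx : x ∈ L := by
        rw [hd]
        simp
      refine ih (done ++ [x]) (by rw [hd]; simp) ?_
      have e1 : exL (done ++ [x]) = exL done + Multiset.replicate (9 ^ x.1) x.2 := by
        simp [exL]
      have e2 : col (x :: todo) = TT x.2 x.1 ::ₘ col todo := rfl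
      have h2 := hlow done todo x hd
      have e3 : (TT x.2 x.1 - 1) ::ₘ (col done + (col todo + ms)) =
          col done + ((TT x.2 x.1 - 1) ::ₘ (col todo + ms)) := by
        simp only [levE_cons_eq]
        abel
      rw [e3] at h2
      have h3 := crudeL done (fun y hy => hL y (by rw [hd]; simp [hy])) h2
      have h4 := hsum done todo x hd
      have h5 := fine (i := x.1) (m := x.2) (d := d) (σ := rhoL done)
        (ms := exL done + (col todo + ms)) (hL x hx) (hc x hx) (by omega) (by
          rw [e2] at h1
          have e4 : TT x.2 x.1 ::ₘ (exL done + (col todo + ms)) =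
              exL done + (TT x.2 x.1 ::ₘ col todo + ms) := by
            simp only [levE_cons_eq]
            abel
          rw [e4]
          exact h1) (by
          have e5 : (TT x.2 x.1 - 1) ::ₘ (exL done + (col todo + ms) +
              Multiset.replicate (rhoL done) 1) =
              exL done + ((TT x.2 x.1 - 1) ::ₘ (col todo + ms) +
              Multiset.replicate (rhoL done) 1) := by
            simp only [levE_cons_eq]
            abel
          rw [e5]
          exact h3)
      have e6 : exL (done ++ [x]) + (col todo + ms) =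
          Multiset.replicate (9 ^ x.1) x.2 + (exL done + (col todo + ms)) := by
        rw [e1]
        abel
      rw [e6]
      exact h5
  refine key L [] rfl ?_
  have : exL [] = 0 := rfl
  rw [this, zero_add]
  exact h

end Pool.Agent.SH9
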