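import Pool.Agent.SH9.Lev
import Pool.Agent.SH9.CC1
import Pool.Agent.SH9.Nine

set_option autoImplicit false

/-!
# Module LevR: the crude expansion and the regular half

`crude`: induction on `i` (general `ms`). `i + 1`: `TT m (i+1) = 3 μ + 1`, `μ = TT m i ≥ 1`, write
`μ = k + 1`; `cc1` with `t = 3 k + 2`, `q = 9`, multiplicity `k + 1`: `E t (9 μ)` is `nine0 k` raised,
`E (t+1) (1, 9 μ)` is `nine1 μ` (`3 k + 3 = 3 μ`) plus one simple point (`E_ones_of_good`,
`card (tri (3μ)) = 9 C(μ+1,2) + 1`). Then `E d (replicate 9 μ + (1 ::ₘ ms))`; apply the induction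
hypothesis nine times (a lemma for `replicate k μ + ms'`, induction on `k`).
`crudeL`: induction on `L`. `sq1`: `μ = TT m i`: `E (3μ) (replicate 9 μ + {1})`, expand nine times.
`mainR`: `E_ones_of_good`, `crudeL`, `good_of_E_ones`, `kk_col`.
-/

namespace Pool.Agent.SH9

open Pool.Agent.helper89.Segre

/-- nine points of multiplicity `k + 1` in degree `3 k + 2` -/
lemma levR_nine (k : ℕ) : E (3 * k + 2) (Multiset.replicate 9 (k + 1)) := by
  have h0 := nine0 k
  have e1 : Multiset.replicate 7 (k + 1) + Multiset.replicate 2 k =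
      k ::ₘ (k ::ₘ Multiset.replicate 7 (k + 1)) := by
    rw [add_comm]; rfl
  rw [e1] at h0
  have h1 := h0.raise (Nat.le_succ k)
  rw [Multiset.cons_swap] at h1
  exact h1.raise (Nat.le_succ k)

/-- nine points of multiplicity `k + 1` and a simple point in degree `3 k + 3` -/
lemma levR_nine1 (k : ℕ) : E (3 * (k + 1)) (Multiset.replicate 9 (k + 1) +
    Multiset.replicate 1 1) := by
  refine E_ones_of_good (nine1 (k + 1)) ?_
  rw [card_tri]
  have h1 : ∀ n : ℕ, 2 * (n + 1).choose 2 = n * (n + 1) := by
    intro n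
    rw [Nat.choose_two_right, Nat.add_sub_cancel, Nat.mul_div_cancel' (by
      have := Nat.even_mul_succ_self n
      rw [mul_comm] at this
      exact this.two_dvd), mul_comm]
  have h2 := h1 (3 * (k + 1) + 1)
  have h3 := h1 (k + 1)
  have h4 : (3 * (k + 1) + 1) * (3 * (k + 1) + 1 + 1) =
      9 * ((k + 1) * (k + 1 + 1)) + 2 := by ring
  have h5 : 3 * (k + 1) + 1 + 1 = 3 * (k + 1) + 2 := rfl
  rw [h5] at h2 h4
  omega

lemma levR_step {μ d : ℕ} {ms : Multiset ℕ} (hμ : 1 ≤ μ) (h : E d ((3 * μ + 1) ::ₘ ms)) :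
    E d (Multiset.replicate 9 μ + (1 ::ₘ ms)) := by
  obtain ⟨k, rfl⟩ : ∃ k, μ = k + 1 := ⟨μ - 1, by omega⟩
  have h1 : E (3 * (k + 1)) (1 ::ₘ Multiset.replicate 9 (k + 1)) := by
    have h2 := levR_nine1 k
    rwa [add_comm (Multiset.replicate 9 (k + 1))] at h2
  exact cc1 (t := 3 * k + 2) (levR_nine k) h1 h

/-- expanding `k` points -/
lemma levR_many {i m : ℕ}
    (ih : ∀ {d : ℕ} {ms : Multiset ℕ}, E d (TT m i ::ₘ ms) →
      E d (Multiset.replicate (9 ^ i) m + (ms + Multiset.replicate (rho i) 1))) :
    ∀ (k : ℕ) {d : ℕ} {ms : Multiset ℕ}, E d (Multiset.replicate k (TT m i) + ms) →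
      E d (Multiset.replicate (k * 9 ^ i) m + (ms + Multiset.replicate (k * rho i) 1)) := by
  intro k
  induction k with
  | zero => intro d ms h; simpa using h
  | succ k ihk =>
    intro d ms h
    rw [Multiset.replicate_succ, Multiset.cons_add] at h
    have h1 := ih h
    have e1 : Multiset.replicate (9 ^ i) m + ((Multiset.replicate k (TT m i) + ms) +
        Multiset.replicate (rho i) 1) = Multiset.replicate k (TT m i) +
        (ms + Multiset.replicate (rho i) 1 + Multiset.replicate (9 ^ i) m) := by abel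
    rw [e1] at h1
    have h2 := ihk h1
    have e2 : Multiset.replicate ((k + 1) * 9 ^ i) m +
        (ms + Multiset.replicate ((k + 1) * rho i) 1) =
        Multiset.replicate (k * 9 ^ i) m + ((ms + Multiset.replicate (rho i) 1 +
          Multiset.replicate (9 ^ i) m) + Multiset.replicate (k * rho i) 1) := by
      rw [add_mul, add_mul, one_mul, one_mul, Multiset.replicate_add, Multiset.replicate_add]
      abel
    rw [e2]
    exact h2

theorem crude {i m d : ℕ} {ms : Multiset ℕ} (hm : 1 ≤ m) (h : E d (TT m i ::ₘ ms)) :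
    E d (Multiset.replicate (9 ^ i) m + (ms + Multiset.replicate (rho i) 1)) := by
  induction i generalizing d ms with
  | zero => simpa [TT, rho, Multiset.replicate_one, Multiset.singleton_add] using h
  | succ i ih =>
    rw [TT] at h
    have h1 := levR_step (hm.trans (le_TT m i)) h
    have h2 := levR_many (fun {d} {ms} h => ih h) 9 h1
    have e1 : Multiset.replicate (9 ^ (i + 1)) m + (ms + Multiset.replicate (rho (i + 1)) 1) =
        Multiset.replicate (9 * 9 ^ i) m + ((1 ::ₘ ms) + Multiset.replicate (9 * rho i) 1) := by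
      rw [rho, pow_succ, mul_comm (9 ^ i) 9, Multiset.replicate_add, Multiset.replicate_one,
        ← Multiset.singleton_add]
      abel
    rw [e1]
    exact h2

theorem crudeL {d : ℕ} {ms : Multiset ℕ} (L : List (ℕ × ℕ)) (hL : ∀ x ∈ L, 1 ≤ x.2)
    (h : E d (col L + ms)) : E d (exL L + (ms + Multiset.replicate (rhoL L) 1)) := by
  induction L generalizing ms with
  | nil => simpa [col, exL, rhoL] using h
  | cons x L ih =>
    have h1 : col (x :: L) = TT x.2 x.1 ::ₘ col L := rfl
    have h2 : exL (x :: L) = Multiset.replicate (9 ^ x.1) x.2 + exL L := by simp [exL]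
    have h3 : rhoL (x :: L) = rho x.1 + rhoL L := by simp [rhoL]
    rw [h1, Multiset.cons_add] at h
    have h4 := crude (hL x List.mem_cons_self) h
    have e1 : Multiset.replicate (9 ^ x.1) x.2 + (col L + ms + Multiset.replicate (rho x.1) 1) =
        col L + (ms + Multiset.replicate (rho x.1) 1 + Multiset.replicate (9 ^ x.1) x.2) := by
      abel
    rw [e1] at h4
    have h5 := ih (fun y hy => hL y (List.mem_cons_of_mem _ hy)) h4
    have e2 : exL (x :: L) + (ms + Multiset.replicate (rhoL (x :: L)) 1) =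
        exL L + (ms + Multiset.replicate (rho x.1) 1 + Multiset.replicate (9 ^ x.1) x.2 +
          Multiset.replicate (rhoL L) 1) := by
      rw [h2, h3, Multiset.replicate_add]
      abel
    rw [e2]
    exact h5

theorem sq1 {i m : ℕ} (hm : 1 ≤ m) :
    E (3 * TT m i) (Multiset.replicate (9 ^ (i + 1)) m + Multiset.replicate (rho (i + 1)) 1) := by
  obtain ⟨k, hk⟩ : ∃ k, TT m i = k + 1 := ⟨TT m i - 1, by have := le_TT m i; omega⟩
  have h1 : E (3 * TT m i) (Multiset.replicate 9 (TT m i) + Multiset.replicate 1 1) := by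
    rw [hk]
    exact levR_nine1 k
  have h2 := levR_many (fun {d} {ms} h => crude hm h) 9 h1
  have e1 : Multiset.replicate (9 ^ (i + 1)) m + Multiset.replicate (rho (i + 1)) 1 =
      Multiset.replicate (9 * 9 ^ i) m +
        (Multiset.replicate 1 1 + Multiset.replicate (9 * rho i) 1) := by
    rw [rho, pow_succ, mul_comm (9 ^ i) 9, ← Multiset.replicate_add, add_comm 1]
  rw [e1]
  exact h2

theorem mainR {d : ℕ} {ms : Multiset ℕ} (L : List (ℕ × ℕ)) (hL : ∀ x ∈ L, 1 ≤ x.2)
    (h : Good ℂ (tri d) (col L + ms) ((col L + ms).map kk).sum)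
    (hle : ((col L + ms).map kk).sum ≤ (tri d).card) :
    Good ℂ (tri d) (exL L + ms) ((exL L + ms).map kk).sum := by
  have h1 := E_ones_of_good (v := (tri d).card - ((col L + ms).map kk).sum) h (by omega)
  rw [add_assoc] at h1
  have h2 := crudeL L hL h1
  have e1 : exL L + (ms + Multiset.replicate ((tri d).card - ((col L + ms).map kk).sum) 1 +
      Multiset.replicate (rhoL L) 1) = (exL L + ms) +
      Multiset.replicate ((tri d).card - ((col L + ms).map kk).sum + rhoL L) 1 := by
    rw [Multiset.replicate_add]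
    abel
  rw [e1] at h2
  have h3 := good_of_E_ones h2
  have h4 := kk_col L
  have h5 : ((col L + ms).map kk).sum = ((col L).map kk).sum + (ms.map kk).sum := by
    rw [Multiset.map_add, Multiset.sum_add]
  have h6 : ((exL L + ms).map kk).sum = ((exL L).map kk).sum + (ms.map kk).sum := by
    rw [Multiset.map_add, Multiset.sum_add]
  have h7 : (tri d).card - ((tri d).card - ((col L + ms).map kk).sum + rhoL L) =
      ((exL L + ms).map kk).sum := by omega
  rw [h7] at h3
  exact h3

end Pool.Agent.SH9
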