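import Pool.Agent.SH9.Final

set_option autoImplicit false

/-!
# Logarithmic form of the main theorem
-/

namespace Pool.Agent.SH9

open MvPolynomial Pool.Agent.helper5.NBS Pool.Agent.helper89.Segre

theorem log_num {l H B : ℝ} (hl : 0 ≤ l) (hH0 : 0 ≤ H) (hH : H ≤ 193 + 40 / 3 * l)
    (hB : B = 200 + 14 * l) : √H + 1 / 10 ≤ √B := by
  apply Real.le_sqrt_of_sq_le
  have h1 : √H * √H = H := Real.mul_self_sqrt hH0
  nlinarith [sq_nonneg (√H - 14), Real.sqrt_nonneg H]

theorem exp_num {H : ℝ} {d : ℕ} (hH : 192 + 40 / 3 * Real.log (d + 2) ≤ H) :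
    Real.exp (-(3 * H / 40)) * (d + 2) ≤ 1 / 5 := by
  have hd : (0 : ℝ) < (d : ℝ) + 2 := by positivity
  have h1 : Real.exp (-(3 * H / 40)) ≤ Real.exp (-(72 / 5) - Real.log (d + 2)) :=
    Real.exp_le_exp.mpr (by linarith)
  rw [Real.exp_sub, Real.exp_log hd] at h1
  have h2 : Real.exp (-(72 / 5)) ≤ 1 / 5 := by
    have h3 : (72 / 5 : ℝ) + 1 ≤ Real.exp (72 / 5) := Real.add_one_le_exp _
    rw [Real.exp_neg, inv_le_comm₀ (Real.exp_pos _) (by norm_num)]
    norm_num
    linarith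
  calc Real.exp (-(3 * H / 40)) * (d + 2) ≤ Real.exp (-(72 / 5)) / (d + 2) * (d + 2) :=
        mul_le_mul_of_nonneg_right h1 hd.le
    _ = Real.exp (-(72 / 5)) := by field_simp
    _ ≤ 1 / 5 := h2

theorem main_log (h m d : ℕ) (hB : 200 + 14 * Real.log (d + 2) ≤ h)
    (hv : (h : ℝ) * ((m + 1).choose 2 : ℕ) +
        4 * (d + 2) * √(200 + 14 * Real.log (d + 2)) ≤ ((d + 2).choose 2 : ℕ) ∨
      (((d + 2).choose 2 : ℕ) : ℝ) +
        2 * (d + 2) * √(200 + 14 * Real.log (d + 2)) ≤ h * ((m + 1).choose 2 : ℕ)) :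
    ∃ Q : MvPolynomial (Fin h × Fin 3) ℂ, Q ≠ 0 ∧ ∀ p : Fin h → Fin 3 → ℂ,
      eval (fun ij : Fin h × Fin 3 => p ij.1 ij.2) Q ≠ 0 →
      Module.finrank ℂ (sys d h (fun _ => m) p) = (d + 2).choose 2 - h * (m + 1).choose 2 := by
  have hd : (0 : ℝ) < (d : ℝ) + 2 := by positivity
  have hl : 0 ≤ Real.log ((d : ℝ) + 2) := Real.log_nonneg (by
    have : (0 : ℝ) ≤ d := by positivity
    linarith)
  obtain ⟨l, hldef⟩ : ∃ l, l = Real.log ((d : ℝ) + 2) := ⟨_, rfl⟩
  rw [← hldef] at hB hv hl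
  obtain ⟨H, hHdef⟩ : ∃ H : ℕ, H = ⌈40 / 3 * l⌉₊ + 192 := ⟨_, rfl⟩
  have hH1 : 192 + 40 / 3 * l ≤ (H : ℝ) := by
    have := Nat.le_ceil (40 / 3 * l)
    rw [hHdef]
    push_cast
    linarith
  have hH2 : (H : ℝ) ≤ 193 + 40 / 3 * l := by
    have := (Nat.ceil_lt_add_one (a := 40 / 3 * l) (by positivity)).le
    rw [hHdef]
    push_cast
    linarith
  have hHh : H ≤ h := by
    have : (H : ℝ) ≤ h := by linarith
    exact_mod_cast this
  have h192 : 192 ≤ H := by omega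
  have hs := log_num hl (by positivity) hH2 rfl
  have he := exp_num (d := d) (hldef ▸ hH1)
  by_cases hexp : (h : ℝ) ≤ Real.exp (H / 2)
  · apply main H h m d h192 hHh hexp
    rcases hv with hv | hv
    · left
      nlinarith
    · right
      nlinarith
  · -- many points
    have hsum : ∑ _k : Fin h, (m + 1).choose 2 = h * (m + 1).choose 2 := by simp
    have h1 : ((d : ℝ) + 2) ^ 2 + 5 ≤ h := by
      have h2 : Real.exp (96 + 2 * l) ≤ Real.exp (H / 2) := Real.exp_le_exp.mpr (by linarith)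
      rw [Real.exp_add, two_mul, Real.exp_add, hldef, Real.exp_log hd] at h2
      have h3 : (96 : ℝ) + 1 ≤ Real.exp 96 := Real.add_one_le_exp _
      have h4 : (2 : ℝ) ≤ (d : ℝ) + 2 := by
        have : (0 : ℝ) ≤ d := by positivity
        linarith
      have h5 : (4 : ℝ) ≤ ((d : ℝ) + 2) * (d + 2) := by nlinarith
      have h6 := mul_le_mul_of_nonneg_right h3 (by positivity : (0 : ℝ) ≤ ((d : ℝ) + 2) * (d + 2))
      push Not at hexp
      nlinarith
    have h2 : (d + 2) ^ 2 + 5 ≤ h := by exact_mod_cast h1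
    have h3 := awayFromZero d h m (fun _ => m) (fun _ => le_rfl) (by
      rw [hsum]
      rcases Nat.eq_zero_or_pos m with hm | hm
      · left
        subst hm
        simp
        exact Nat.choose_pos (by omega)
      · right
        have h4 : 1 ≤ (m + 1).choose 2 := Nat.choose_pos (by omega)
        have h5 : (d + 2).choose 2 ≤ (d + 2) ^ 2 := Nat.choose_le_pow (d + 2) 2
        calc (d + 2).choose 2 + 5 * (m + 1).choose 2
            ≤ (d + 2) ^ 2 * (m + 1).choose 2 + 5 * (m + 1).choose 2 := by nlinarith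
          _ = ((d + 2) ^ 2 + 5) * (m + 1).choose 2 := by ring
          _ ≤ h * (m + 1).choose 2 := Nat.mul_le_mul_right _ h2)
    rw [hsum] at h3
    exact h3

end Pool.Agent.SH9
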